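import Pool.Agent.TH234.Kc.Aff

set_option autoImplicit false

/-!
A smooth convex cap, and the geometry of the defining function.
-/

namespace Pool.Agent.TH234.Kc

open Filter Topology Finset

/-- the smooth convex cap -/
noncomputable def qc (t : ℝ) : ℝ := t ^ 2 * expNegInvGlue t
/-- its derivative -/
noncomputable def qc1 (t : ℝ) : ℝ := (2 * t + 1) * expNegInvGlue t
/-- its second derivative -/
noncomputable def qc2 (t : ℝ) : ℝ :=
  2 * expNegInvGlue t + (2 * t + 1) * ((t⁻¹) ^ 2 * expNegInvGlue t)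

theorem eni_smooth : Sm expNegInvGlue := expNegInvGlue.contDiff

theorem eni_deriv (t : ℝ) : HasDerivAt expNegInvGlue ((t⁻¹) ^ 2 * expNegInvGlue t) t := by
  have h := expNegInvGlue.hasDerivAt_polynomial_eval_inv_mul (1 : Polynomial ℝ) t
  simpa using h

theorem qc_smooth : Sm qc := (contDiff_id.pow 2).mul eni_smooth

theorem qc_deriv (t : ℝ) : HasDerivAt qc (qc1 t) t := by
  have h := (hasDerivAt_pow 2 t).mul (eni_deriv t)
  refine h.congr_deriv ?_
  unfold qc1
  rcases eq_or_ne t 0 with h0 | h0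
  · subst h0; simp
  · field_simp
    push_cast
    ring

theorem qc1_deriv (t : ℝ) : HasDerivAt qc1 (qc2 t) t := by
  have h := (((hasDerivAt_id t).const_mul 2).add_const 1).mul (eni_deriv t)
  refine h.congr_deriv ?_
  unfold qc2
  simp

theorem qc1_nonneg (t : ℝ) : 0 ≤ qc1 t := by
  unfold qc1
  rcases le_or_gt t 0 with h | h
  · rw [expNegInvGlue.zero_of_nonpos h]; simp
  · exact mul_nonneg (by linarith) (expNegInvGlue.nonneg t)

theorem qc2_nonneg (t : ℝ) : 0 ≤ qc2 t := by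
  unfold qc2
  have h0 := expNegInvGlue.nonneg t
  rcases le_or_gt t 0 with h | h
  · rw [expNegInvGlue.zero_of_nonpos h]; simp
  · have : 0 ≤ 2 * t + 1 := by linarith
    positivity

theorem qc_nonneg (t : ℝ) : 0 ≤ qc t := mul_nonneg (by positivity) (expNegInvGlue.nonneg t)

theorem qc_zero (t : ℝ) (ht : t ≤ 0) : qc t = 0 := by
  unfold qc; rw [expNegInvGlue.zero_of_nonpos ht, mul_zero]

theorem qc_grow (t : ℝ) (ht : 2 ≤ t) : t ^ 2 / 2 ≤ qc t := by
  unfold qc
  have h1 : (1:ℝ) / 2 ≤ expNegInvGlue t := by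
    unfold expNegInvGlue
    rw [if_neg (by linarith)]
    have h2 : t⁻¹ ≤ 1 / 2 := by
      rw [inv_le_comm₀ (by linarith) (by norm_num)]
      linarith
    have h3 := Real.add_one_le_exp (-t⁻¹)
    linarith
  nlinarith [sq_nonneg t]

theorem qc_mono : Monotone qc := by
  apply monotone_of_deriv_nonneg (fun t => (qc_deriv t).differentiableAt)
  intro t
  rw [(qc_deriv t).deriv]
  exact qc1_nonneg t

theorem qc_convex : ConvexOn ℝ Set.univ qc := by
  have e : deriv qc = qc1 := funext fun t => (qc_deriv t).deriv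
  have e2 : deriv qc1 = qc2 := funext fun t => (qc1_deriv t).deriv
  apply convexOn_univ_of_deriv2_nonneg (fun t => (qc_deriv t).differentiableAt)
  · rw [e]; exact fun t => (qc1_deriv t).differentiableAt
  · intro t
    show 0 ≤ deriv (deriv qc) t
    rw [e, e2]
    exact qc2_nonneg t

/-- the defining function -/
noncomputable def rho (u : E4 → ℝ) (B : ℝ) (p : E4) : ℝ := (p 3).re + u p + qc (‖p‖ ^ 2 - B ^ 2)

theorem cap_levi (B : ℝ) (p w : E4) :
    0 ≤ fderiv ℝ (fderiv ℝ (fun p : E4 => qc (‖p‖ ^ 2 - B ^ 2))) p w w := by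
  obtain ⟨b, hb⟩ : ∃ b : ℝ, b = 2 * RCLike.re (inner ℂ p w) := ⟨_, rfl⟩
  obtain ⟨c, hc⟩ : ∃ c : ℝ, c = ‖w‖ ^ 2 := ⟨_, rfl⟩
  obtain ⟨a, ha⟩ : ∃ a : ℝ, a = ‖p‖ ^ 2 - B ^ 2 := ⟨_, rfl⟩
  have hs : Sm (fun p : E4 => qc (‖p‖ ^ 2 - B ^ 2)) :=
    qc_smooth.comp ((contDiff_norm_sq ℂ).sub contDiff_const)
  have hg : ∀ τ : ℝ, HasDerivAt (fun τ : ℝ => a + b * τ + c * τ ^ 2) (b + 2 * c * τ) τ := by
    intro τ
    have h1 := ((hasDerivAt_id τ).const_mul b).const_add a
    have h2 := (hasDerivAt_pow 2 τ).const_mul c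
    have h3 := h1.add h2
    have e : b * 1 + c * (((2 : ℕ) : ℝ) * τ ^ (2 - 1)) = b + 2 * c * τ := by
      norm_num; ring
    rw [e] at h3
    exact h3
  have hc0 : 0 ≤ c := by rw [hc]; positivity
  have h := second_line (fun p : E4 => qc (‖p‖ ^ 2 - B ^ 2)) (hs.of_le two_le_top) p w
    (fun τ => qc (a + b * τ + c * τ ^ 2)) (fun τ => qc1 (a + b * τ + c * τ ^ 2) * (b + 2 * c * τ))
    (qc2 a * b * b + qc1 a * (2 * c)) ?_ ?_ ?_
  · rw [h]
    have q1 := qc1_nonneg a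
    have q2 := qc2_nonneg a
    nlinarith [mul_nonneg q2 (mul_self_nonneg b), mul_nonneg q1 hc0]
  · intro τ
    show qc (‖p + τ • w‖ ^ 2 - B ^ 2) = qc (a + b * τ + c * τ ^ 2)
    congr 1
    rw [norm_add_sq (𝕜 := ℂ), norm_smul, mul_pow, Real.norm_eq_abs, sq_abs]
    have e : inner ℂ p (τ • w) = (τ : ℂ) * inner ℂ p w := by
      rw [← inner_smul_right]
      congr 1
    rw [e, RCLike.re_eq_complex_re, Complex.re_ofReal_mul]
    rw [ha, hb, hc, RCLike.re_eq_complex_re]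
    ring
  · intro τ
    exact (qc_deriv _).comp τ (hg τ)
  · have h1 : HasDerivAt (fun τ : ℝ => qc1 (a + b * τ + c * τ ^ 2))
        (qc2 (a + b * 0 + c * 0 ^ 2) * (b + 2 * c * 0)) 0 := (qc1_deriv _).comp 0 (hg 0)
    have h2 : HasDerivAt (fun τ : ℝ => b + 2 * c * τ) (2 * c) 0 := by
      simpa using ((hasDerivAt_id (0 : ℝ)).const_mul (2 * c)).const_add b
    refine (h1.mul h2).congr_deriv ?_
    simp

theorem rho_smooth (u : E4 → ℝ) (B : ℝ) (hu : Sm u) : Sm (rho u B) := by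
  unfold rho
  have h1 : Sm (fun p : E4 => (p 3).re) := by
    have : Sm (Complex.reCLM.comp ((EuclideanSpace.proj 3 : E4 →L[ℂ] ℂ).restrictScalars ℝ)) :=
      ContinuousLinearMap.contDiff _
    exact this
  exact (h1.add hu).add (qc_smooth.comp ((contDiff_norm_sq ℂ).sub contDiff_const))

theorem rho_levi (u : E4 → ℝ) (B : ℝ) (hu : Sm u) (p w : E4)
    (hL : 0 ≤ fderiv ℝ (fderiv ℝ u) p w w
        + fderiv ℝ (fderiv ℝ u) p (Complex.I • w) (Complex.I • w)) :
    0 ≤ fderiv ℝ (fderiv ℝ (rho u B)) p w w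
        + fderiv ℝ (fderiv ℝ (rho u B)) p (Complex.I • w) (Complex.I • w) := by
  set L : E4 →L[ℝ] ℝ := Complex.reCLM.comp
    ((EuclideanSpace.proj 3 : E4 →L[ℂ] ℂ).restrictScalars ℝ) with hLdef
  set c : E4 → ℝ := fun p => qc (‖p‖ ^ 2 - B ^ 2) with hc
  have hrho : rho u B = fun p => L p + u p + c p := by
    funext p
    rfl
  have hcs : Sm c := qc_smooth.comp ((contDiff_norm_sq ℂ).sub contDiff_const)
  have du : Differentiable ℝ u := hu.differentiable (by simp)
  have dc : Differentiable ℝ c := hcs.differentiable (by simp)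
  have du2 : Differentiable ℝ (fderiv ℝ u) :=
    (ContDiff.fderiv_right (m := ((⊤ : ℕ∞) : WithTop ℕ∞)) hu (by simp)).differentiable (by simp)
  have dc2 : Differentiable ℝ (fderiv ℝ c) :=
    (ContDiff.fderiv_right (m := ((⊤ : ℕ∞) : WithTop ℕ∞)) hcs (by simp)).differentiable (by simp)
  have e1 : fderiv ℝ (rho u B) = fun p => L + fderiv ℝ u p + fderiv ℝ c p := by
    funext p
    rw [hrho]
    have h := (L.hasFDerivAt (x := p)).add (du p).hasFDerivAt
    exact (h.add (dc p).hasFDerivAt).fderiv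
  have e2 : ∀ p, fderiv ℝ (fderiv ℝ (rho u B)) p = fderiv ℝ (fderiv ℝ u) p + fderiv ℝ (fderiv ℝ c) p := by
    intro p
    rw [e1]
    have h := ((hasFDerivAt_const L p).add (du2 p).hasFDerivAt).add (dc2 p).hasFDerivAt
    rw [zero_add] at h
    exact h.fderiv
  rw [e2]
  have a2 := cap_levi B p w
  have a3 := cap_levi B p (Complex.I • w)
  have a2' : 0 ≤ fderiv ℝ (fderiv ℝ c) p w w := a2
  have a3' : 0 ≤ fderiv ℝ (fderiv ℝ c) p (Complex.I • w) (Complex.I • w) := a3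
  simp only [add_apply]
  linarith

theorem convex_part (B : ℝ) :
    ConvexOn ℝ Set.univ (fun p : E4 => (p 3).re + qc (‖p‖ ^ 2 - B ^ 2)) := by
  have h1 : ConvexOn ℝ Set.univ (fun p : E4 => (p 3).re) := by
    refine ⟨convex_univ, ?_⟩
    intro x _ y _ a b _ _ _
    apply le_of_eq
    simp
  have h2 : ConvexOn ℝ Set.univ (fun p : E4 => ‖p‖ ^ 2) :=
    (convexOn_norm convex_univ).pow (fun _ _ => norm_nonneg _) 2
  have h3 : ConvexOn ℝ Set.univ (fun p : E4 => ‖p‖ ^ 2 - B ^ 2) := by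
    have h4 := h2.add_const (-B ^ 2)
    have h5 : (fun p : E4 => ‖p‖ ^ 2 - B ^ 2) =
        (fun p : E4 => ‖p‖ ^ 2) + fun _ => (-B ^ 2) := by
      funext p
      simp [sub_eq_add_neg]
    rw [h5]
    exact h4
  have h6 : ConvexOn ℝ Set.univ (fun p : E4 => qc (‖p‖ ^ 2 - B ^ 2)) := by
    refine ⟨convex_univ, ?_⟩
    intro x _ y _ a b ha hb hab
    have k1 := h3.2 (Set.mem_univ x) (Set.mem_univ y) ha hb hab
    have k2 := qc_convex.2 (Set.mem_univ (‖x‖ ^ 2 - B ^ 2)) (Set.mem_univ (‖y‖ ^ 2 - B ^ 2)) ha hb hab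
    exact (qc_mono k1).trans k2
  exact h1.add h6

theorem lip (u : E4 → ℝ) (hu : Sm u) (h1 : ∀ p, ‖fderiv ℝ u p‖ ≤ 1 / 20) (p q : E4) :
    |u p - u q| ≤ 1 / 20 * ‖p - q‖ := by
  have h := (convex_univ (𝕜 := ℝ) (E := E4)).norm_image_sub_le_of_norm_fderiv_le
    (𝕜 := ℝ) (f := u) (C := 1 / 20) (x := q) (y := p)
    (fun x _ => (hu.differentiable (by simp)).differentiableAt) (fun x _ => h1 x)
    (Set.mem_univ _) (Set.mem_univ _)
  simpa [Real.norm_eq_abs] using h

theorem rho_geom (u : E4 → ℝ) (B : ℝ) (hB : 2 ≤ B) (hu : Sm u)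
    (h1 : ∀ p, ‖fderiv ℝ u p‖ ≤ 1 / 20) (h0 : |u 0| ≤ 1 / 20) :
    Bornology.IsBounded {p | rho u B p < 0} ∧ IsConnected {p | rho u B p < 0} ∧
    (∀ p, rho u B p = 0 → fderiv ℝ (rho u B) p ≠ 0) ∧ (∀ p, rho u B p ≤ 0 → ‖p‖ ≤ B + 1) := by
  have hr := rho_smooth u B hu
  have hlip := lip u hu h1
  have hub : ∀ p, |u p| ≤ 1 / 20 + 1 / 20 * ‖p‖ := by
    intro p
    have h := hlip p 0
    rw [sub_zero] at h
    calc |u p| = |(u p - u 0) + u 0| := by ring_nf
      _ ≤ |u p - u 0| + |u 0| := abs_add_le _ _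
      _ ≤ _ := by linarith
  have hre : ∀ p : E4, |(p 3).re| ≤ ‖p‖ := by
    intro p
    exact (Complex.abs_re_le_norm _).trans (PiLp.norm_apply_le p 3)
  -- (i)
  have hbd : ∀ p, rho u B p ≤ 0 → ‖p‖ ≤ B + 1 := by
    intro p hp
    by_contra hlt
    push Not at hlt
    have ht : ‖p‖ + B ≤ ‖p‖ ^ 2 - B ^ 2 := by nlinarith
    have ht5 : 5 ≤ ‖p‖ ^ 2 - B ^ 2 := by linarith
    have hQ := qc_grow (‖p‖ ^ 2 - B ^ 2) (by linarith)
    have hQ2 : 5 * ‖p‖ ≤ (‖p‖ ^ 2 - B ^ 2) ^ 2 := by nlinarith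
    have h2 := hub p
    have h3 := hre p
    have h4 := neg_abs_le (u p)
    have h5 := neg_abs_le ((p 3).re)
    unfold rho at hp
    linarith
  obtain ⟨p0, hp0⟩ : ∃ p0 : E4,
      p0 = EuclideanSpace.single (3 : Fin 4) ((-(B / 2) : ℝ) : ℂ) := ⟨_, rfl⟩
  have hp0n : ‖p0‖ = B / 2 := by
    rw [hp0, PiLp.norm_single, Complex.norm_real, Real.norm_eq_abs, abs_neg,
      abs_of_pos (by linarith)]
  have hp0l : (p0 3).re = -(B / 2) := by
    rw [hp0]; simp
  have hQ0 : qc (‖p0‖ ^ 2 - B ^ 2) = 0 := by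
    apply qc_zero
    rw [hp0n]; nlinarith
  have hcpos : ∀ p : E4, ‖p‖ ≤ B + 1 →
      0 < B / 2 - |u p| - 1 / 20 * ‖p - p0‖ := by
    intro p hp
    have h2 := hub p
    have h3 : ‖p - p0‖ ≤ ‖p‖ + ‖p0‖ := norm_sub_le _ _
    rw [hp0n] at h3
    linarith
  have key : ∀ p : E4, ∀ t : ℝ, 0 ≤ t → t ≤ 1 →
      rho u B ((1 - t) • p + t • p0) ≤
        (1 - t) * rho u B p - t * (B / 2 - |u p| - 1 / 20 * ‖p - p0‖) := by
    intro p t ht0 ht1
    have hc := (convex_part B).2 (Set.mem_univ p) (Set.mem_univ p0)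
      (show 0 ≤ 1 - t by linarith) ht0 (by ring)
    simp only [smul_eq_mul] at hc
    have hl := hlip ((1 - t) • p + t • p0) p
    have e : (1 - t) • p + t • p0 - p = t • (p0 - p) := by
      rw [sub_smul, one_smul, smul_sub]; abel
    rw [e, norm_smul, Real.norm_eq_abs, abs_of_nonneg ht0, norm_sub_rev] at hl
    have hl2 := le_of_abs_le hl
    have hu1 := le_abs_self (u p)
    rw [hp0l, hQ0] at hc
    have hr1 : rho u B ((1 - t) • p + t • p0) =
      (((1 - t) • p + t • p0) 3).re + qc (‖(1 - t) • p + t • p0‖ ^ 2 - B ^ 2)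
        + u ((1 - t) • p + t • p0) := by unfold rho; ring
    have hr2 : (p 3).re + qc (‖p‖ ^ 2 - B ^ 2) = rho u B p - u p := by
      unfold rho; ring
    rw [hr2] at hc
    rw [hr1]
    have h6 : t * u p ≤ t * |u p| := mul_le_mul_of_nonneg_left hu1 ht0
    nlinarith
  have hneg0 : rho u B p0 < 0 := by
    have h2 := hub p0
    have h3 := le_abs_self (u p0)
    unfold rho
    rw [hp0l, hQ0]
    rw [hp0n] at h2
    linarith
  refine ⟨?_, ?_, ?_, hbd⟩
  · refine (Metric.isBounded_closedBall (x := (0 : E4))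
      (r := B + 1)).subset ?_
    intro p hp
    rw [mem_closedBall_zero_iff]
    exact hbd p (le_of_lt hp)
  · have hstar : StarConvex ℝ p0 {p | rho u B p < 0} := by
      intro p hp a b ha hb hab
      have hp' : rho u B p < 0 := hp
      have hb1 : b = 1 - a := by linarith
      have hk := key p a ha (by linarith)
      have hc := hcpos p (hbd p hp'.le)
      show rho u B (a • p0 + b • p) < 0
      rw [hb1, add_comm]
      refine lt_of_le_of_lt hk ?_
      rcases ha.eq_or_lt with h | h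
      · rw [← h]; linarith
      · have h7 : 0 < a * (B / 2 - |u p| - 1 / 20 * ‖p - p0‖) := mul_pos h hc
        have h8 : (1 - a) * rho u B p ≤ 0 :=
          mul_nonpos_of_nonneg_of_nonpos (by linarith) hp'.le
        linarith
    exact (hstar.isPathConnected hneg0).isConnected
  · intro p hp hfd
    have hc := hcpos p (hbd p hp.le)
    obtain ⟨c, hcdef⟩ : ∃ c : ℝ, c = B / 2 - |u p| - 1 / 20 * ‖p - p0‖ := ⟨_, rfl⟩
    rw [← hcdef] at hc
    have hF : HasFDerivAt (rho u B) (0 : E4 →L[ℝ] ℝ) p := by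
      have := ((hr.differentiable (by simp)).differentiableAt (x := p)).hasFDerivAt
      rwa [hfd] at this
    have hg : HasDerivAt (fun t : ℝ => rho u B (p + t • (p0 - p))) 0 0 := by
      have h2 : HasDerivAt (fun t : ℝ => p + t • (p0 - p)) (p0 - p) 0 := by
        have h3 := ((hasDerivAt_id (0 : ℝ)).smul_const (p0 - p)).const_add p
        simpa using h3
      have h4 : HasFDerivAt (rho u B) (0 : E4 →L[ℝ] ℝ)
          (p + (0 : ℝ) • (p0 - p)) := by simpa using hF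
      have h5 := h4.comp_hasDerivAt (0 : ℝ) h2
      exact h5
    have ho := hg.isLittleO.def (half_pos hc)
    have ho2 : ∀ᶠ t : ℝ in 𝓝 0, t < 1 := gt_mem_nhds one_pos
    obtain ⟨ε, hε, hball⟩ := Metric.eventually_nhds_iff.mp (ho.and ho2)
    have hmem := hball (y := ε / 2) (by
      rw [Real.dist_eq, sub_zero, abs_of_pos (by linarith)]; linarith)
    obtain ⟨hm1, hm2⟩ := hmem
    have hk := key p (ε / 2) (by linarith) hm2.le
    rw [← hcdef] at hk
    have e2 : (1 - ε / 2) • p + (ε / 2) • p0 = p + (ε / 2) • (p0 - p) := by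
      rw [sub_smul, one_smul, smul_sub]; abel
    rw [e2, hp] at hk
    simp only [zero_smul, add_zero, sub_zero, smul_zero, hp] at hm1
    rw [Real.norm_eq_abs, Real.norm_eq_abs, abs_of_pos (show 0 < ε / 2 by linarith)] at hm1
    have h9 := neg_abs_le (rho u B (p + (ε / 2) • (p0 - p)))
    nlinarith

end Pool.Agent.TH234.Kc
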