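import Pool.Agent.TH234.Kc.Aff
import Pool.Agent.Helper112.Kc.JC1

set_option autoImplicit false

/-!
The potential on `ℂ⁴`.
-/

namespace Pool.Agent.TH234.Kc

open Filter Topology Finset

/-- cutoff function -/
noncomputable def bb (p : E4) : ℝ := Real.smoothTransition (400 - ‖p‖ ^ 2)

theorem bb_smooth : Sm bb := by
  unfold bb
  exact Real.smoothTransition.contDiff.comp (contDiff_const.sub (contDiff_norm_sq ℂ))

theorem bb_one (p : E4) (hp : ‖p‖ ^ 2 ≤ 399) : bb p = 1 :=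
  Real.smoothTransition.one_of_one_le (by linarith)

theorem bb_zero (p : E4) (hp : 400 ≤ ‖p‖ ^ 2) : bb p = 0 :=
  Real.smoothTransition.zero_of_nonpos (by linarith)

theorem bb_bd (n : ℕ) : ∃ C : ℝ, 0 ≤ C ∧ ∀ p : E4, ‖p‖ ≤ 20 → Bd n C bb p := by
  have key : ∃ C : ℝ, 0 ≤ C ∧ ∀ l, l < n + 1 → ∀ p : E4, ‖p‖ ≤ 20 → ‖iteratedFDeriv ℝ l bb p‖ ≤ C := by
    induction (n + 1) with
    | zero => exact ⟨0, le_rfl, fun l h => by omega⟩
    | succ n ih =>
      obtain ⟨C, hC0, hC⟩ := ih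
      have hc : Continuous (fun w => iteratedFDeriv ℝ n bb w) :=
        bb_smooth.continuous_iteratedFDeriv (nat_le_top n)
      obtain ⟨D, hD⟩ := (isCompact_closedBall (0 : E4) 20).exists_bound_of_continuousOn hc.continuousOn
      have h0 : 0 ≤ D := (norm_nonneg _).trans (hD 0 (by simp))
      refine ⟨C + D, by linarith, fun l hl p hp => ?_⟩
      rcases Nat.lt_or_ge l n with h | h
      · have := hC l h p hp
        linarith
      · obtain rfl : l = n := by omega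
        have := hD p (by simpa using hp)
        linarith
  obtain ⟨C, hC0, hC⟩ := key
  exact ⟨C, hC0, fun p hp l hl => hC l (by omega) p hp⟩

/-- the terms -/
noncomputable def tm (φ : ℝ → ℝ) (i : ℕ) (p : E4) : ℝ := mm i * (bb p * vv φ i p)

/-- the potential -/
noncomputable def UU (φ : ℝ → ℝ) (p : E4) : ℝ := ∑' i, tm φ i p

theorem tm_smooth (φ : ℝ → ℝ) (hφ : IsPhi φ) (i : ℕ) : Sm (tm φ i) :=
  contDiff_const.mul (bb_smooth.mul (vv_smooth φ hφ i))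

theorem tm_bd (φ : ℝ → ℝ) (hφ : IsPhi φ) (n : ℕ) : ∃ a : ℕ → ℝ, Expo a ∧
    ∀ i (p : E4), Bd n (mm i * a i) (tm φ i) p := by
  obtain ⟨a, ha, hb⟩ := vv_bd φ hφ n
  obtain ⟨C, hC0, hC⟩ := bb_bd n
  refine ⟨fun i => 2 ^ n * C * a i, (Expo.const _ (by positivity)).mul ha, fun i p => ?_⟩
  have ha0 := ha.nonneg i
  have hm := mm_pos i
  rcases le_or_gt ‖p‖ 20 with hp | hp
  · have h1 := Bd.mul bb_smooth (vv_smooth φ hφ i) (hC p hp) (hb i p hp)
    have h2 := Bd.const_mulR (mm i) (bb_smooth.mul (vv_smooth φ hφ i)) h1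
    rwa [abs_of_pos hm] at h2
  · have hev : (fun _ : E4 => (0:ℝ)) =ᶠ[𝓝 p] tm φ i := by
      have h1 : ∀ᶠ q in 𝓝 p, 20 < ‖q‖ := (continuous_norm.tendsto p).eventually (lt_mem_nhds hp)
      filter_upwards [h1] with q hq
      unfold tm
      rw [bb_zero q (by nlinarith)]
      ring
    have h3 := Bd.const (n := n) (0:ℝ) p
    rw [norm_zero] at h3
    refine (Bd.congr h3 hev).mono ?_
    positivity

theorem UU_smooth (φ : ℝ → ℝ) (hφ : IsPhi φ) : Sm (UU φ) := by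
  choose a ha hb using fun n => tm_bd φ hφ n
  have h := contDiff_tsum (𝕜 := ℝ) (N := (⊤ : ℕ∞)) (f := fun i p => tm φ i p)
    (v := fun k i => mm i * a k i) (fun i => tm_smooth φ hφ i) (fun k _ => (ha k).summable)
    (fun k i p _ => hb k i p k le_rfl)
  exact h

theorem UU_facts (φ : ℝ → ℝ) (hφ : IsPhi φ) :
    (∀ p, Summable (fun i => tm φ i p)) ∧
    (∃ S : ℝ, 0 ≤ S ∧ ∀ p, ‖fderiv ℝ (UU φ) p‖ ≤ S) ∧
    (∀ p w, Summable (fun j => fderiv ℝ (fderiv ℝ (tm φ j)) p w w) ∧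
      fderiv ℝ (fderiv ℝ (UU φ)) p w w = ∑' j, fderiv ℝ (fderiv ℝ (tm φ j)) p w w) := by
  obtain ⟨a, ha, hb⟩ := tm_bd φ hφ 2
  have h0 : Summable (fun j => tm φ j (0 : E4)) := by
    refine Summable.of_norm_bounded ha.summable fun j => ?_
    exact (hb j 0).norm_le
  obtain ⟨h1, _, h3, h4⟩ := Helper112.Kc.tsum_contDiff 2 le_rfl (tm φ) (fun _ i => mm i * a i)
    (fun j => (tm_smooth φ hφ j).of_le two_le_top) h0 (fun _ _ _ => ha.summable)
    (fun i j x _ h => hb j x i h)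
  refine ⟨h1, ⟨∑' j, mm j * a j, ?_, h3⟩, h4⟩
  exact tsum_nonneg fun j => mul_nonneg (mm_pos j).le (ha.nonneg j)

theorem UU_levi (φ : ℝ → ℝ) (hφ : IsPhi φ) (p w : E4) (hp : ‖p‖ ^ 2 < 399) :
    0 ≤ fderiv ℝ (fderiv ℝ (UU φ)) p w w
      + fderiv ℝ (fderiv ℝ (UU φ)) p (Complex.I • w) (Complex.I • w) := by
  obtain ⟨_, _, h⟩ := UU_facts φ hφ
  obtain ⟨s1, e1⟩ := h p w
  obtain ⟨s2, e2⟩ := h p (Complex.I • w)
  rw [e1, e2, ← s1.tsum_add s2]
  apply tsum_nonneg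
  intro j
  have hev : tm φ j =ᶠ[𝓝 p] fun q => mm j * vv φ j q := by
    have hc : Continuous (fun q : E4 => ‖q‖ ^ 2) := by fun_prop
    have h1 : ∀ᶠ q in 𝓝 p, ‖q‖ ^ 2 < 399 := (hc.tendsto p).eventually (gt_mem_nhds hp)
    filter_upwards [h1] with q hq
    unfold tm
    rw [bb_one q hq.le, one_mul]
  have hev2 : fderiv ℝ (tm φ j) =ᶠ[𝓝 p] fderiv ℝ (fun q => mm j * vv φ j q) := hev.fderiv
  have e3 : fderiv ℝ (fderiv ℝ (tm φ j)) p = fderiv ℝ (fderiv ℝ (fun q => mm j * vv φ j q)) p :=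
    hev2.fderiv_eq
  have hs := vv_smooth φ hφ j
  have hd : Differentiable ℝ (vv φ j) := hs.differentiable (by simp)
  have hs1 : Sm (fderiv ℝ (vv φ j)) :=
    ContDiff.fderiv_right (m := ((⊤ : ℕ∞) : WithTop ℕ∞)) hs (by simp)
  have hd1 : Differentiable ℝ (fderiv ℝ (vv φ j)) := hs1.differentiable (by simp)
  have e4 : fderiv ℝ (fun q => mm j * vv φ j q) = fun q => mm j • fderiv ℝ (vv φ j) q := by
    funext q
    exact ((hd q).hasFDerivAt.const_mul (mm j)).fderiv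
  have e5 : fderiv ℝ (fderiv ℝ (fun q => mm j * vv φ j q)) p = mm j • fderiv ℝ (fderiv ℝ (vv φ j)) p := by
    rw [e4]
    exact ((hd1 p).hasFDerivAt.const_smul (mm j)).fderiv
  rw [e3, e5]
  have hl := vv_levi φ hφ j p w
  have hm := mm_pos j
  simp only [ContinuousLinearMap.smul_apply, smul_eq_mul]
  nlinarith

end Pool.Agent.TH234.Kc
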