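import Pool.Agent.TH234.Kc.Geo3
import Pool.Agent.TH234.Kc.Sum
import Pool.Agent.TH234.Kc.Cap

set_option autoImplicit false

/-!
The discs in `ℂ⁴`.
-/

namespace Pool.Agent.TH234.Kc

open Filter Topology Finset

theorem aff_pt (i j : ℕ) (lam t : ℂ) : aff i (pt j lam t) = aff i (pt j lam 0) := by
  apply Prod.ext
  · rw [aff_fst, aff_fst]; rfl
  · rw [aff_snd, aff_snd]; rfl

/-- last coordinate of the discs, before scaling -/
noncomputable def zt (j : ℕ) (lam : ℂ) : ℂ :=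
  -∑ i ∈ range j, (mm i : ℂ) * Complex.log (1 - Qf i (aff i (pt j lam 0)))

/-- the discs -/
noncomputable def fd (ε : ℝ) (j : ℕ) (lam : ℂ) : E4 := pt j lam ((ε : ℂ) * zt j lam)

theorem Q_small' (i j : ℕ) (hij : i < j) (lam : ℂ) (hl : ‖lam‖ ≤ 1) :
    ‖Qf i (aff i (pt j lam 0))‖ ≤ 1 / 2 := by
  obtain ⟨k, rfl⟩ : ∃ k, j = i + k := ⟨j - i, by omega⟩
  exact Qf_small i k (by omega) lam 0 hl

theorem sum_mm (j : ℕ) : ∑ i ∈ range j, mm i ≤ 2 := by
  have h : ∀ i ∈ range j, mm i ≤ (1 / 2) ^ i := by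
    intro i _
    have h1 := mm_le 0 i
    rw [zero_add, mm_zero, one_mul] at h1
    exact h1.trans (pow_le_pow_left₀ (by positivity) (by norm_num) i)
  refine (Finset.sum_le_sum h).trans ?_
  have h2 : ∑ l ∈ range j, (1 / 2 : ℝ) ^ l = (1 - (1 / 2) ^ j) * 2 := by
    clear h
    induction j with
    | zero => simp
    | succ j ih => rw [Finset.sum_range_succ, ih]; ring
  rw [h2]
  have : (0:ℝ) ≤ (1 / 2) ^ j := by positivity
  linarith

theorem zt_norm (j : ℕ) (lam : ℂ) (hl : ‖lam‖ ≤ 1) : ‖zt j lam‖ ≤ 2 := by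
  unfold zt
  rw [norm_neg]
  refine (norm_sum_le _ _).trans ?_
  have h : ∀ i ∈ range j, ‖(mm i : ℂ) * Complex.log (1 - Qf i (aff i (pt j lam 0)))‖ ≤ mm i := by
    intro i hi
    have hi' := Finset.mem_range.1 hi
    have hQ := Q_small' i j hi' lam hl
    have h1 := Complex.norm_log_one_add_half_le_self (z := -Qf i (aff i (pt j lam 0)))
      (by rw [norm_neg]; exact hQ)
    rw [norm_neg, ← sub_eq_add_neg] at h1
    have hm := mm_pos i
    rw [norm_mul, Complex.norm_real, Real.norm_of_nonneg hm.le]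
    have h2 : ‖Complex.log (1 - Qf i (aff i (pt j lam 0)))‖ ≤ 1 := by linarith
    nlinarith
  exact (Finset.sum_le_sum h).trans (sum_mm j)

theorem zt_re (φ : ℝ → ℝ) (hφ : IsPhi φ) (j : ℕ) (lam t : ℂ) (hl : ‖lam‖ ≤ 1) :
    (zt j lam).re = -∑ i ∈ range j, mm i * vv φ i (pt j lam t) := by
  unfold zt
  rw [Complex.neg_re, Complex.re_sum]
  congr 1
  apply Finset.sum_congr rfl
  intro i hi
  have hi' := Finset.mem_range.1 hi
  obtain ⟨k, rfl⟩ : ∃ k, j = i + k := ⟨j - i, by omega⟩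
  rw [Complex.re_ofReal_mul, Complex.log_re, vv_fwd φ hφ i k (by omega) lam t hl, aff_pt i (i + k) lam t]

/-- the mass estimate -/
theorem mass (j k : ℕ) : mm (j + (k + 2)) * (2 * Real.sqrt (nn (j + (k + 2))) * 1024 ^ (k + 2))
    ≤ mm (j + 1) * (2 ^ 22 * (1 / 2) ^ k) := by
  have h1 := mm_succ (j + 1 + k)
  have e1 : j + 1 + k + 1 = j + (k + 2) := by ring
  rw [e1] at h1
  have h2 : Real.sqrt (nn (j + (k + 2))) ≤ 2 * Real.sqrt (nn (j + 1 + k)) := by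
    have e : 2 * Real.sqrt (nn (j + 1 + k)) = Real.sqrt (4 * nn (j + 1 + k)) := by
      rw [Real.sqrt_mul (by norm_num)]
      congr 1
      rw [show (4:ℝ) = 2 ^ 2 by norm_num, Real.sqrt_sq (by norm_num)]
    rw [e]
    apply Real.sqrt_le_sqrt
    rw [← e1, nn_succ]
    have := nn_ge (j + 1 + k)
    have h : (1:ℝ) ≤ 2 ^ 80 := by norm_num
    linarith
  have h3 := mm_le (j + 1) k
  have hm := mm_pos (j + (k + 2))
  have hm1 := mm_pos (j + 1)
  have h4 : mm (j + (k + 2)) * Real.sqrt (nn (j + (k + 2))) ≤ 2 * (mm (j + 1) * (1 / 2 ^ 40) ^ k) := by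
    calc mm (j + (k + 2)) * Real.sqrt (nn (j + (k + 2)))
        ≤ mm (j + (k + 2)) * (2 * Real.sqrt (nn (j + 1 + k))) := mul_le_mul_of_nonneg_left h2 hm.le
      _ = 2 * mm (j + 1 + k) := by rw [← h1]; ring
      _ ≤ _ := by linarith
  have h5 : (1 / 2 ^ 40 : ℝ) ^ k * 1024 ^ (k + 2) ≤ 2 ^ 20 * (1 / 2) ^ k := by
    have e : (1 / 2 ^ 40 : ℝ) ^ k * 1024 ^ (k + 2) = 2 ^ 20 * (1 / 2 ^ 30) ^ k := by
      rw [pow_add, ← mul_assoc, ← mul_pow]
      norm_num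
      ring
    rw [e]
    apply mul_le_mul_of_nonneg_left _ (by positivity)
    exact pow_le_pow_left₀ (by positivity) (by norm_num) k
  calc mm (j + (k + 2)) * (2 * Real.sqrt (nn (j + (k + 2))) * 1024 ^ (k + 2))
      = 2 * (mm (j + (k + 2)) * Real.sqrt (nn (j + (k + 2)))) * 1024 ^ (k + 2) := by ring
    _ ≤ 2 * (2 * (mm (j + 1) * (1 / 2 ^ 40) ^ k)) * 1024 ^ (k + 2) := by
        apply mul_le_mul_of_nonneg_right _ (by positivity)
        linarith
    _ = 4 * mm (j + 1) * ((1 / 2 ^ 40 : ℝ) ^ k * 1024 ^ (k + 2)) := by ring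
    _ ≤ 4 * mm (j + 1) * (2 ^ 20 * (1 / 2) ^ k) := mul_le_mul_of_nonneg_left h5 (by positivity)
    _ = _ := by ring

/-- on the `j`-th disc the potential plus the real part of the last coordinate is a tail sum -/
theorem tail_eq (φ : ℝ → ℝ) (hφ : IsPhi φ) (j : ℕ) (lam t : ℂ) (hl : ‖lam‖ ≤ 1)
    (hp : ‖pt j lam t‖ ^ 2 ≤ 399) :
    (zt j lam).re + UU φ (pt j lam t) = ∑' k, tm φ (k + j) (pt j lam t) := by
  have hs := (UU_facts φ hφ).1 (pt j lam t)
  have e : UU φ (pt j lam t) = ∑ i ∈ range j, tm φ i (pt j lam t) + ∑' k, tm φ (k + j) (pt j lam t) :=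
    (hs.sum_add_tsum_nat_add j).symm
  rw [e, zt_re φ hφ j lam t hl]
  have e2 : ∑ i ∈ range j, tm φ i (pt j lam t) = ∑ i ∈ range j, mm i * vv φ i (pt j lam t) := by
    apply Finset.sum_congr rfl
    intro i _
    unfold tm
    rw [bb_one _ hp, one_mul]
  rw [e2]
  ring

theorem key_neg (φ : ℝ → ℝ) (hφ : IsPhi φ) (j : ℕ) (lam t : ℂ) (hl : ‖lam‖ ≤ 1)
    (hp : ‖pt j lam t‖ ^ 2 ≤ 399) :
    (zt j lam).re + UU φ (pt j lam t) < 0 := by
  rw [tail_eq φ hφ j lam t hl hp]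
  have hs := (UU_facts φ hφ).1 (pt j lam t)
  have hs2 : Summable (fun k => tm φ (k + j) (pt j lam t)) := (summable_nat_add_iff j).2 hs
  have hs3 : Summable (fun k => tm φ (k + 2 + j) (pt j lam t)) :=
    (summable_nat_add_iff (f := fun k => tm φ (k + j) (pt j lam t)) 2).2 hs2
  have e : ∑' k, tm φ (k + j) (pt j lam t) = tm φ j (pt j lam t) + tm φ (j + 1) (pt j lam t)
      + ∑' k, tm φ (k + 2 + j) (pt j lam t) := by
    rw [← hs2.sum_add_tsum_nat_add 2, Finset.sum_range_succ, Finset.sum_range_one, zero_add,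
      add_comm 1 j]
  rw [e]
  have tmv : ∀ i, tm φ i (pt j lam t) = mm i * vv φ i (pt j lam t) := by
    intro i
    unfold tm
    rw [bb_one _ hp, one_mul]
  have hm0 := mm_pos j
  have hm1 := mm_pos (j + 1)
  -- first term
  have t0 : tm φ j (pt j lam t) ≤ mm (j + 1) * (nn j / 2) := by
    rw [tmv]
    have h1 := vv_zero φ hφ j lam t hl
    have h2 := AA_sq j
    have h3 := mm_succ j
    have h4 := sqrt_sq_nn j
    have h5 := sqrt_nn_pos j
    calc mm j * vv φ j (pt j lam t) ≤ mm j * (4 * (AA j : ℝ) ^ 2) := mul_le_mul_of_nonneg_left h1 hm0.le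
      _ ≤ mm j * (Real.sqrt (nn j) / 2) := mul_le_mul_of_nonneg_left (by linarith) hm0.le
      _ = mm (j + 1) * (Real.sqrt (nn j) * Real.sqrt (nn j) / 2) := by rw [← h3]; ring
      _ = _ := by rw [h4]
  -- second term
  have t1 : tm φ (j + 1) (pt j lam t) ≤ mm (j + 1) * (-nn (j + 1)) := by
    rw [tmv]
    exact mul_le_mul_of_nonneg_left (vv_one φ hφ j lam t) hm1.le
  -- the others
  have hgeo : Summable (fun k : ℕ => mm (j + 1) * (2 ^ 22 * (1 / 2) ^ k)) :=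
    (summable_geometric_two.mul_left _).mul_left _
  have t2 : ∑' k, tm φ (k + 2 + j) (pt j lam t) ≤ mm (j + 1) * 2 ^ 23 := by
    have h1 : ∀ k, tm φ (k + 2 + j) (pt j lam t) ≤ mm (j + 1) * (2 ^ 22 * (1 / 2) ^ k) := by
      intro k
      rw [tmv]
      have e3 : k + 2 + j = j + (k + 2) := by ring
      rw [e3]
      refine le_trans ?_ (mass j k)
      exact mul_le_mul_of_nonneg_left (vv_bwd φ hφ j (k + 2) (by omega) lam t hl) (mm_pos _).le
    refine (hs3.tsum_le_tsum h1 hgeo).trans ?_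
    rw [tsum_mul_left, tsum_mul_left, tsum_geometric_two]
    apply le_of_eq
    ring
  have h6 := nn_ge j
  have h7 : nn (j + 1) = nn j + 1 := nn_succ j
  have h8 : (2:ℝ) ^ 23 < 2 ^ 80 / 2 := by norm_num
  have h9 : mm (j + 1) * (nn j / 2) + mm (j + 1) * (-nn (j + 1)) + mm (j + 1) * 2 ^ 23
      = mm (j + 1) * (2 ^ 23 - nn j / 2 - 1) := by rw [h7]; ring
  have h10 : mm (j + 1) * (2 ^ 23 - nn j / 2 - 1) < 0 := by
    apply mul_neg_of_pos_of_neg hm1
    linarith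
  linarith

/-! ### norms, endpoints, holomorphy -/

theorem coef_le (j : ℕ) : (1 / 16 : ℝ) ^ j ≤ 1 ∧ (1 / 16 : ℝ) ^ j * ((j : ℝ) + 1) ≤ 1 ∧
    (1 / 16 : ℝ) ^ j * ((j : ℝ) + 1) ^ 2 ≤ 1 := by
  have h0 : (1 / 16 : ℝ) ^ j ≤ 1 := pow_le_one₀ (by norm_num) (by norm_num)
  have h1 := (el1 j).trans (pow8_le j)
  refine ⟨h0, h1, ?_⟩
  have h : j < 2 ^ j := Nat.lt_two_pow_self
  have h2 : j + 1 ≤ 2 ^ j := h
  have h3 : ((j : ℝ) + 1) ≤ 2 ^ j := by exact_mod_cast h2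
  have h4 : ((j : ℝ) + 1) ^ 2 ≤ 4 ^ j := by
    calc ((j : ℝ) + 1) ^ 2 ≤ (2 ^ j) ^ 2 := pow_le_pow_left₀ (by positivity) h3 2
      _ = 4 ^ j := by rw [← pow_mul, mul_comm, pow_mul]; norm_num
  calc (1 / 16 : ℝ) ^ j * ((j : ℝ) + 1) ^ 2 ≤ (1 / 16 : ℝ) ^ j * 4 ^ j :=
        mul_le_mul_of_nonneg_left h4 (by positivity)
    _ = (1 / 4) ^ j := by rw [← mul_pow]; norm_num
    _ ≤ 1 := pow_le_one₀ (by norm_num) (by norm_num)

theorem pt_norm (j : ℕ) (lam t : ℂ) (hl : ‖lam‖ ≤ 1) (ht : ‖t‖ ≤ 1) : ‖pt j lam t‖ ≤ 4 := by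
  obtain ⟨⟨a1, a2⟩, ⟨b1, b2⟩, ⟨c1, c2⟩⟩ := X_bound j
  obtain ⟨d0, d1, d2⟩ := coef_le j
  have h16 : ‖((1 / 16 : ℂ)) ^ j‖ = (1 / 16 : ℝ) ^ j := by rw [norm_pow]; norm_num
  have hk : ‖((j : ℂ) + 1)‖ = (j : ℝ) + 1 := by
    have : ((j : ℂ) + 1) = ((j + 1 : ℕ) : ℂ) := by push_cast; ring
    rw [this, Complex.norm_natCast]; push_cast; ring
  have n0 : ‖pt j lam t 0‖ ≤ 3 / 2 := by
    rw [pt_0]
    refine (norm_add_le _ _).trans ?_
    rw [Complex.norm_real, Real.norm_of_nonneg a1, norm_mul, h16]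
    have : (1 / 16 : ℝ) ^ j * ‖lam‖ ≤ 1 * 1 := mul_le_mul d0 hl (norm_nonneg _) (by norm_num)
    linarith
  have n1 : ‖pt j lam t 1‖ ≤ 3 / 2 := by
    rw [pt_1]
    refine (norm_add_le _ _).trans ?_
    rw [Complex.norm_real, Real.norm_of_nonneg b1, norm_mul, norm_mul, h16, hk]
    have : (1 / 16 : ℝ) ^ j * ((j : ℝ) + 1) * ‖lam‖ ≤ 1 * 1 := mul_le_mul d1 hl (norm_nonneg _) (by norm_num)
    linarith
  have n2 : ‖pt j lam t 2‖ ≤ 3 / 2 := by
    rw [pt_2]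
    refine (norm_add_le _ _).trans ?_
    rw [Complex.norm_real, Real.norm_of_nonneg c1, norm_mul, norm_mul, h16, norm_pow, hk]
    have : (1 / 16 : ℝ) ^ j * ((j : ℝ) + 1) ^ 2 * ‖lam‖ ≤ 1 * 1 := mul_le_mul d2 hl (norm_nonneg _) (by norm_num)
    linarith
  have n3 : ‖pt j lam t 3‖ ≤ 1 := by rw [pt_3]; exact ht
  rw [EuclideanSpace.norm_eq, Fin.sum_univ_four]
  apply Real.sqrt_le_iff.2
  refine ⟨by norm_num, ?_⟩
  have m0 := pow_le_pow_left₀ (norm_nonneg _) n0 2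
  have m1 := pow_le_pow_left₀ (norm_nonneg _) n1 2
  have m2 := pow_le_pow_left₀ (norm_nonneg _) n2 2
  have m3 := pow_le_pow_left₀ (norm_nonneg _) n3 2
  have e4 : (4:ℝ) ^ 2 = 16 := by norm_num
  have e9 : (3 / 2 : ℝ) ^ 2 = 9 / 4 := by norm_num
  rw [e9] at m0 m1 m2
  rw [one_pow] at m3
  rw [e4]
  linarith

theorem pt_end (j : ℕ) (t : ℂ) : pt j (cc j) t = pt (j + 1) 0 t := by
  have e0 : X0 (j + 1) = X0 j + cc j * (1 / 16) ^ j := by unfold X0; rw [Finset.sum_range_succ]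
  have e1 : X1 (j + 1) = X1 j + cc j * (1 / 16) ^ j * ((j : ℝ) + 1) := by
    unfold X1; rw [Finset.sum_range_succ]
  have e2 : X2 (j + 1) = X2 j + cc j * (1 / 16) ^ j * ((j : ℝ) + 1) ^ 2 := by
    unfold X2; rw [Finset.sum_range_succ]
  ext i
  fin_cases i
  · show pt j (cc j) t 0 = pt (j + 1) 0 t 0
    rw [pt_0, pt_0, e0]
    push_cast
    ring
  · show pt j (cc j) t 1 = pt (j + 1) 0 t 1
    rw [pt_1, pt_1, e1]
    push_cast
    ring
  · show pt j (cc j) t 2 = pt (j + 1) 0 t 2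
    rw [pt_2, pt_2, e2]
    push_cast
    ring
  · rfl

theorem zt_end (j : ℕ) : zt j (cc j) = zt (j + 1) 0 := by
  unfold zt
  rw [Finset.sum_range_succ]
  have h : Qf j (aff j (pt (j + 1) 0 0)) = 0 := Qf_zero j 1 le_rfl (AA_one_le j) 0 0
  rw [h, sub_zero, Complex.log_one, mul_zero, add_zero, pt_end]

theorem fd_end (ε : ℝ) (j : ℕ) : fd ε j (cc j) = fd ε (j + 1) 0 := by
  unfold fd
  rw [zt_end, pt_end]

theorem pt_diff (j : ℕ) : Differentiable ℂ (fun lam => pt j lam 0) := by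
  rw [differentiable_euclidean]
  intro i
  fin_cases i
  · show Differentiable ℂ (fun lam => (X0 j : ℂ) + (1 / 16) ^ j * lam)
    fun_prop
  · show Differentiable ℂ (fun lam => (X1 j : ℂ) + (1 / 16) ^ j * ((j : ℂ) + 1) * lam)
    fun_prop
  · show Differentiable ℂ (fun lam => (X2 j : ℂ) + (1 / 16) ^ j * ((j : ℂ) + 1) ^ 2 * lam)
    fun_prop
  · show Differentiable ℂ (fun lam : ℂ => (0 : ℂ))
    fun_prop

theorem clog_diff (g : ℂ → ℂ) (hg : Differentiable ℂ g) (lam : ℂ) (h : ‖g lam‖ ≤ 1 / 2) :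
    DifferentiableAt ℂ (fun lam => Complex.log (1 - g lam)) lam := by
  apply DifferentiableAt.clog
  · exact (differentiableAt_const (1:ℂ)).sub (hg lam)
  · left
    have h3 := (Complex.abs_re_le_norm (g lam))
    have h4 := le_abs_self (g lam).re
    rw [Complex.sub_re, Complex.one_re]
    linarith

theorem zt_sum_diff (j : ℕ) (g : ℕ → ℂ → ℂ) (hg : ∀ i, Differentiable ℂ (g i))
    (hs : ∀ i, i < j → ∀ lam : ℂ, ‖lam‖ ≤ 1 → ‖g i lam‖ ≤ 1 / 2) :
    DifferentiableOn ℂ (fun lam => -∑ i ∈ range j, (mm i : ℂ) * Complex.log (1 - g i lam))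
      (Metric.ball (0 : ℂ) 1) := by
  apply DifferentiableOn.fun_neg
  apply DifferentiableOn.fun_sum
  intro i hi
  have hi' := Finset.mem_range.1 hi
  apply DifferentiableOn.const_mul
  intro lam hlam
  rw [mem_ball_zero_iff] at hlam
  exact (clog_diff (g i) (hg i) lam (hs i hi' lam hlam.le)).differentiableWithinAt

theorem Qpt_diff (i j : ℕ) : Differentiable ℂ (fun lam => Qf i (aff i (pt j lam 0))) := by
  have h1 : Differentiable ℂ (Qf i) := (Qf_holo i).differentiable (by simp)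
  have h2 : Differentiable ℂ (aff i) := (aff_holo i).differentiable (by simp)
  exact h1.comp (h2.comp (pt_diff j))

/-- the product along a disc -/
@[irreducible] noncomputable def gq (j i : ℕ) (lam : ℂ) : ℂ := Qf i (aff i (pt j lam 0))

theorem gq_eq (j i : ℕ) (lam : ℂ) : gq j i lam = Qf i (aff i (pt j lam 0)) := by unfold gq; rfl

theorem gq_diff (i j : ℕ) : Differentiable ℂ (gq j i) := by
  have e : gq j i = fun lam => Qf i (aff i (pt j lam 0)) := funext fun lam => gq_eq j i lam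
  rw [e]
  exact Qpt_diff i j

theorem zt_eq (j : ℕ) (lam : ℂ) :
    zt j lam = -∑ i ∈ range j, (mm i : ℂ) * Complex.log (1 - gq j i lam) := by
  unfold zt
  congr 1
  apply Finset.sum_congr rfl
  intro i _
  rw [gq_eq]

theorem zt_diff (j : ℕ) : DifferentiableOn ℂ (zt j) (Metric.ball (0 : ℂ) 1) := by
  have e : zt j = fun lam => -∑ i ∈ range j, (mm i : ℂ) * Complex.log (1 - gq j i lam) :=
    funext fun lam => zt_eq j lam
  rw [e]
  apply zt_sum_diff j (gq j) (fun i => gq_diff i j)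
  intro i hi lam hl
  rw [gq_eq]
  exact Q_small' i j hi lam hl

theorem fd_diff (ε : ℝ) (j : ℕ) : DifferentiableOn ℂ (fd ε j) (Metric.ball (0 : ℂ) 1) := by
  rw [differentiableOn_euclidean]
  intro i
  fin_cases i
  · show DifferentiableOn ℂ (fun lam => (X0 j : ℂ) + (1 / 16) ^ j * lam) _
    fun_prop
  · show DifferentiableOn ℂ (fun lam => (X1 j : ℂ) + (1 / 16) ^ j * ((j : ℂ) + 1) * lam) _
    fun_prop
  · show DifferentiableOn ℂ (fun lam => (X2 j : ℂ) + (1 / 16) ^ j * ((j : ℂ) + 1) ^ 2 * lam) _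
    fun_prop
  · show DifferentiableOn ℂ (fun lam : ℂ => (ε : ℂ) * zt j lam) _
    exact (zt_diff j).const_mul _

theorem fd_norm (ε : ℝ) (hε0 : 0 < ε) (hε : ε ≤ 1 / 2) (j : ℕ) (lam : ℂ) (hl : ‖lam‖ ≤ 1) :
    ‖fd ε j lam‖ ≤ 4 := by
  apply pt_norm j lam _ hl
  rw [norm_mul, Complex.norm_real, Real.norm_of_nonneg hε0.le]
  have := zt_norm j lam hl
  have h0 := norm_nonneg (zt j lam)
  nlinarith

/-- the discs lie in the domain -/
theorem fd_neg (φ : ℝ → ℝ) (hφ : IsPhi φ) (ε : ℝ) (hε0 : 0 < ε) (hε : ε ≤ 1 / 2) (j : ℕ) (lam : ℂ)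
    (hl : ‖lam‖ ≤ 1) : rho (fun p => ε * UU φ p) 4 (fd ε j lam) < 0 := by
  have hn := fd_norm ε hε0 hε j lam hl
  have hn0 := norm_nonneg (fd ε j lam)
  unfold rho
  rw [qc_zero _ (by nlinarith)]
  have h := key_neg φ hφ j lam ((ε : ℂ) * zt j lam) hl (by
    have : ‖pt j lam ((ε : ℂ) * zt j lam)‖ ≤ 4 := hn
    nlinarith [norm_nonneg (pt j lam ((ε : ℂ) * zt j lam))])
  have e : (fd ε j lam 3).re = ε * (zt j lam).re := by
    show ((ε : ℂ) * zt j lam).re = _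
    rw [Complex.re_ofReal_mul]
  rw [e]
  have h2 : ε * ((zt j lam).re + UU φ (fd ε j lam)) < 0 := mul_neg_of_pos_of_neg hε0 h
  linarith

/-- the depths of the centers tend to `0` -/
theorem depth_tendsto (φ : ℝ → ℝ) (hφ : IsPhi φ) (ε : ℝ) (hε0 : 0 < ε) (hε : ε ≤ 1 / 2) :
    Tendsto (fun j => rho (fun p => ε * UU φ p) 4 (fd ε j 0)) atTop (𝓝 0) := by
  obtain ⟨a, ha, hb⟩ := tm_bd φ hφ 0
  have hsum := ha.summable
  have htail : Tendsto (fun j => ∑' k, mm (k + j) * a (k + j)) atTop (𝓝 0) :=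
    tendsto_sum_nat_add (fun i => mm i * a i)
  have hkey : ∀ j, |rho (fun p => ε * UU φ p) 4 (fd ε j 0)| ≤ ε * ∑' k, mm (k + j) * a (k + j) := by
    intro j
    have hl : ‖(0:ℂ)‖ ≤ 1 := by simp
    have hn := fd_norm ε hε0 hε j 0 hl
    have hn0 := norm_nonneg (fd ε j 0)
    have h := tail_eq φ hφ j 0 ((ε : ℂ) * zt j 0) hl (by
      have : ‖pt j 0 ((ε : ℂ) * zt j 0)‖ ≤ 4 := hn
      nlinarith [norm_nonneg (pt j 0 ((ε : ℂ) * zt j 0))])
    have e1 : rho (fun p => ε * UU φ p) 4 (fd ε j 0) = ε * ∑' k, tm φ (k + j) (fd ε j 0) := by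
      unfold rho
      rw [qc_zero _ (by nlinarith)]
      have e : (fd ε j 0 3).re = ε * (zt j 0).re := by
        show ((ε : ℂ) * zt j 0).re = _
        rw [Complex.re_ofReal_mul]
      rw [e]
      have h' : (zt j 0).re + UU φ (fd ε j 0) = ∑' k, tm φ (k + j) (fd ε j 0) := h
      rw [← h']
      ring
    rw [e1, abs_mul, abs_of_pos hε0]
    apply mul_le_mul_of_nonneg_left _ hε0.le
    have hs2 : Summable (fun k => mm (k + j) * a (k + j)) := (summable_nat_add_iff j).2 hsum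
    have := tsum_of_norm_bounded hs2.hasSum (fun k => (hb (k + j) (fd ε j 0)).norm_le)
    rwa [Real.norm_eq_abs] at this
  have h0 : Tendsto (fun j => ε * ∑' k, mm (k + j) * a (k + j)) atTop (𝓝 0) := by
    have := htail.const_mul ε
    simpa using this
  exact squeeze_zero_norm (fun j => by rw [Real.norm_eq_abs]; exact hkey j) h0

end Pool.Agent.TH234.Kc
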