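import Pool.Agent.TH234.Kc.VBd

set_option autoImplicit false

/-!
The building blocks on `ℂ⁴`.
-/

namespace Pool.Agent.TH234.Kc

open Filter Topology Finset

/-- `ℂ⁴` -/
abbrev E4 : Type := EuclideanSpace ℂ (Fin 4)

/-- coordinates of the base points -/
noncomputable def X0 (j : ℕ) : ℝ := ∑ l ∈ range j, cc l * (1 / 16) ^ l
noncomputable def X1 (j : ℕ) : ℝ := ∑ l ∈ range j, cc l * (1 / 16) ^ l * ((l : ℝ) + 1)
noncomputable def X2 (j : ℕ) : ℝ := ∑ l ∈ range j, cc l * (1 / 16) ^ l * ((l : ℝ) + 1) ^ 2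

/-- the linear maps -/
noncomputable def L1 (i : ℕ) : E4 →L[ℂ] ℂ :=
  (16 : ℂ) ^ i • (EuclideanSpace.proj 1 - (i : ℂ) • EuclideanSpace.proj 0)
noncomputable def L2 (i : ℕ) : E4 →L[ℂ] ℂ :=
  (16 : ℂ) ^ i • (EuclideanSpace.proj 2 - (2 * (i : ℂ) + 1) • EuclideanSpace.proj 1
    + ((i : ℂ) * ((i : ℂ) + 1)) • EuclideanSpace.proj 0)
noncomputable def LL (i : ℕ) : E4 →L[ℂ] ℂ × ℂ := (L1 i).prod (L2 i)

/-- the constants -/
noncomputable def k1 (i : ℕ) : ℂ := -((16 : ℂ) ^ i * ((X1 i : ℂ) - (i : ℂ) * (X0 i : ℂ)))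
noncomputable def k2 (i : ℕ) : ℂ :=
  -((16 : ℂ) ^ i * ((X2 i : ℂ) - (2 * (i : ℂ) + 1) * (X1 i : ℂ) + ((i : ℂ) * ((i : ℂ) + 1)) * (X0 i : ℂ)))

/-- the affine maps -/
noncomputable def aff (i : ℕ) (p : E4) : ℂ × ℂ := LL i p + (k1 i, k2 i)

/-- the building blocks -/
noncomputable def vv (φ : ℝ → ℝ) (i : ℕ) (p : E4) : ℝ := VV φ i (aff i p)

theorem L1_apply (i : ℕ) (p : E4) : L1 i p = (16 : ℂ) ^ i * (p 1 - (i : ℂ) * p 0) := by
  simp [L1]

theorem L2_apply (i : ℕ) (p : E4) : L2 i p = (16 : ℂ) ^ i * (p 2 - (2 * (i : ℂ) + 1) * p 1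
    + ((i : ℂ) * ((i : ℂ) + 1)) * p 0) := by
  simp [L2]
  ring

theorem pow_aux (i : ℕ) : ((i : ℝ) + 2) ^ 2 ≤ 4 ^ (i + 1) := by
  have h1 : ((i : ℝ) + 2) ≤ 2 ^ (i + 1) := by
    have h : i + 1 < 2 ^ (i + 1) := Nat.lt_two_pow_self
    have h2 : i + 2 ≤ 2 ^ (i + 1) := h
    exact_mod_cast h2
  calc ((i : ℝ) + 2) ^ 2 ≤ (2 ^ (i + 1)) ^ 2 := pow_le_pow_left₀ (by positivity) h1 2
    _ = 4 ^ (i + 1) := by rw [← pow_mul, mul_comm, pow_mul]; norm_num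

theorem comb_bound (i : ℕ) (a b c : ℂ) (r : ℝ) (ha : ‖a‖ ≤ r) (hb : ‖b‖ ≤ r) (hc : ‖c‖ ≤ r) :
    ‖(16 : ℂ) ^ i * (b - (i : ℂ) * a)‖ ≤ 64 ^ (i + 1) * r ∧
    ‖(16 : ℂ) ^ i * (c - (2 * (i : ℂ) + 1) * b + ((i : ℂ) * ((i : ℂ) + 1)) * a)‖
      ≤ 64 ^ (i + 1) * r := by
  have hr : 0 ≤ r := (norm_nonneg _).trans ha
  have h16 : ‖(16 : ℂ) ^ i‖ = 16 ^ i := by rw [norm_pow]; norm_num
  have hi : (0:ℝ) ≤ i := by positivity
  have h64 : (16 : ℝ) ^ i * ((i : ℝ) + 2) ^ 2 ≤ 64 ^ (i + 1) := by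
    have h1 := pow_aux i
    have h2 : (16 : ℝ) ^ i ≤ 16 ^ (i + 1) := pow_le_pow_right₀ (by norm_num) (by omega)
    calc (16 : ℝ) ^ i * ((i : ℝ) + 2) ^ 2 ≤ 16 ^ (i + 1) * 4 ^ (i + 1) :=
          mul_le_mul h2 h1 (by positivity) (by positivity)
      _ = 64 ^ (i + 1) := by rw [← mul_pow]; norm_num
  constructor
  · rw [norm_mul, h16]
    have h1 : ‖b - (i : ℂ) * a‖ ≤ r + i * r := by
      refine (norm_sub_le _ _).trans ?_
      rw [norm_mul, Complex.norm_natCast]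
      have := mul_le_mul_of_nonneg_left ha hi
      linarith
    have h2 : r + i * r ≤ ((i : ℝ) + 2) ^ 2 * r := by
      nlinarith [mul_nonneg (mul_nonneg hi hi) hr, mul_nonneg hi hr]
    calc (16:ℝ) ^ i * ‖b - (i : ℂ) * a‖ ≤ 16 ^ i * (((i : ℝ) + 2) ^ 2 * r) :=
          mul_le_mul_of_nonneg_left (h1.trans h2) (by positivity)
      _ = (16 ^ i * ((i : ℝ) + 2) ^ 2) * r := by ring
      _ ≤ _ := mul_le_mul_of_nonneg_right h64 hr
  · rw [norm_mul, h16]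
    have e1 : ‖(2 * (i : ℂ) + 1)‖ = 2 * i + 1 := by
      have : (2 * (i : ℂ) + 1) = ((2 * i + 1 : ℕ) : ℂ) := by push_cast; ring
      rw [this, Complex.norm_natCast]; push_cast; ring
    have e2 : ‖((i : ℂ) * ((i : ℂ) + 1))‖ = i * (i + 1) := by
      have : ((i : ℂ) * ((i : ℂ) + 1)) = ((i * (i + 1) : ℕ) : ℂ) := by push_cast; ring
      rw [this, Complex.norm_natCast]; push_cast; ring
    have h1 : ‖c - (2 * (i : ℂ) + 1) * b + ((i : ℂ) * ((i : ℂ) + 1)) * a‖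
        ≤ r + (2 * i + 1) * r + (i * (i + 1)) * r := by
      refine (norm_add_le _ _).trans ?_
      have h3 : ‖c - (2 * (i : ℂ) + 1) * b‖ ≤ r + (2 * i + 1) * r := by
        refine (norm_sub_le _ _).trans ?_
        rw [norm_mul, e1]
        have := mul_le_mul_of_nonneg_left hb (show (0:ℝ) ≤ 2 * i + 1 by positivity)
        linarith
      rw [norm_mul, e2]
      have := mul_le_mul_of_nonneg_left ha (show (0:ℝ) ≤ i * (i + 1) by positivity)
      linarith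
    have h2 : r + (2 * i + 1) * r + (i * (i + 1)) * r ≤ ((i : ℝ) + 2) ^ 2 * r := by
      nlinarith [mul_nonneg (mul_nonneg hi hi) hr, mul_nonneg hi hr]
    calc (16:ℝ) ^ i * ‖c - (2 * (i : ℂ) + 1) * b + ((i : ℂ) * ((i : ℂ) + 1)) * a‖
          ≤ 16 ^ i * (((i : ℝ) + 2) ^ 2 * r) :=
          mul_le_mul_of_nonneg_left (h1.trans h2) (by positivity)
      _ = (16 ^ i * ((i : ℝ) + 2) ^ 2) * r := by ring
      _ ≤ _ := mul_le_mul_of_nonneg_right h64 hr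

theorem term_bound (l : ℕ) : cc l * (1 / 16) ^ l * ((l : ℝ) + 1) ^ 2 ≤ 1 / 4 * (1 / 4) ^ l := by
  have h1 : ((l : ℝ) + 1) ^ 2 ≤ 4 ^ l := by
    have h : l < 2 ^ l := Nat.lt_two_pow_self
    have h2 : l + 1 ≤ 2 ^ l := h
    have h3 : ((l : ℝ) + 1) ≤ 2 ^ l := by exact_mod_cast h2
    calc ((l : ℝ) + 1) ^ 2 ≤ (2 ^ l) ^ 2 := pow_le_pow_left₀ (by positivity) h3 2
      _ = 4 ^ l := by rw [← pow_mul, mul_comm, pow_mul]; norm_num
  have h2 := cc_le l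
  have h3 := cc_pos l
  have e : (1 / 4 : ℝ) ^ l = (1 / 16) ^ l * 4 ^ l := by rw [← mul_pow]; norm_num
  rw [e, mul_assoc]
  exact mul_le_mul h2 (mul_le_mul_of_nonneg_left h1 (by positivity)) (by positivity) (by norm_num)

theorem geom_bound (j : ℕ) : ∑ l ∈ range j, (1 / 4 : ℝ) * (1 / 4) ^ l ≤ 1 / 2 := by
  rw [← Finset.mul_sum]
  have h : ∑ l ∈ range j, (1 / 4 : ℝ) ^ l = (1 - (1 / 4) ^ j) * (4 / 3) := by
    induction j with
    | zero => simp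
    | succ j ih => rw [Finset.sum_range_succ, ih]; ring
  rw [h]
  have : (0:ℝ) ≤ (1 / 4) ^ j := by positivity
  linarith

theorem X_bound (j : ℕ) : (0 ≤ X0 j ∧ X0 j ≤ 1 / 2) ∧ (0 ≤ X1 j ∧ X1 j ≤ 1 / 2) ∧
    (0 ≤ X2 j ∧ X2 j ≤ 1 / 2) := by
  have hc : ∀ l, 0 < cc l := cc_pos
  have hp : ∀ l : ℕ, (1:ℝ) ≤ (l : ℝ) + 1 := fun l => by
    have : (0:ℝ) ≤ l := by positivity
    linarith
  refine ⟨⟨?_, ?_⟩, ⟨?_, ?_⟩, ⟨?_, ?_⟩⟩
  · exact Finset.sum_nonneg fun l _ => by have := hc l; positivity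
  · refine (Finset.sum_le_sum fun l _ => ?_).trans (geom_bound j)
    refine le_trans ?_ (term_bound l)
    have := hc l
    exact le_mul_of_one_le_right (by positivity) (one_le_pow₀ (hp l))
  · exact Finset.sum_nonneg fun l _ => by have := hc l; positivity
  · refine (Finset.sum_le_sum fun l _ => ?_).trans (geom_bound j)
    refine le_trans ?_ (term_bound l)
    have := hc l
    exact mul_le_mul_of_nonneg_left (le_self_pow₀ (hp l) (by norm_num)) (by positivity)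
  · exact Finset.sum_nonneg fun l _ => by have := hc l; positivity
  · exact (Finset.sum_le_sum fun l _ => term_bound l).trans (geom_bound j)

theorem LL_norm (i : ℕ) (p : E4) : ‖LL i p‖ ≤ 64 ^ (i + 1) * ‖p‖ := by
  have h := comb_bound i (p 0) (p 1) (p 2) ‖p‖ (PiLp.norm_apply_le p 0) (PiLp.norm_apply_le p 1)
    (PiLp.norm_apply_le p 2)
  rw [← L1_apply, ← L2_apply] at h
  exact max_le h.1 h.2

theorem kk_norm (i : ℕ) : ‖(k1 i, k2 i)‖ ≤ 64 ^ (i + 1) := by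
  obtain ⟨⟨a1, a2⟩, ⟨b1, b2⟩, ⟨c1, c2⟩⟩ := X_bound i
  have h := comb_bound i (X0 i : ℂ) (X1 i : ℂ) (X2 i : ℂ) 1
    (by rw [Complex.norm_real, Real.norm_of_nonneg a1]; linarith)
    (by rw [Complex.norm_real, Real.norm_of_nonneg b1]; linarith)
    (by rw [Complex.norm_real, Real.norm_of_nonneg c1]; linarith)
  rw [mul_one] at h
  refine max_le ?_ ?_
  · show ‖k1 i‖ ≤ _
    rw [k1, norm_neg]; exact h.1
  · show ‖k2 i‖ ≤ _
    rw [k2, norm_neg]; exact h.2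

/-- the real linear map -/
noncomputable def LR (i : ℕ) : E4 →L[ℝ] ℂ × ℂ := (LL i).restrictScalars ℝ

theorem LR_norm (i : ℕ) : ‖LR i‖ ≤ 64 ^ (i + 1) :=
  ContinuousLinearMap.opNorm_le_bound _ (by positivity) fun p => LL_norm i p

theorem aff_eq (i : ℕ) (p : E4) : aff i p = LR i p + (k1 i, k2 i) := rfl

theorem aff_norm (i : ℕ) (p : E4) (hp : ‖p‖ ≤ 20) : ‖aff i p‖ ≤ 21 * 64 ^ (i + 1) := by
  rw [aff]
  refine (norm_add_le _ _).trans ?_
  have h1 := LL_norm i p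
  have h2 := kk_norm i
  have h3 : (64:ℝ) ^ (i + 1) * ‖p‖ ≤ 64 ^ (i + 1) * 20 := mul_le_mul_of_nonneg_left hp (by positivity)
  linarith

theorem aff_holo (i : ℕ) : ContDiff ℂ ((⊤ : ℕ∞) : WithTop ℕ∞) (aff i) := by
  unfold aff
  exact (LL i).contDiff.add contDiff_const

theorem aff_smooth (i : ℕ) : Sm (aff i) := by
  have e : aff i = fun p => LR i p + (k1 i, k2 i) := funext (aff_eq i)
  rw [e]
  exact (LR i).contDiff.add contDiff_const

theorem vv_smooth (φ : ℝ → ℝ) (hφ : IsPhi φ) (i : ℕ) : Sm (vv φ i) :=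
  (VV_smooth φ hφ i).comp (aff_smooth i)

theorem vv_bd (φ : ℝ → ℝ) (hφ : IsPhi φ) (n : ℕ) : ∃ a : ℕ → ℝ, Expo a ∧
    ∀ i (p : E4), ‖p‖ ≤ 20 → Bd n (a i) (vv φ i) p := by
  obtain ⟨a, ha, hb⟩ := VV_bd φ hφ n
  have hg : Expo (fun i => (64:ℝ) ^ (i + 1)) := Expo.geom 64 (by norm_num)
  refine ⟨fun i => a i * (1 + 21 * 64 ^ (i + 1)) ^ 2 * ((64:ℝ) ^ (i + 1)) ^ n, ?_, ?_⟩
  · exact (ha.mul (((Expo.const 1 (by norm_num)).add ((Expo.const 21 (by norm_num)).mul hg)).pow 2)).mul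
      (hg.pow n)
  · intro i p hp
    have h1 := hb i (LR i p + (k1 i, k2 i))
    have h2 := Bd.affine (VV_smooth φ hφ i) (LR i) (k1 i, k2 i) (64 ^ (i + 1))
      (one_le_pow₀ (by norm_num)) (LR_norm i) h1
    have e : vv φ i = fun p => VV φ i (LR i p + (k1 i, k2 i)) := rfl
    rw [e]
    refine h2.mono ?_
    apply mul_le_mul_of_nonneg_right _ (by positivity)
    apply mul_le_mul_of_nonneg_left _ (ha.nonneg i)
    apply pow_le_pow_left₀ (by positivity)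
    have := aff_norm i p hp
    rw [aff_eq] at this
    linarith

/-! ### Levi form of the building blocks -/

theorem nsq_line (z u : ℂ × ℂ) (s : ℝ) : nsq (z + s • u) = nsq z +
    s * (2 * (z.1.re * u.1.re + z.1.im * u.1.im + z.2.re * u.2.re + z.2.im * u.2.im)) + s ^ 2 * nsq u := by
  simp only [nsq, Prod.fst_add, Prod.snd_add, Prod.smul_fst, Prod.smul_snd, Complex.add_re,
    Complex.add_im, Complex.real_smul, Complex.re_ofReal_mul, Complex.im_ofReal_mul]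
  ring

theorem B_levi (i : ℕ) (p w : E4) :
    0 ≤ fderiv ℝ (fderiv ℝ (fun p : E4 => (AA i : ℝ) * nsq (aff i p))) p w w := by
  obtain ⟨b, hb⟩ : ∃ b : ℝ, b = (AA i : ℝ) * (2 * ((aff i p).1.re * (LR i w).1.re + (aff i p).1.im * (LR i w).1.im
    + (aff i p).2.re * (LR i w).2.re + (aff i p).2.im * (LR i w).2.im)) := ⟨_, rfl⟩
  obtain ⟨c, hc⟩ : ∃ c : ℝ, c = (AA i : ℝ) * nsq (LR i w) := ⟨_, rfl⟩
  have hc0 : 0 ≤ c := by rw [hc]; exact mul_nonneg (by positivity) (nsq_nonneg _)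
  have hs : Sm (fun p : E4 => (AA i : ℝ) * nsq (aff i p)) :=
    contDiff_const.mul (nsq_smooth.comp (aff_smooth i))
  have h := second_line (fun p : E4 => (AA i : ℝ) * nsq (aff i p)) (hs.of_le two_le_top) p w
    (fun s => (AA i : ℝ) * nsq (aff i p) + s * b + s ^ 2 * c) (fun s => b + 2 * s * c) (2 * c) ?_ ?_ ?_
  · rw [h]; linarith
  · intro s
    show (AA i : ℝ) * nsq (aff i (p + s • w)) = _
    have e : aff i (p + s • w) = aff i p + s • LR i w := by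
      rw [aff_eq, aff_eq, map_add, map_smul]
      abel
    rw [e, nsq_line, hb, hc]
    ring
  · intro s
    have h1 := (((hasDerivAt_id s).mul_const b).const_add ((AA i : ℝ) * nsq (aff i p))).add
      ((hasDerivAt_pow 2 s).mul_const c)
    refine h1.congr_deriv ?_
    norm_num
  · have h1 := ((((hasDerivAt_id (0:ℝ)).const_mul 2).mul_const c).const_add b)
    refine h1.congr_deriv ?_
    norm_num

theorem vv_levi (φ : ℝ → ℝ) (hφ : IsPhi φ) (i : ℕ) (p w : E4) :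
    0 ≤ fderiv ℝ (fderiv ℝ (vv φ i)) p w w
      + fderiv ℝ (fderiv ℝ (vv φ i)) p (Complex.I • w) (Complex.I • w) := by
  have hF : ContDiff ℂ ((⊤ : ℕ∞) : WithTop ℕ∞) (fun p => Ff i (aff i p)) :=
    (Ff_holo i).comp (aff_holo i)
  have h := smax_levi φ hφ (nn i) (fun p : E4 => (AA i : ℝ) * nsq (aff i p)) (fun p => Ff i (aff i p))
    (contDiff_const.mul (nsq_smooth.comp (aff_smooth i)))
    ((Ff_smooth i).comp (aff_smooth i)) (hF.differentiable (by simp))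
    (fun p w => add_nonneg (B_levi i p w) (B_levi i p _)) p w
  exact h

end Pool.Agent.TH234.Kc
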