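import Pool.Agent.TH234.Kc.Levi

set_option autoImplicit false

/-!
Pointwise bounds for all derivatives up to a given order, and their calculus.
-/

namespace Pool.Agent.TH234.Kc

open Filter Topology

/-- smooth of class `C^∞` -/
abbrev Sm {E F : Type*} [NormedAddCommGroup E] [NormedSpace ℝ E] [NormedAddCommGroup F]
    [NormedSpace ℝ F] (f : E → F) : Prop := ContDiff ℝ ((⊤ : ℕ∞) : WithTop ℕ∞) f

/-- all derivatives of order at most `n` of `f` at `x` are bounded by `K` -/
def Bd {E F : Type*} [NormedAddCommGroup E] [NormedSpace ℝ E] [NormedAddCommGroup F]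
    [NormedSpace ℝ F] (n : ℕ) (K : ℝ) (f : E → F) (x : E) : Prop :=
  ∀ l, l ≤ n → ‖iteratedFDeriv ℝ l f x‖ ≤ K

section

variable {E F G : Type*} [NormedAddCommGroup E] [NormedSpace ℝ E] [NormedAddCommGroup F]
    [NormedSpace ℝ F] [NormedAddCommGroup G] [NormedSpace ℝ G]

theorem nat_le_top (k : ℕ) : (k : WithTop ℕ∞) ≤ ((⊤ : ℕ∞) : WithTop ℕ∞) := by
  exact_mod_cast le_top

theorem Bd.nonneg {n : ℕ} {K : ℝ} {f : E → F} {x : E} (h : Bd n K f x) : 0 ≤ K :=
  (norm_nonneg _).trans (h 0 (Nat.zero_le _))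

theorem Bd.mono {n : ℕ} {K K' : ℝ} {f : E → F} {x : E} (h : Bd n K f x) (hK : K ≤ K') :
    Bd n K' f x := fun l hl => (h l hl).trans hK

theorem Bd.norm_le {n : ℕ} {K : ℝ} {f : E → F} {x : E} (h : Bd n K f x) : ‖f x‖ ≤ K := by
  have := h 0 (Nat.zero_le _)
  rwa [norm_iteratedFDeriv_zero] at this

theorem Bd.add {n : ℕ} {K K' : ℝ} {f g : E → F} {x : E} (hf : Sm f) (hg : Sm g)
    (h : Bd n K f x) (h' : Bd n K' g x) : Bd n (K + K') (fun y => f y + g y) x := by
  intro l hl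
  have e := iteratedFDeriv_add_apply (𝕜 := ℝ) (i := l) (f := f) (g := g) (x := x)
    (hf.of_le (nat_le_top l)).contDiffAt (hg.of_le (nat_le_top l)).contDiffAt
  have e' : (f + g) = fun y => f y + g y := rfl
  rw [e'] at e
  rw [e]
  exact (norm_add_le _ _).trans (add_le_add (h l hl) (h' l hl))

theorem Bd.neg {n : ℕ} {K : ℝ} {f : E → F} {x : E}
    (h : Bd n K f x) : Bd n K (fun y => - f y) x := by
  intro l hl
  have e := iteratedFDeriv_neg_apply (𝕜 := ℝ) (i := l) (f := f) (x := x)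
  have e' : (-f) = fun y => - f y := rfl
  rw [e'] at e
  rw [e, norm_neg]
  exact h l hl

theorem Bd.sub {n : ℕ} {K K' : ℝ} {f g : E → F} {x : E} (hf : Sm f) (hg : Sm g)
    (h : Bd n K f x) (h' : Bd n K' g x) : Bd n (K + K') (fun y => f y - g y) x := by
  have := Bd.add hf hg.neg h h'.neg
  simpa [sub_eq_add_neg] using this

theorem Bd.const {n : ℕ} (c : F) (x : E) : Bd n ‖c‖ (fun _ : E => c) x := by
  intro l _
  rcases Nat.eq_zero_or_pos l with h | h
  · subst h
    rw [norm_iteratedFDeriv_zero]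
  · rw [iteratedFDeriv_const_of_ne (by omega)]
    simp

theorem Bd.mul {A : Type*} [NormedRing A] [NormedAlgebra ℝ A] {n : ℕ} {K K' : ℝ} {f g : E → A}
    {x : E} (hf : Sm f) (hg : Sm g) (h : Bd n K f x) (h' : Bd n K' g x) :
    Bd n (2 ^ n * K * K') (fun y => f y * g y) x := by
  intro l hl
  have hK := h.nonneg
  have hK' := h'.nonneg
  have e := norm_iteratedFDeriv_mul_le (𝕜 := ℝ) hf hg x (nat_le_top l)
  refine e.trans ?_
  have e2 : ∑ i ∈ Finset.range (l + 1), (l.choose i : ℝ) * ‖iteratedFDeriv ℝ i f x‖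
        * ‖iteratedFDeriv ℝ (l - i) g x‖ ≤ ∑ i ∈ Finset.range (l + 1), (l.choose i : ℝ) * (K * K') := by
    apply Finset.sum_le_sum
    intro i hi
    have hi' : i ≤ l := by
      have := Finset.mem_range.1 hi
      omega
    rw [mul_assoc]
    apply mul_le_mul_of_nonneg_left _ (by positivity)
    exact mul_le_mul (h i (by omega)) (h' (l - i) (by omega)) (norm_nonneg _) hK
  refine e2.trans ?_
  rw [← Finset.sum_mul]
  have e3 : ∑ i ∈ Finset.range (l + 1), (l.choose i : ℝ) = 2 ^ l := by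
    have := Nat.sum_range_choose l
    exact_mod_cast this
  rw [e3, mul_assoc]
  apply mul_le_mul_of_nonneg_right _ (by positivity)
  exact pow_le_pow_right₀ (by norm_num) hl

theorem Bd.clm {n : ℕ} {K : ℝ} {f : E → F} {x : E} (L : F →L[ℝ] G) (hf : Sm f)
    (h : Bd n K f x) : Bd n (‖L‖ * K) (fun y => L (f y)) x := by
  intro l hl
  have e := L.norm_iteratedFDeriv_comp_left (f := f) (x := x) (n := l)
    (hf.contDiffAt (x := x)) (nat_le_top l)
  have e' : (L ∘ f) = fun y => L (f y) := rfl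
  rw [e'] at e
  exact e.trans (mul_le_mul_of_nonneg_left (h l hl) (norm_nonneg _))

theorem Bd.linear {n : ℕ} (L : E →L[ℝ] F) (x : E) : Bd n (‖L‖ * (1 + ‖x‖)) (fun y => L y) x := by
  intro l _
  have h1 : ‖L x‖ ≤ ‖L‖ * (1 + ‖x‖) := (L.le_opNorm x).trans (by nlinarith [norm_nonneg L, norm_nonneg x])
  have h2 : ‖L‖ ≤ ‖L‖ * (1 + ‖x‖) := by nlinarith [norm_nonneg L, norm_nonneg x]
  have h3 : 0 ≤ ‖L‖ * (1 + ‖x‖) := by positivity
  rcases Nat.eq_zero_or_pos l with h | h
  · subst h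
    rw [norm_iteratedFDeriv_zero]
    exact h1
  · obtain ⟨k, rfl⟩ : ∃ k, l = k + 1 := ⟨l - 1, by omega⟩
    rw [← norm_iteratedFDeriv_fderiv]
    have e : fderiv ℝ (fun y => L y) = fun _ => L := by
      funext y
      exact L.fderiv
    rw [e]
    rcases Nat.eq_zero_or_pos k with h | h
    · subst h
      rw [norm_iteratedFDeriv_zero]
      exact h2
    · rw [iteratedFDeriv_const_of_ne (by omega)]
      simpa using h3

/-- composition with an affine map -/
theorem Bd.affine {n : ℕ} {K : ℝ} {f : F → G} (hf : Sm f) (L : E →L[ℝ] F) (c : F) (D : ℝ)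
    (hD1 : 1 ≤ D) (hL : ‖L‖ ≤ D) {x : E} (h : Bd n K f (L x + c)) :
    Bd n (K * D ^ n) (fun y => f (L y + c)) x := by
  intro l hl
  have hK := h.nonneg
  have hf' : Sm (fun z => f (z + c)) := hf.comp (contDiff_id.add contDiff_const)
  have e1 := L.iteratedFDeriv_comp_right hf' x (nat_le_top l)
  have e2 : ((fun z => f (z + c)) ∘ L) = fun y => f (L y + c) := rfl
  rw [e2] at e1
  rw [e1, iteratedFDeriv_comp_add_right]
  refine (ContinuousMultilinearMap.norm_compContinuousLinearMap_le _ _).trans ?_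
  have hp : ∏ _j : Fin l, ‖L‖ ≤ D ^ n := by
    rw [Finset.prod_const, Finset.card_univ, Fintype.card_fin]
    exact (pow_le_pow_left₀ (norm_nonneg _) hL l).trans (pow_le_pow_right₀ hD1 hl)
  exact mul_le_mul (h l hl) hp (Finset.prod_nonneg fun _ _ => norm_nonneg _) hK

/-- composition with a function of one real variable -/
theorem Bd.comp {n : ℕ} {K C : ℝ} {g : ℝ → ℝ} {f : E → ℝ} (hg : Sm g) (hf : Sm f) {x : E}
    (hK : 1 ≤ K) (hC : Bd n C g (f x)) (h : ∀ l, 1 ≤ l → l ≤ n → ‖iteratedFDeriv ℝ l f x‖ ≤ K) :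
    Bd n (n.factorial * C * K ^ n) (fun y => g (f y)) x := by
  intro l hl
  have hC0 := hC.nonneg
  have e := norm_iteratedFDeriv_comp_le (𝕜 := ℝ) (n := l) (g := g) (f := f) hg hf (nat_le_top l) x
    (C := C) (D := K) (fun i hi => hC i (by omega))
    (fun i hi hi2 => (h i hi (by omega)).trans (le_self_pow₀ hK (by omega)))
  have e' : (g ∘ f) = fun y => g (f y) := rfl
  rw [e'] at e
  refine e.trans ?_
  have a1 : (l.factorial : ℝ) ≤ n.factorial := by exact_mod_cast Nat.factorial_le hl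
  have a2 : K ^ l ≤ K ^ n := pow_le_pow_right₀ hK hl
  exact mul_le_mul (mul_le_mul_of_nonneg_right a1 hC0) a2 (by positivity) (by positivity)

theorem Bd.prod {n : ℕ} {K : ℝ} (g : ℕ → E → ℂ) (hg : ∀ b, Sm (g b)) (A : ℕ) {x : E}
    (h : ∀ b, b < A → Bd n K (g b) x) :
    Sm (fun y => ∏ b ∈ Finset.range A, g b y) ∧
      Bd n ((2 ^ n * K) ^ A) (fun y => ∏ b ∈ Finset.range A, g b y) x := by
  induction A with
  | zero =>
    simp only [Finset.range_zero, Finset.prod_empty, pow_zero]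
    refine ⟨contDiff_const, ?_⟩
    have := Bd.const (n := n) (1 : ℂ) x
    simpa using this
  | succ A ih =>
    obtain ⟨h1, h2⟩ := ih (fun b hb => h b (by omega))
    simp only [Finset.prod_range_succ]
    refine ⟨h1.mul (hg A), ?_⟩
    refine (Bd.mul h1 (hg A) h2 (h A (by omega))).mono ?_
    rw [pow_succ]
    apply le_of_eq
    ring

theorem Bd.congr {n : ℕ} {K : ℝ} {f g : E → F} {x : E} (h : Bd n K f x) (e : f =ᶠ[𝓝 x] g) :
    Bd n K g x := by
  intro l hl
  rw [← (e.iteratedFDeriv ℝ l).self_of_nhds]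
  exact h l hl

end

end Pool.Agent.TH234.Kc
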