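import Pool.Agent.TH234.Kc.Bounds

set_option autoImplicit false

/-!
Bounds for the derivatives of a Gaussian on `ℂ × ℂ` and its products with the coordinates.
-/

namespace Pool.Agent.TH234.Kc

open Filter Topology

/-- the squared norm on `ℂ × ℂ` -/
noncomputable def nsq (z : ℂ × ℂ) : ℝ := z.1.re ^ 2 + z.1.im ^ 2 + z.2.re ^ 2 + z.2.im ^ 2

theorem nsq_eq (z : ℂ × ℂ) : nsq z = ‖z.1‖ ^ 2 + ‖z.2‖ ^ 2 := by
  unfold nsq
  rw [← Complex.normSq_eq_norm_sq, ← Complex.normSq_eq_norm_sq, Complex.normSq_apply,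
    Complex.normSq_apply]
  ring

theorem nsq_nonneg (z : ℂ × ℂ) : 0 ≤ nsq z := by unfold nsq; positivity

theorem nsq_ge (z : ℂ × ℂ) : ‖z‖ ^ 2 ≤ nsq z := by
  rw [nsq_eq, Prod.norm_def]
  rcases le_total ‖z.1‖ ‖z.2‖ with h | h
  · rw [max_eq_right h]; nlinarith [norm_nonneg z.1]
  · rw [max_eq_left h]; nlinarith [norm_nonneg z.2]

/-- the four real coordinates -/
noncomputable def co1 : (ℂ × ℂ) →L[ℝ] ℝ := Complex.reCLM.comp (ContinuousLinearMap.fst ℝ ℂ ℂ)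
noncomputable def co2 : (ℂ × ℂ) →L[ℝ] ℝ := Complex.imCLM.comp (ContinuousLinearMap.fst ℝ ℂ ℂ)
noncomputable def co3 : (ℂ × ℂ) →L[ℝ] ℝ := Complex.reCLM.comp (ContinuousLinearMap.snd ℝ ℂ ℂ)
noncomputable def co4 : (ℂ × ℂ) →L[ℝ] ℝ := Complex.imCLM.comp (ContinuousLinearMap.snd ℝ ℂ ℂ)

theorem co1_norm : ‖co1‖ ≤ 1 := by
  refine ContinuousLinearMap.opNorm_le_bound _ (by norm_num) fun v => ?_
  rw [one_mul]
  exact (Complex.abs_re_le_norm _).trans (norm_fst_le v)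
theorem co2_norm : ‖co2‖ ≤ 1 := by
  refine ContinuousLinearMap.opNorm_le_bound _ (by norm_num) fun v => ?_
  rw [one_mul]
  exact (Complex.abs_im_le_norm _).trans (norm_fst_le v)
theorem co3_norm : ‖co3‖ ≤ 1 := by
  refine ContinuousLinearMap.opNorm_le_bound _ (by norm_num) fun v => ?_
  rw [one_mul]
  exact (Complex.abs_re_le_norm _).trans (norm_snd_le v)
theorem co4_norm : ‖co4‖ ≤ 1 := by
  refine ContinuousLinearMap.opNorm_le_bound _ (by norm_num) fun v => ?_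
  rw [one_mul]
  exact (Complex.abs_im_le_norm _).trans (norm_snd_le v)

theorem sq_bd (n : ℕ) (L : (ℂ × ℂ) →L[ℝ] ℝ) (hL : ‖L‖ ≤ 1) (z : ℂ × ℂ) :
    Bd n (2 ^ n * (1 + ‖z‖) ^ 2) (fun z => L z * L z) z := by
  have h1 : Bd n (1 + ‖z‖) (fun z => L z) z :=
    (Bd.linear L z).mono (mul_le_of_le_one_left (by positivity) hL)
  have h2 := Bd.mul L.contDiff L.contDiff h1 h1
  refine h2.mono ?_
  apply le_of_eq
  ring

theorem nsq_smooth : Sm nsq := by
  have e : nsq = fun z => co1 z * co1 z + co2 z * co2 z + co3 z * co3 z + co4 z * co4 z := by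
    funext z
    simp only [nsq, co1, co2, co3, co4, ContinuousLinearMap.comp_apply, Complex.reCLM_apply,
      Complex.imCLM_apply, ContinuousLinearMap.coe_fst', ContinuousLinearMap.coe_snd']
    ring
  rw [e]
  exact (((co1.contDiff.mul co1.contDiff).add (co2.contDiff.mul co2.contDiff)).add
    (co3.contDiff.mul co3.contDiff)).add (co4.contDiff.mul co4.contDiff)

theorem nsq_bd (n : ℕ) (z : ℂ × ℂ) : Bd n (4 * (2 ^ n * (1 + ‖z‖) ^ 2)) nsq z := by
  have e : nsq = fun z => co1 z * co1 z + co2 z * co2 z + co3 z * co3 z + co4 z * co4 z := by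
    funext z
    simp only [nsq, co1, co2, co3, co4, ContinuousLinearMap.comp_apply, Complex.reCLM_apply,
      Complex.imCLM_apply, ContinuousLinearMap.coe_fst', ContinuousLinearMap.coe_snd']
    ring
  rw [e]
  have s1 : Sm fun z => co1 z * co1 z := co1.contDiff.mul co1.contDiff
  have s2 : Sm fun z => co2 z * co2 z := co2.contDiff.mul co2.contDiff
  have s3 : Sm fun z => co3 z * co3 z := co3.contDiff.mul co3.contDiff
  have s4 : Sm fun z => co4 z * co4 z := co4.contDiff.mul co4.contDiff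
  refine (Bd.add ((s1.add s2).add s3) s4 (Bd.add (s1.add s2) s3 (Bd.add s1 s2
    (sq_bd n co1 co1_norm z) (sq_bd n co2 co2_norm z)) (sq_bd n co3 co3_norm z))
    (sq_bd n co4 co4_norm z)).mono ?_
  apply le_of_eq
  ring

theorem exp_neg_bd (n : ℕ) (t : ℝ) : Bd n (Real.exp (-t)) (fun t : ℝ => Real.exp (-t)) t := by
  intro l _
  rw [norm_iteratedFDeriv_eq_norm_iteratedDeriv]
  have h : ∀ l : ℕ, iteratedDeriv l (fun t : ℝ => Real.exp (-t)) = fun t => (-1) ^ l * Real.exp (-t) := by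
    intro l
    induction l with
    | zero => simp
    | succ l ih =>
      rw [iteratedDeriv_succ, ih]
      funext t
      have h1 : HasDerivAt (fun t : ℝ => (-1) ^ l * Real.exp (-t)) ((-1) ^ l * (Real.exp (-t) * (-1))) t :=
        ((hasDerivAt_neg t).exp).const_mul _
      rw [h1.deriv, pow_succ]
      ring
  rw [h l]
  simp

/-- the Gaussian -/
noncomputable def gau (z : ℂ × ℂ) : ℝ := Real.exp (-nsq z)

theorem gau_smooth : Sm gau := nsq_smooth.neg.exp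

theorem gau_bd (n : ℕ) (z : ℂ × ℂ) :
    Bd n (n.factorial * Real.exp (-nsq z) * (4 * (2 ^ n * (1 + ‖z‖) ^ 2)) ^ n) gau z := by
  have hK : 1 ≤ 4 * ((2:ℝ) ^ n * (1 + ‖z‖) ^ 2) := by
    have h1 : (1:ℝ) ≤ 2 ^ n := one_le_pow₀ (by norm_num)
    have h2 : 1 ≤ (1 + ‖z‖) ^ 2 := one_le_pow₀ (by linarith [norm_nonneg z])
    nlinarith
  have hs : Sm (fun t : ℝ => Real.exp (-t)) := contDiff_neg.exp
  exact Bd.comp hs nsq_smooth hK (exp_neg_bd n (nsq z)) (fun l _ hl => nsq_bd n z l hl)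

theorem gauss_poly (k : ℕ) (r : ℝ) (hr : 0 ≤ r) :
    (1 + r) ^ k * Real.exp (-r ^ 2) ≤ k.factorial * Real.exp 2 := by
  have h1 := Real.pow_div_factorial_le_exp (1 + r) (show 0 ≤ 1 + r by linarith) k
  rw [div_le_iff₀ (by positivity)] at h1
  calc (1 + r) ^ k * Real.exp (-r ^ 2) ≤ (Real.exp (1 + r) * k.factorial) * Real.exp (-r ^ 2) :=
        mul_le_mul_of_nonneg_right h1 (Real.exp_pos _).le
    _ = k.factorial * Real.exp (1 + r + -r ^ 2) := by rw [Real.exp_add (1 + r)]; ring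
    _ ≤ k.factorial * Real.exp 2 := by
        apply mul_le_mul_of_nonneg_left _ (by positivity)
        apply Real.exp_le_exp.2
        nlinarith [sq_nonneg (r - 1 / 2)]

/-- uniform bounds -/
theorem gau_uniform (n : ℕ) : ∃ C : ℝ, 1 ≤ C ∧ ∀ z : ℂ × ℂ,
    Bd n C (fun z => ((gau z : ℝ) : ℂ)) z ∧
    Bd n C (fun z : ℂ × ℂ => ((gau z : ℝ) : ℂ) * z.1) z ∧
    Bd n C (fun z : ℂ × ℂ => ((gau z : ℝ) : ℂ) * z.2) z := by
  obtain ⟨P, hP⟩ : ∃ P : ℝ, P = 2 ^ n * (n.factorial * (4 * 2 ^ n) ^ n) *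
      ((2 * n + 1).factorial * Real.exp 2) := ⟨_, rfl⟩
  have hPpos : 0 ≤ P := by rw [hP]; positivity
  refine ⟨P + 1, by linarith, fun z => ?_⟩
  have hgs : Sm (fun z => ((gau z : ℝ) : ℂ)) := Complex.ofRealCLM.contDiff.comp gau_smooth
  have h0 : Bd n (n.factorial * Real.exp (-nsq z) * (4 * (2 ^ n * (1 + ‖z‖) ^ 2)) ^ n)
      (fun z => ((gau z : ℝ) : ℂ)) z := by
    have h := Bd.clm Complex.ofRealCLM gau_smooth (gau_bd n z)
    refine h.mono ?_
    rw [Complex.ofRealCLM_norm, one_mul]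
  have hr : 0 ≤ ‖z‖ := norm_nonneg z
  have hexp : Real.exp (-nsq z) ≤ Real.exp (-‖z‖ ^ 2) := by
    apply Real.exp_le_exp.2
    have := nsq_ge z
    linarith
  have hmain : ∀ k : ℕ, k ≤ 1 → (n.factorial * Real.exp (-nsq z) * (4 * (2 ^ n * (1 + ‖z‖) ^ 2)) ^ n) * (1 + ‖z‖) ^ k
      ≤ (n.factorial * (4 * 2 ^ n) ^ n) * ((2 * n + 1).factorial * Real.exp 2) := by
    intro k hk
    have e1 : (n.factorial * Real.exp (-nsq z) * (4 * (2 ^ n * (1 + ‖z‖) ^ 2)) ^ n) * (1 + ‖z‖) ^ k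
        = (n.factorial * (4 * 2 ^ n) ^ n) * ((1 + ‖z‖) ^ (2 * n + k) * Real.exp (-nsq z)) := by
      rw [← mul_assoc (4:ℝ), mul_pow (4 * 2 ^ n : ℝ), ← pow_mul, pow_add]
      ring
    rw [e1]
    apply mul_le_mul_of_nonneg_left _ (by positivity)
    have e2 : (1 + ‖z‖) ^ (2 * n + k) ≤ (1 + ‖z‖) ^ (2 * n + 1) :=
      pow_le_pow_right₀ (by linarith) (by omega)
    calc (1 + ‖z‖) ^ (2 * n + k) * Real.exp (-nsq z)
        ≤ (1 + ‖z‖) ^ (2 * n + 1) * Real.exp (-‖z‖ ^ 2) :=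
          mul_le_mul e2 hexp (Real.exp_pos _).le (by positivity)
      _ ≤ _ := gauss_poly _ _ hr
  have h2n : (1:ℝ) ≤ 2 ^ n := one_le_pow₀ (by norm_num)
  have hX0 : (0:ℝ) ≤ (n.factorial * (4 * 2 ^ n) ^ n) * ((2 * n + 1).factorial * Real.exp 2) := by
    positivity
  have hc : ∀ L : (ℂ × ℂ) →L[ℝ] ℂ, ‖L‖ ≤ 1 → Bd n (P + 1) (fun z : ℂ × ℂ => ((gau z : ℝ) : ℂ) * L z) z := by
    intro L hL
    have h1 : Bd n (1 + ‖z‖) (fun z => L z) z :=
      (Bd.linear L z).mono (mul_le_of_le_one_left (by positivity) hL)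
    refine (Bd.mul hgs L.contDiff h0 h1).mono ?_
    have h3 := hmain 1 le_rfl
    rw [pow_one] at h3
    have h4 := mul_le_mul_of_nonneg_left h3 (show (0:ℝ) ≤ 2 ^ n by positivity)
    have : 2 ^ n * ((n.factorial * (4 * 2 ^ n) ^ n) * ((2 * n + 1).factorial * Real.exp 2)) = P := by
      rw [hP]; ring
    linarith
  refine ⟨?_, ?_, ?_⟩
  · refine h0.mono ?_
    have h3 := hmain 0 (by norm_num)
    rw [pow_zero, mul_one] at h3
    have : (n.factorial * (4 * 2 ^ n) ^ n) * ((2 * n + 1).factorial * Real.exp 2)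
        ≤ 2 ^ n * ((n.factorial * (4 * 2 ^ n) ^ n) * ((2 * n + 1).factorial * Real.exp 2)) :=
      le_mul_of_one_le_left hX0 h2n
    have e : 2 ^ n * ((n.factorial * (4 * 2 ^ n) ^ n) * ((2 * n + 1).factorial * Real.exp 2)) = P := by
      rw [hP]; ring
    linarith
  · exact hc (ContinuousLinearMap.fst ℝ ℂ ℂ) (ContinuousLinearMap.norm_fst_le ..)
  · exact hc (ContinuousLinearMap.snd ℝ ℂ ℂ) (ContinuousLinearMap.norm_snd_le ..)

end Pool.Agent.TH234.Kc
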