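import Pool.Agent.TH234.Kc.Aff

set_option autoImplicit false

/-!
The discs, seen through the affine maps.
-/

namespace Pool.Agent.TH234.Kc

open Filter Topology Finset

/-- points of `ℂ⁴` on the `j`-th disc, with free last coordinate -/
noncomputable def pt (j : ℕ) (lam t : ℂ) : E4 :=
  WithLp.toLp 2 ![(X0 j : ℂ) + (1 / 16) ^ j * lam, (X1 j : ℂ) + (1 / 16) ^ j * ((j : ℂ) + 1) * lam,
    (X2 j : ℂ) + (1 / 16) ^ j * ((j : ℂ) + 1) ^ 2 * lam, t]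

theorem pt_0 (j : ℕ) (lam t : ℂ) : pt j lam t 0 = (X0 j : ℂ) + (1 / 16) ^ j * lam := rfl
theorem pt_1 (j : ℕ) (lam t : ℂ) : pt j lam t 1 = (X1 j : ℂ) + (1 / 16) ^ j * ((j : ℂ) + 1) * lam := rfl
theorem pt_2 (j : ℕ) (lam t : ℂ) : pt j lam t 2 = (X2 j : ℂ) + (1 / 16) ^ j * ((j : ℂ) + 1) ^ 2 * lam := rfl
theorem pt_3 (j : ℕ) (lam t : ℂ) : pt j lam t 3 = t := rfl

theorem aff_fst (i : ℕ) (p : E4) : (aff i p).1 = (16 : ℂ) ^ i * (p 1 - (i : ℂ) * p 0)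
    - (16 : ℂ) ^ i * ((X1 i : ℂ) - (i : ℂ) * (X0 i : ℂ)) := by
  show L1 i p + k1 i = _
  rw [L1_apply, k1]; ring

theorem aff_snd (i : ℕ) (p : E4) : (aff i p).2 = (16 : ℂ) ^ i * (p 2 - (2 * (i : ℂ) + 1) * p 1
    + ((i : ℂ) * ((i : ℂ) + 1)) * p 0) - (16 : ℂ) ^ i * ((X2 i : ℂ) - (2 * (i : ℂ) + 1) * (X1 i : ℂ)
      + ((i : ℂ) * ((i : ℂ) + 1)) * (X0 i : ℂ)) := by
  show L2 i p + k2 i = _
  rw [L2_apply, k2]; ring

noncomputable def S1 (i k : ℕ) : ℝ := ∑ a ∈ range k, cc (i + a) * (1 / 16) ^ a * ((a : ℝ) + 1)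
noncomputable def S2 (i k : ℕ) : ℝ := ∑ a ∈ range k, cc (i + a) * (1 / 16) ^ a * ((a : ℝ) + 1) * a
noncomputable def T1 (j d : ℕ) : ℝ := ∑ a ∈ range d, cc (j + a) * (1 / 16) ^ a * ((a : ℝ) + 1 - d)
noncomputable def T2 (j d : ℕ) : ℝ :=
  ∑ a ∈ range d, cc (j + a) * (1 / 16) ^ a * ((a : ℝ) + 1 - d) * ((a : ℝ) - d)

theorem X0_add (i k : ℕ) : X0 (i + k) = X0 i + ∑ a ∈ range k, cc (i + a) * (1 / 16) ^ (i + a) := by
  unfold X0; rw [Finset.sum_range_add]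
theorem X1_add (i k : ℕ) : X1 (i + k) = X1 i +
    ∑ a ∈ range k, cc (i + a) * (1 / 16) ^ (i + a) * (((i + a : ℕ) : ℝ) + 1) := by
  unfold X1; rw [Finset.sum_range_add]
theorem X2_add (i k : ℕ) : X2 (i + k) = X2 i +
    ∑ a ∈ range k, cc (i + a) * (1 / 16) ^ (i + a) * (((i + a : ℕ) : ℝ) + 1) ^ 2 := by
  unfold X2; rw [Finset.sum_range_add]

theorem pow16 (i : ℕ) : (16:ℝ) ^ i * (1 / 16) ^ i = 1 := by
  rw [← mul_pow]; norm_num

theorem fwd1 (i k : ℕ) : (16:ℝ) ^ i * ((X1 (i + k) - X1 i) - i * (X0 (i + k) - X0 i)) = S1 i k := by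
  rw [X0_add, X1_add, add_sub_cancel_left, add_sub_cancel_left, S1, Finset.mul_sum,
    ← Finset.sum_sub_distrib, Finset.mul_sum]
  apply Finset.sum_congr rfl
  intro a _
  have h := pow16 i
  rw [pow_add]
  push_cast
  linear_combination (cc (i + a) * (1 / 16) ^ a * ((a : ℝ) + 1)) * h

theorem fwd2 (i k : ℕ) : (16:ℝ) ^ i * ((X2 (i + k) - X2 i) - (2 * i + 1) * (X1 (i + k) - X1 i)
    + (i * (i + 1)) * (X0 (i + k) - X0 i)) = S2 i k := by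
  rw [X0_add, X1_add, X2_add, add_sub_cancel_left, add_sub_cancel_left, add_sub_cancel_left, S2,
    Finset.mul_sum, Finset.mul_sum, ← Finset.sum_sub_distrib, ← Finset.sum_add_distrib, Finset.mul_sum]
  apply Finset.sum_congr rfl
  intro a _
  have h := pow16 i
  rw [pow_add]
  push_cast
  linear_combination (cc (i + a) * (1 / 16) ^ a * ((a : ℝ) + 1) * a) * h

theorem bwd1 (j d : ℕ) : (16:ℝ) ^ (j + d) * ((X1 j - X1 (j + d)) - ((j + d : ℕ) : ℝ) * (X0 j - X0 (j + d)))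
    = -(16 ^ d * T1 j d) := by
  have e1 : X1 j - X1 (j + d) = -∑ a ∈ range d, cc (j + a) * (1 / 16) ^ (j + a) * (((j + a : ℕ) : ℝ) + 1) := by
    rw [X1_add]; ring
  have e0 : X0 j - X0 (j + d) = -∑ a ∈ range d, cc (j + a) * (1 / 16) ^ (j + a) := by
    rw [X0_add]; ring
  rw [e1, e0, T1, mul_neg, sub_neg_eq_add, neg_add_eq_sub, Finset.mul_sum, ← Finset.sum_sub_distrib,
    Finset.mul_sum, Finset.mul_sum, ← Finset.sum_neg_distrib]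
  apply Finset.sum_congr rfl
  intro a _
  have h := pow16 j
  rw [pow_add, pow_add]
  push_cast
  linear_combination (- (16 ^ d) * (cc (j + a) * (1 / 16) ^ a * ((a : ℝ) + 1 - d))) * h

theorem bwd2 (j d : ℕ) : (16:ℝ) ^ (j + d) * ((X2 j - X2 (j + d))
    - (2 * ((j + d : ℕ) : ℝ) + 1) * (X1 j - X1 (j + d))
    + (((j + d : ℕ) : ℝ) * (((j + d : ℕ) : ℝ) + 1)) * (X0 j - X0 (j + d))) = -(16 ^ d * T2 j d) := by
  have e2 : X2 j - X2 (j + d) = -∑ a ∈ range d, cc (j + a) * (1 / 16) ^ (j + a) * (((j + a : ℕ) : ℝ) + 1) ^ 2 := by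
    rw [X2_add]; ring
  have e1 : X1 j - X1 (j + d) = -∑ a ∈ range d, cc (j + a) * (1 / 16) ^ (j + a) * (((j + a : ℕ) : ℝ) + 1) := by
    rw [X1_add]; ring
  have e0 : X0 j - X0 (j + d) = -∑ a ∈ range d, cc (j + a) * (1 / 16) ^ (j + a) := by
    rw [X0_add]; ring
  have e3 : (16:ℝ) ^ (j + d) * ((X2 j - X2 (j + d))
    - (2 * ((j + d : ℕ) : ℝ) + 1) * (X1 j - X1 (j + d))
    + (((j + d : ℕ) : ℝ) * (((j + d : ℕ) : ℝ) + 1)) * (X0 j - X0 (j + d)))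
    = -((16:ℝ) ^ (j + d) * (∑ a ∈ range d, cc (j + a) * (1 / 16) ^ (j + a) * (((j + a : ℕ) : ℝ) + 1) ^ 2
      - (2 * ((j + d : ℕ) : ℝ) + 1) * ∑ a ∈ range d, cc (j + a) * (1 / 16) ^ (j + a) * (((j + a : ℕ) : ℝ) + 1)
      + (((j + d : ℕ) : ℝ) * (((j + d : ℕ) : ℝ) + 1)) * ∑ a ∈ range d, cc (j + a) * (1 / 16) ^ (j + a))) := by
    rw [e2, e1, e0]; ring
  rw [e3, T2, Finset.mul_sum, Finset.mul_sum, ← Finset.sum_sub_distrib, ← Finset.sum_add_distrib,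
    Finset.mul_sum, Finset.mul_sum]
  congr 1
  apply Finset.sum_congr rfl
  intro a _
  have h := pow16 j
  rw [pow_add, pow_add]
  push_cast
  linear_combination ((16 ^ d) * (cc (j + a) * (1 / 16) ^ a * ((a : ℝ) + 1 - d) * ((a : ℝ) - d))) * h

theorem pow16c (i : ℕ) : (16:ℂ) ^ i * (1 / 16) ^ i = 1 := by
  rw [← mul_pow]; norm_num

/-- discs after the `i`-th one -/
theorem aff_fwd (i k : ℕ) (lam t : ℂ) : aff i (pt (i + k) lam t) =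
    ((S1 i k : ℂ) + (1 / 16) ^ k * ((k : ℂ) + 1) * lam,
      (S2 i k : ℂ) + (1 / 16) ^ k * ((k : ℂ) + 1) * k * lam) := by
  have h := pow16c i
  apply Prod.ext
  · rw [aff_fst, pt_0, pt_1, ← fwd1 i k]
    push_cast
    rw [pow_add]
    linear_combination ((1 / 16) ^ k * ((k : ℂ) + 1) * lam) * h
  · rw [aff_snd, pt_0, pt_1, pt_2, ← fwd2 i k]
    push_cast
    rw [pow_add]
    linear_combination ((1 / 16) ^ k * ((k : ℂ) + 1) * k * lam) * h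

/-- discs before the `i`-th one, `i = j + d` -/
theorem aff_bwd (j d : ℕ) (lam t : ℂ) : aff (j + d) (pt j lam t) =
    (-(16 ^ d * (T1 j d : ℂ)) + 16 ^ d * (1 - (d : ℂ)) * lam,
      -(16 ^ d * (T2 j d : ℂ)) + 16 ^ d * (1 - (d : ℂ)) * (-(d : ℂ)) * lam) := by
  have h := pow16c j
  have b1 : (16:ℂ) ^ (j + d) * (((X1 j : ℂ) - (X1 (j + d) : ℂ)) - ((j + d : ℕ) : ℂ) * ((X0 j : ℂ) - (X0 (j + d) : ℂ)))
    = -(16 ^ d * (T1 j d : ℂ)) := by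
    have := congrArg (fun x : ℝ => (x : ℂ)) (bwd1 j d)
    push_cast at this ⊢
    exact this
  have b2 : (16:ℂ) ^ (j + d) * (((X2 j : ℂ) - (X2 (j + d) : ℂ))
    - (2 * ((j + d : ℕ) : ℂ) + 1) * ((X1 j : ℂ) - (X1 (j + d) : ℂ))
    + (((j + d : ℕ) : ℂ) * (((j + d : ℕ) : ℂ) + 1)) * ((X0 j : ℂ) - (X0 (j + d) : ℂ)))
     = -(16 ^ d * (T2 j d : ℂ)) := by
    have := congrArg (fun x : ℝ => (x : ℂ)) (bwd2 j d)
    push_cast at this ⊢
    exact this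
  apply Prod.ext
  · rw [aff_fst, pt_0, pt_1, ← b1, pow_add]
    push_cast
    linear_combination (16 ^ d * (1 - (d : ℂ)) * lam) * h
  · rw [aff_snd, pt_0, pt_1, pt_2, ← b2, pow_add]
    push_cast
    linear_combination (16 ^ d * (1 - (d : ℂ)) * (-(d : ℂ)) * lam) * h

end Pool.Agent.TH234.Kc
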