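import Pool.Agent.TH234.Kc.Geo1

set_option autoImplicit false

/-!
Values of the building blocks on the discs.
-/

namespace Pool.Agent.TH234.Kc

open Filter Topology Finset

/-! ### elementary inequalities -/

theorem el1 (a : ℕ) : (1 / 16 : ℝ) ^ a * ((a : ℝ) + 1) ≤ (1 / 8) ^ a := by
  have h : a < 2 ^ a := Nat.lt_two_pow_self
  have h2 : a + 1 ≤ 2 ^ a := h
  have h3 : ((a : ℝ) + 1) ≤ 2 ^ a := by exact_mod_cast h2
  have e : (1 / 8 : ℝ) ^ a = (1 / 16) ^ a * 2 ^ a := by rw [← mul_pow]; norm_num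
  rw [e]
  exact mul_le_mul_of_nonneg_left h3 (by positivity)

theorem nat_aux (a : ℕ) : (a + 1) * a ≤ 2 * 2 ^ a := by
  induction a with
  | zero => norm_num
  | succ a ih =>
    rcases Nat.lt_or_ge a 2 with h | h
    · interval_cases a <;> norm_num
    · calc (a + 1 + 1) * (a + 1) ≤ 2 * ((a + 1) * a) := by nlinarith
        _ ≤ 2 * (2 * 2 ^ a) := Nat.mul_le_mul_left _ ih
        _ = 2 * 2 ^ (a + 1) := by ring

theorem el2 (a : ℕ) : (1 / 16 : ℝ) ^ a * ((a : ℝ) + 1) * a ≤ 2 * (1 / 8) ^ a := by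
  have h3 : ((a : ℝ) + 1) * a ≤ 2 * 2 ^ a := by exact_mod_cast nat_aux a
  have e : (1 / 8 : ℝ) ^ a = (1 / 16) ^ a * 2 ^ a := by rw [← mul_pow]; norm_num
  rw [e, mul_assoc]
  calc (1 / 16 : ℝ) ^ a * (((a : ℝ) + 1) * a) ≤ (1 / 16 : ℝ) ^ a * (2 * 2 ^ a) :=
        mul_le_mul_of_nonneg_left h3 (by positivity)
    _ = _ := by ring

theorem geo8 (k : ℕ) : ∑ a ∈ range k, (1 / 8 : ℝ) ^ a ≤ 8 / 7 := by
  have h : ∑ l ∈ range k, (1 / 8 : ℝ) ^ l = (1 - (1 / 8) ^ k) * (8 / 7) := by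
    induction k with
    | zero => simp
    | succ j ih => rw [Finset.sum_range_succ, ih]; ring
  rw [h]
  have : (0:ℝ) ≤ (1 / 8) ^ k := by positivity
  linarith

theorem pow8_le (k : ℕ) : (1 / 8 : ℝ) ^ k ≤ 1 := pow_le_one₀ (by norm_num) (by norm_num)

theorem S1_bound (i k : ℕ) : 0 ≤ S1 i k ∧ S1 i k ≤ 1 / 2 := by
  constructor
  · exact Finset.sum_nonneg fun a _ => by have := cc_pos (i + a); positivity
  · unfold S1
    have h : ∀ a ∈ range k, cc (i + a) * (1 / 16) ^ a * ((a : ℝ) + 1) ≤ 1 / 4 * (1 / 8) ^ a := by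
      intro a _
      rw [mul_assoc]
      exact mul_le_mul (cc_le _) (el1 a) (by positivity) (by norm_num)
    refine (Finset.sum_le_sum h).trans ?_
    rw [← Finset.mul_sum]
    have := geo8 k
    linarith

theorem S2_bound (i k : ℕ) : 0 ≤ S2 i k ∧ S2 i k ≤ 1 := by
  constructor
  · exact Finset.sum_nonneg fun a _ => by have := cc_pos (i + a); positivity
  · unfold S2
    have h : ∀ a ∈ range k, cc (i + a) * (1 / 16) ^ a * ((a : ℝ) + 1) * a ≤ 1 / 4 * (2 * (1 / 8) ^ a) := by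
      intro a _
      have e : cc (i + a) * (1 / 16) ^ a * ((a : ℝ) + 1) * a = cc (i + a) * ((1 / 16) ^ a * ((a : ℝ) + 1) * a) := by
        ring
      rw [e]
      exact mul_le_mul (cc_le _) (el2 a) (by positivity) (by norm_num)
    refine (Finset.sum_le_sum h).trans ?_
    rw [← Finset.mul_sum, ← Finset.mul_sum]
    have := geo8 k
    linarith

/-- on the later discs the affine coordinates are bounded -/
theorem fwd_norm (i k : ℕ) (lam t : ℂ) (hl : ‖lam‖ ≤ 1) :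
    ‖(aff i (pt (i + k) lam t)).1‖ ≤ 2 ∧ ‖(aff i (pt (i + k) lam t)).2‖ ≤ 3 := by
  rw [aff_fwd]
  have hk : ‖((k : ℂ) + 1)‖ = (k : ℝ) + 1 := by
    have : ((k : ℂ) + 1) = ((k + 1 : ℕ) : ℂ) := by push_cast; ring
    rw [this, Complex.norm_natCast]; push_cast; ring
  have h16 : ‖((1 / 16 : ℂ)) ^ k‖ = (1 / 16 : ℝ) ^ k := by rw [norm_pow]; norm_num
  obtain ⟨a0, a1⟩ := S1_bound i k
  obtain ⟨b0, b1⟩ := S2_bound i k
  constructor
  · refine (norm_add_le _ _).trans ?_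
    rw [Complex.norm_real, Real.norm_of_nonneg a0, norm_mul, norm_mul, hk, h16]
    have h1 := (el1 k).trans (pow8_le k)
    have h2 : (1 / 16 : ℝ) ^ k * ((k : ℝ) + 1) * ‖lam‖ ≤ 1 * 1 :=
      mul_le_mul h1 hl (norm_nonneg _) (by norm_num)
    linarith
  · refine (norm_add_le _ _).trans ?_
    rw [Complex.norm_real, Real.norm_of_nonneg b0, norm_mul, norm_mul, norm_mul, hk, h16,
      Complex.norm_natCast]
    have h1 := el2 k
    have h0 := pow8_le k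
    have h2 : (1 / 16 : ℝ) ^ k * ((k : ℝ) + 1) * k * ‖lam‖ ≤ 2 * 1 :=
      mul_le_mul (by linarith) hl (norm_nonneg _) (by norm_num)
    linarith

theorem nsq_of (z : ℂ × ℂ) (a b : ℝ) (h1 : ‖z.1‖ ≤ a) (h2 : ‖z.2‖ ≤ b) : nsq z ≤ a ^ 2 + b ^ 2 := by
  rw [nsq_eq]
  have := pow_le_pow_left₀ (norm_nonneg _) h1 2
  have := pow_le_pow_left₀ (norm_nonneg _) h2 2
  linarith

/-! ### the factors on the later discs -/

theorem fac_lin (i b k : ℕ) (lam t : ℂ) :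
    (b : ℂ) * (aff i (pt (i + k) lam t)).1 - (aff i (pt (i + k) lam t)).2 =
      ((∑ a ∈ range k, cc (i + a) * (1 / 16) ^ a * ((a : ℝ) + 1) * ((b : ℝ) - a) : ℝ) : ℂ)
        + (1 / 16) ^ k * ((k : ℂ) + 1) * ((b : ℂ) - k) * lam := by
  rw [aff_fwd]
  have e : ∑ a ∈ range k, cc (i + a) * (1 / 16) ^ a * ((a : ℝ) + 1) * ((b : ℝ) - a) =
      b * S1 i k - S2 i k := by
    unfold S1 S2
    rw [Finset.mul_sum, ← Finset.sum_sub_distrib]
    apply Finset.sum_congr rfl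
    intro a _
    ring
  rw [e]
  push_cast
  ring

theorem fac_zero (i b : ℕ) (hb : 1 ≤ b) (lam t : ℂ) : fac i b (aff i (pt (i + b) lam t)) = 0 := by
  unfold fac
  rw [fac_lin]
  have hP := PP_pos i b hb
  have e : ∑ a ∈ range b, cc (i + a) * (1 / 16) ^ a * ((a : ℝ) + 1) * ((b : ℝ) - a) = PP i b := rfl
  rw [e, sub_self, mul_zero, zero_mul, add_zero, div_self, sub_self]
  exact_mod_cast hP.ne'

theorem tail_sum (i b m : ℕ) (hb : 1 ≤ b) :
    |PP i b - ∑ a ∈ range (b + m), cc (i + a) * (1 / 16) ^ a * ((a : ℝ) + 1) * ((b : ℝ) - a)|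
      ≤ 2 / 7 * cc i := by
  rw [Finset.sum_range_add]
  have e : PP i b - (∑ a ∈ range b, cc (i + a) * (1 / 16) ^ a * ((a : ℝ) + 1) * ((b : ℝ) - a) +
      ∑ x ∈ range m, cc (i + (b + x)) * (1 / 16) ^ (b + x) * (((b + x : ℕ) : ℝ) + 1) * ((b : ℝ) - ((b + x : ℕ) : ℝ)))
      = ∑ x ∈ range m, cc (i + (b + x)) * (1 / 16) ^ (b + x) * (((b + x : ℕ) : ℝ) + 1) * x := by
    have e2 : PP i b = ∑ a ∈ range b, cc (i + a) * (1 / 16) ^ a * ((a : ℝ) + 1) * ((b : ℝ) - a) := rfl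
    rw [← e2, sub_add_cancel_left, ← Finset.sum_neg_distrib]
    apply Finset.sum_congr rfl
    intro a _
    push_cast
    ring
  rw [e]
  have hnn : 0 ≤ ∑ x ∈ range m, cc (i + (b + x)) * (1 / 16) ^ (b + x) * (((b + x : ℕ) : ℝ) + 1) * x :=
    Finset.sum_nonneg fun a _ => by have := cc_pos (i + (b + a)); positivity
  rw [abs_of_nonneg hnn]
  have h : ∀ x ∈ range m, cc (i + (b + x)) * (1 / 16) ^ (b + x) * (((b + x : ℕ) : ℝ) + 1) * x
      ≤ cc i * (1 / 4 * (1 / 8) ^ x) := by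
    intro x _
    have h1 := el2 (b + x)
    have h2 : cc (i + (b + x)) ≤ cc i := cc_anti (by omega)
    have h3 : (x : ℝ) ≤ ((b + x : ℕ) : ℝ) := by exact_mod_cast (by omega : x ≤ b + x)
    have h4 : (1 / 16 : ℝ) ^ (b + x) * (((b + x : ℕ) : ℝ) + 1) * x ≤ 2 * (1 / 8) ^ (b + x) :=
      (mul_le_mul_of_nonneg_left h3 (by positivity)).trans h1
    have h5 : (1 / 8 : ℝ) ^ (b + x) ≤ 1 / 8 * (1 / 8) ^ x := by
      rw [pow_add]
      apply mul_le_mul_of_nonneg_right _ (by positivity)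
      calc (1 / 8 : ℝ) ^ b ≤ (1 / 8) ^ 1 := pow_le_pow_of_le_one (by norm_num) (by norm_num) hb
        _ = 1 / 8 := pow_one _
    have e3 : cc (i + (b + x)) * (1 / 16) ^ (b + x) * (((b + x : ℕ) : ℝ) + 1) * x
      = cc (i + (b + x)) * ((1 / 16 : ℝ) ^ (b + x) * (((b + x : ℕ) : ℝ) + 1) * x) := by ring
    rw [e3]
    refine mul_le_mul h2 (by linarith) (by positivity) (cc_pos i).le
  refine (Finset.sum_le_sum h).trans ?_
  rw [← Finset.mul_sum, ← Finset.mul_sum]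
  have h1 := geo8 m
  have h2 := cc_pos i
  nlinarith

theorem small8 (i k : ℕ) (hk : AA i < k) : 2 * (1 / 8 : ℝ) ^ k ≤ 1 / 8 * cc i := by
  have h1 : (1 / 8 : ℝ) ^ k ≤ (1 / 8) ^ (AA i + 1) :=
    pow_le_pow_of_le_one (by norm_num) (by norm_num) hk
  have hn := nn_pos i
  have h2 := AA_lt i
  have h3 : nn i ^ 2 ≤ 4 ^ (AA i) := by
    have := pow_le_pow_left₀ hn.le h2.le 2
    rw [← pow_mul, mul_comm, pow_mul] at this
    norm_num at this
    exact this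
  have h4 : (1 / 4 : ℝ) ^ (AA i) ≤ cc i := by
    unfold cc
    rw [one_div, inv_pow, ← one_div]
    exact one_div_le_one_div_of_le (by positivity) h3
  have h5 : (1 / 8 : ℝ) ^ (AA i) ≤ 1 / 2 * (1 / 4) ^ (AA i) := by
    have e : (1 / 8 : ℝ) ^ (AA i) = (1 / 2) ^ (AA i) * (1 / 4) ^ (AA i) := by
      rw [← mul_pow]; norm_num
    rw [e]
    apply mul_le_mul_of_nonneg_right _ (by positivity)
    have hA : 1 ≤ AA i := by
      have := AA_ge i
      have h6 : (1:ℝ) ≤ AA i := by linarith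
      exact_mod_cast h6
    calc (1 / 2 : ℝ) ^ (AA i) ≤ (1 / 2) ^ 1 := pow_le_pow_of_le_one (by norm_num) (by norm_num) hA
      _ = 1 / 2 := pow_one _
  rw [pow_succ] at h1
  linarith

theorem fac_small (i b k : ℕ) (hb : 1 ≤ b) (hbA : b ≤ AA i) (hk : AA i < k) (lam t : ℂ)
    (hl : ‖lam‖ ≤ 1) : ‖fac i b (aff i (pt (i + k) lam t))‖ ≤ 1 / 2 := by
  obtain ⟨m, rfl⟩ : ∃ m, k = b + m := ⟨k - b, by omega⟩
  have hP := PP_pos i b hb
  have hPc := PP_ge i b hb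
  have hc := cc_pos i
  have hb1 : (1:ℝ) ≤ b := by exact_mod_cast hb
  have hPc' : cc i ≤ PP i b := by nlinarith
  unfold fac
  rw [fac_lin]
  obtain ⟨R, hR⟩ : ∃ R : ℝ, R = ∑ a ∈ range (b + m), cc (i + a) * (1 / 16) ^ a * ((a : ℝ) + 1) * ((b : ℝ) - a) :=
    ⟨_, rfl⟩
  have hts := tail_sum i b m hb
  rw [← hR] at hts ⊢
  have hPne : (PP i b : ℂ) ≠ 0 := by exact_mod_cast hP.ne'
  have e : 1 - ((R : ℂ) + (1 / 16) ^ (b + m) * (((b + m : ℕ) : ℂ) + 1) * ((b : ℂ) - ((b + m : ℕ) : ℂ)) * lam) / (PP i b : ℂ)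
      = (((PP i b - R : ℝ) : ℂ) + (1 / 16) ^ (b + m) * (((b + m : ℕ) : ℂ) + 1) * (m : ℂ) * lam) / (PP i b : ℂ) := by
    push_cast
    field_simp
    ring
  rw [e, norm_div, Complex.norm_real, Real.norm_of_nonneg hP.le, div_le_iff₀ hP]
  refine (norm_add_le _ _).trans ?_
  rw [Complex.norm_real, Real.norm_eq_abs]
  have h2 : ‖(1 / 16 : ℂ) ^ (b + m) * (((b + m : ℕ) : ℂ) + 1) * (m : ℂ) * lam‖ ≤ 1 / 8 * cc i := by
    have hk1 : ‖(((b + m : ℕ) : ℂ) + 1)‖ = ((b + m : ℕ) : ℝ) + 1 := by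
      have : (((b + m : ℕ) : ℂ) + 1) = ((b + m + 1 : ℕ) : ℂ) := by push_cast; ring
      rw [this, Complex.norm_natCast]; push_cast; ring
    have h16 : ‖((1 / 16 : ℂ)) ^ (b + m)‖ = (1 / 16 : ℝ) ^ (b + m) := by rw [norm_pow]; norm_num
    rw [norm_mul, norm_mul, norm_mul, hk1, h16, Complex.norm_natCast]
    have h3 := el2 (b + m)
    have h4 : (m : ℝ) ≤ ((b + m : ℕ) : ℝ) := by exact_mod_cast (by omega : m ≤ b + m)
    have h5 : (1 / 16 : ℝ) ^ (b + m) * (((b + m : ℕ) : ℝ) + 1) * m ≤ 2 * (1 / 8) ^ (b + m) :=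
      (mul_le_mul_of_nonneg_left h4 (by positivity)).trans h3
    have h6 := small8 i (b + m) hk
    calc (1 / 16 : ℝ) ^ (b + m) * (((b + m : ℕ) : ℝ) + 1) * m * ‖lam‖
        ≤ (1 / 16 : ℝ) ^ (b + m) * (((b + m : ℕ) : ℝ) + 1) * m * 1 :=
          mul_le_mul_of_nonneg_left hl (by positivity)
      _ ≤ _ := by linarith
  linarith

theorem Qf_zero (i k : ℕ) (hk : 1 ≤ k) (hkA : k ≤ AA i) (lam t : ℂ) :
    Qf i (aff i (pt (i + k) lam t)) = 0 := by
  unfold Qf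
  apply Finset.prod_eq_zero (i := k - 1) (Finset.mem_range.2 (by omega))
  have : k - 1 + 1 = k := by omega
  rw [this]
  exact fac_zero i k hk lam t

theorem AA_one_le (i : ℕ) : 1 ≤ AA i := by
  have := AA_ge i
  have h6 : (1:ℝ) ≤ AA i := by linarith
  exact_mod_cast h6

theorem Qf_small (i k : ℕ) (hk : 1 ≤ k) (lam t : ℂ) (hl : ‖lam‖ ≤ 1) :
    ‖Qf i (aff i (pt (i + k) lam t))‖ ≤ 1 / 2 := by
  rcases Nat.lt_or_ge (AA i) k with h | h
  · unfold Qf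
    rw [norm_prod]
    have h1 : ∏ b ∈ range (AA i), ‖fac i (b + 1) (aff i (pt (i + k) lam t))‖ ≤ ∏ _b ∈ range (AA i), (1 / 2 : ℝ) := by
      apply Finset.prod_le_prod (fun _ _ => norm_nonneg _)
      intro b hb
      have hb' := Finset.mem_range.1 hb
      exact fac_small i (b + 1) k (by omega) (by omega) h lam t hl
    refine h1.trans ?_
    rw [Finset.prod_const, Finset.card_range]
    calc (1 / 2 : ℝ) ^ (AA i) ≤ (1 / 2) ^ 1 := pow_le_pow_of_le_one (by norm_num) (by norm_num) (AA_one_le i)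
      _ = 1 / 2 := pow_one _
  · rw [Qf_zero i k hk h]
    simp

end Pool.Agent.TH234.Kc
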