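import Pool.Agent.TH234.Kc.Geo2

set_option autoImplicit false

/-!
Values and upper bounds of the building blocks on the discs.
-/

namespace Pool.Agent.TH234.Kc

open Filter Topology Finset

/-- general upper bound of the smoothed maximum -/
theorem smax_upper (φ : ℝ → ℝ) (hφ : IsPhi φ) (M B K : ℝ) (hM : 0 ≤ M) (hB : 0 ≤ B) (hK : 1 ≤ K)
    (F : ℂ) (hF : ‖F‖ ≤ K) :
    B - M + φ (Real.exp (2 * (M - B)) * ‖F‖ ^ 2) ≤ B + Real.log K := by
  have hK0 : 0 < K := by linarith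
  have h1 : Real.exp (2 * (M - B)) * ‖F‖ ^ 2 ≤ Real.exp (2 * M) * K ^ 2 := by
    apply mul_le_mul _ (pow_le_pow_left₀ (norm_nonneg _) hF 2) (by positivity) (Real.exp_pos _).le
    apply Real.exp_le_exp.2
    linarith
  have h2 := hφ.mono h1
  have h3 : 1 ≤ Real.exp (2 * M) * K ^ 2 := by
    have a1 : 1 ≤ Real.exp (2 * M) := Real.one_le_exp (by linarith)
    have a2 : 1 ≤ K ^ 2 := one_le_pow₀ hK
    nlinarith
  rw [hφ.eq_log _ h3, Real.log_mul (Real.exp_pos _).ne' (by positivity), Real.log_exp,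
    Real.log_pow] at h2
  push_cast at h2
  linarith

/-- where `F` is not small the smoothed maximum equals `log |F|` -/
theorem smax_eq (φ : ℝ → ℝ) (hφ : IsPhi φ) (M B : ℝ) (hMB : B + 1 ≤ M)
    (F : ℂ) (hF : 1 / 2 ≤ ‖F‖) :
    B - M + φ (Real.exp (2 * (M - B)) * ‖F‖ ^ 2) = Real.log ‖F‖ := by
  have hF0 : 0 < ‖F‖ := by linarith
  have h3 : 1 ≤ Real.exp (2 * (M - B)) * ‖F‖ ^ 2 := by
    have a1 : 4 ≤ Real.exp (2 * (M - B)) := by
      have b1 : Real.exp 2 ≤ Real.exp (2 * (M - B)) := Real.exp_le_exp.2 (by linarith)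
      have b2 : (4:ℝ) ≤ Real.exp 2 := by
        have e : Real.exp 2 = Real.exp 1 * Real.exp 1 := by rw [← Real.exp_add]; norm_num
        have c := Real.add_one_le_exp (1:ℝ)
        rw [e]
        nlinarith
      linarith
    have a2 : 1 / 4 ≤ ‖F‖ ^ 2 := by nlinarith
    nlinarith
  rw [hφ.eq_log _ h3, Real.log_mul (Real.exp_pos _).ne' (by positivity), Real.log_exp,
    Real.log_pow]
  push_cast
  ring

/-- bound for the holomorphic function -/
theorem Ff_upper (i : ℕ) (z : ℂ × ℂ) (s : ℝ) (hs : ‖z.1‖ + ‖z.2‖ ≤ s) :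
    ‖Ff i z‖ ≤ 2 * (1 + s * nn i ^ 2) ^ (AA i) := by
  have hs0 : 0 ≤ s := le_trans (by positivity) hs
  have hn := nn_pos i
  have hbase : 1 ≤ 1 + s * nn i ^ 2 := by
    have : 0 ≤ s * nn i ^ 2 := by positivity
    linarith
  have hfac : ∀ b, 1 ≤ b → ‖fac i b z‖ ≤ 1 + s * nn i ^ 2 := by
    intro b hb
    have hP := PP_pos i b hb
    unfold fac
    refine (norm_sub_le _ _).trans ?_
    rw [norm_one, norm_div, Complex.norm_real, Real.norm_of_nonneg hP.le]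
    have hb1 : (1:ℝ) ≤ b := by exact_mod_cast hb
    have h1 : ‖(b : ℂ) * z.1 - z.2‖ ≤ b * s := by
      refine (norm_sub_le _ _).trans ?_
      rw [norm_mul, Complex.norm_natCast]
      have : ‖z.2‖ ≤ b * ‖z.2‖ := le_mul_of_one_le_left (norm_nonneg _) hb1
      nlinarith
    have h2 : ‖(b : ℂ) * z.1 - z.2‖ / PP i b ≤ b * s / PP i b := div_le_div_of_nonneg_right h1 hP.le
    have h3 : (b : ℝ) * s / PP i b = s * ((b : ℝ) / PP i b) := by ring
    have h4 := mul_le_mul_of_nonneg_left (div_PP_le i b hb) hs0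
    linarith
  have hQ : ‖Qf i z‖ ≤ (1 + s * nn i ^ 2) ^ (AA i) := by
    unfold Qf
    rw [norm_prod]
    have h1 : ∏ b ∈ range (AA i), ‖fac i (b + 1) z‖ ≤ ∏ _b ∈ range (AA i), (1 + s * nn i ^ 2) :=
      Finset.prod_le_prod (fun _ _ => norm_nonneg _) (fun b _ => hfac (b + 1) (by omega))
    rwa [Finset.prod_const, Finset.card_range] at h1
  unfold Ff
  refine (norm_sub_le _ _).trans ?_
  rw [norm_one]
  have : 1 ≤ (1 + s * nn i ^ 2) ^ (AA i) := one_le_pow₀ hbase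
  linarith

/-- general upper bound of the building blocks -/
theorem VV_upper (φ : ℝ → ℝ) (hφ : IsPhi φ) (i : ℕ) (z : ℂ × ℂ) (s L : ℝ) (hs : ‖z.1‖ + ‖z.2‖ ≤ s)
    (hL : Real.log (1 + s * nn i ^ 2) ≤ L) :
    VV φ i z ≤ AA i * nsq z + 1 + AA i * L := by
  have hs0 : 0 ≤ s := le_trans (by positivity) hs
  have hn := nn_pos i
  have hbase : 1 ≤ 1 + s * nn i ^ 2 := by
    have : 0 ≤ s * nn i ^ 2 := by positivity
    linarith
  have hK : 1 ≤ 2 * (1 + s * nn i ^ 2) ^ (AA i) := by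
    have : 1 ≤ (1 + s * nn i ^ 2) ^ (AA i) := one_le_pow₀ hbase
    linarith
  have h := smax_upper φ hφ (nn i) ((AA i : ℝ) * nsq z) _ hn.le
    (mul_nonneg (by positivity) (nsq_nonneg z)) hK (Ff i z) (Ff_upper i z s hs)
  have h2 : Real.log (2 * (1 + s * nn i ^ 2) ^ (AA i)) ≤ 1 + AA i * L := by
    rw [Real.log_mul (by norm_num) (by positivity), Real.log_pow]
    have h3 : Real.log 2 ≤ 1 := by
      have := Real.log_two_lt_d9
      linarith
    have h4 : (AA i : ℝ) * Real.log (1 + s * nn i ^ 2) ≤ AA i * L :=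
      mul_le_mul_of_nonneg_left hL (by positivity)
    linarith
  unfold VV smax
  linarith

theorem AA13 (i : ℕ) : (AA i : ℝ) * 13 + 1 ≤ nn i := by
  have h1 := AA_pow i
  have h2 := AA_ge i
  have h3 : (AA i : ℝ) ≤ (AA i : ℝ) ^ 4 := le_self_pow₀ (by linarith) (by norm_num)
  linarith

/-- (I), (II): on the later discs the building block is the logarithm of the modulus of `1 - Q` -/
theorem vv_fwd (φ : ℝ → ℝ) (hφ : IsPhi φ) (i k : ℕ) (hk : 1 ≤ k) (lam t : ℂ) (hl : ‖lam‖ ≤ 1) :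
    vv φ i (pt (i + k) lam t) = Real.log ‖1 - Qf i (aff i (pt (i + k) lam t))‖ := by
  obtain ⟨h1, h2⟩ := fwd_norm i k lam t hl
  have h3 := nsq_of _ _ _ h1 h2
  have hQ := Qf_small i k hk lam t hl
  have hA := AA13 i
  have hA0 : (0:ℝ) ≤ AA i := by positivity
  have hF : 1 / 2 ≤ ‖1 - Qf i (aff i (pt (i + k) lam t))‖ := by
    have := norm_sub_norm_le (1:ℂ) (Qf i (aff i (pt (i + k) lam t)))
    rw [norm_one] at this
    linarith
  unfold vv VV smax Ff
  apply smax_eq φ hφ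
  · nlinarith
  · exact hF

theorem log_small (i : ℕ) : Real.log (1 + 1 * nn i ^ 2) ≤ 1 + 2 * AA i := by
  have hn := nn_pos i
  have h1 : 1 + 1 * nn i ^ 2 ≤ 2 * nn i ^ 2 := by
    have := nn_sq_ge i
    linarith
  have h2 := Real.log_le_log (by positivity) h1
  rw [Real.log_mul (by norm_num) (by positivity), Real.log_pow] at h2
  have h3 : Real.log 2 ≤ 1 := by
    have := Real.log_two_lt_d9
    linarith
  have h4 := log_nn_le i
  push_cast at h2
  linarith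

/-- (III): on the `i`-th disc -/
theorem vv_zero (φ : ℝ → ℝ) (hφ : IsPhi φ) (i : ℕ) (lam t : ℂ) (hl : ‖lam‖ ≤ 1) :
    vv φ i (pt i lam t) ≤ 4 * (AA i : ℝ) ^ 2 := by
  have e : aff i (pt i lam t) = (lam, 0) := by
    have := aff_fwd i 0 lam t
    rw [add_zero] at this
    rw [this]
    simp [S1, S2]
  unfold vv
  rw [e]
  have h := VV_upper φ hφ i (lam, 0) 1 (1 + 2 * AA i) (by simpa using hl) (log_small i)
  have h2 : nsq (lam, 0) ≤ 1 := by
    have := nsq_of (lam, 0) 1 0 hl (by simp)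
    linarith
  have h3 := AA_ge i
  nlinarith

/-- (IV): on the `(i-1)`-st disc -/
theorem vv_one (φ : ℝ → ℝ) (hφ : IsPhi φ) (j : ℕ) (lam t : ℂ) :
    vv φ (j + 1) (pt j lam t) ≤ - nn (j + 1) := by
  have e : aff (j + 1) (pt j lam t) = (0, 0) := by
    rw [aff_bwd]
    simp [T1, T2]
  have hQ : Ff (j + 1) (0, 0) = 0 := by
    unfold Ff Qf fac
    simp
  unfold vv VV smax
  rw [e, hQ]
  have h2 : nsq (0, 0) = 0 := by unfold nsq; simp
  beta_reduce
  rw [h2, norm_zero]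
  have := hφ.le0
  simp only [mul_zero, ne_eq, OfNat.ofNat_ne_zero, not_false_eq_true, zero_pow]
  linarith

/-! ### the earlier discs -/

theorem T_bound (j d : ℕ) (hd : 1 ≤ d) : |T1 j d| ≤ d / 2 ∧ |T2 j d| ≤ (d * (d - 1) : ℝ) / 2 := by
  have hd1 : (1:ℝ) ≤ d := by exact_mod_cast hd
  have hsum : ∑ a ∈ range d, cc (j + a) * (1 / 16) ^ a ≤ 1 / 2 := by
    have h : ∀ a ∈ range d, cc (j + a) * (1 / 16) ^ a ≤ 1 / 4 * (1 / 8) ^ a := by
      intro a _
      exact mul_le_mul (cc_le _) (pow_le_pow_left₀ (by norm_num) (by norm_num) a) (by positivity)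
        (by norm_num)
    refine (Finset.sum_le_sum h).trans ?_
    rw [← Finset.mul_sum]
    have := geo8 d
    linarith
  constructor
  · unfold T1
    refine (Finset.abs_sum_le_sum_abs _ _).trans ?_
    have h : ∀ a ∈ range d, |cc (j + a) * (1 / 16) ^ a * ((a : ℝ) + 1 - d)| ≤ cc (j + a) * (1 / 16) ^ a * d := by
      intro a ha
      have ha' : (a : ℝ) + 1 ≤ d := by exact_mod_cast Finset.mem_range.1 ha
      have ha0 : (0:ℝ) ≤ a := by positivity
      have hc := cc_pos (j + a)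
      rw [abs_mul, abs_of_nonneg (by positivity : 0 ≤ cc (j + a) * (1 / 16) ^ a)]
      apply mul_le_mul_of_nonneg_left _ (by positivity)
      rw [abs_le]; constructor <;> linarith
    refine (Finset.sum_le_sum h).trans ?_
    rw [← Finset.sum_mul]
    nlinarith
  · unfold T2
    refine (Finset.abs_sum_le_sum_abs _ _).trans ?_
    have h : ∀ a ∈ range d, |cc (j + a) * (1 / 16) ^ a * ((a : ℝ) + 1 - d) * ((a : ℝ) - d)|
        ≤ cc (j + a) * (1 / 16) ^ a * (d * (d - 1)) := by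
      intro a ha
      have ha' : (a : ℝ) + 1 ≤ d := by exact_mod_cast Finset.mem_range.1 ha
      have ha0 : (0:ℝ) ≤ a := by positivity
      have hc := cc_pos (j + a)
      rw [mul_assoc, abs_mul, abs_of_nonneg (by positivity : 0 ≤ cc (j + a) * (1 / 16) ^ a)]
      apply mul_le_mul_of_nonneg_left _ (by positivity)
      rw [abs_mul, mul_comm]
      apply mul_le_mul _ _ (abs_nonneg _) (by positivity)
      · rw [abs_le]; constructor <;> linarith
      · rw [abs_le]; constructor <;> linarith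
    refine (Finset.sum_le_sum h).trans ?_
    rw [← Finset.sum_mul]
    have : 0 ≤ (d : ℝ) * (d - 1) := mul_nonneg (by linarith) (by linarith)
    nlinarith

theorem bwd_norm (j d : ℕ) (hd : 1 ≤ d) (lam t : ℂ) (hl : ‖lam‖ ≤ 1) :
    ‖(aff (j + d) (pt j lam t)).1‖ ≤ 2 * 32 ^ d ∧ ‖(aff (j + d) (pt j lam t)).2‖ ≤ 2 * 32 ^ d := by
  rw [aff_bwd]
  obtain ⟨h1, h2⟩ := T_bound j d hd
  have hd1 : (1:ℝ) ≤ d := by exact_mod_cast hd
  have h16 : ‖((16 : ℂ)) ^ d‖ = (16 : ℝ) ^ d := by rw [norm_pow]; norm_num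
  have e1 : ‖(1 - (d : ℂ))‖ = (d : ℝ) - 1 := by
    have : (1 - (d : ℂ)) = ((1 - (d : ℝ) : ℝ) : ℂ) := by push_cast; ring
    rw [this, Complex.norm_real, Real.norm_eq_abs, abs_of_nonpos (by linarith)]
    ring
  have e2 : ‖(-(d : ℂ))‖ = (d : ℝ) := by rw [norm_neg, Complex.norm_natCast]
  have h32 : (32:ℝ) ^ d = 16 ^ d * 2 ^ d := by rw [← mul_pow]; norm_num
  have hp : (d : ℝ) ≤ 2 ^ d := by
    have : d < 2 ^ d := Nat.lt_two_pow_self
    exact_mod_cast this.le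
  have hp2 : (d : ℝ) * (d - 1) ≤ 2 ^ d := by
    obtain ⟨m, rfl⟩ : ∃ m, d = m + 1 := ⟨d - 1, by omega⟩
    have := nat_aux m
    have h : (((m + 1 : ℕ) : ℝ)) * (((m + 1 : ℕ) : ℝ) - 1) = (((m + 1) * m : ℕ) : ℝ) := by push_cast; ring
    rw [h, pow_succ, mul_comm ((2:ℝ) ^ m)]
    exact_mod_cast this
  have hpos : (0:ℝ) < 16 ^ d := by positivity
  have hdd : 0 ≤ (d : ℝ) * (d - 1) := mul_nonneg (by linarith) (by linarith)
  constructor
  · refine (norm_add_le _ _).trans ?_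
    rw [norm_neg, norm_mul, norm_mul, norm_mul, h16, e1, Complex.norm_real, Real.norm_eq_abs]
    have a1 : (16:ℝ) ^ d * |T1 j d| ≤ 16 ^ d * (2 ^ d) := by
      apply mul_le_mul_of_nonneg_left _ hpos.le
      linarith
    have a2 : (16:ℝ) ^ d * (d - 1) * ‖lam‖ ≤ 16 ^ d * 2 ^ d := by
      have : (16:ℝ) ^ d * (d - 1) * ‖lam‖ ≤ 16 ^ d * (d - 1) * 1 :=
        mul_le_mul_of_nonneg_left hl (mul_nonneg hpos.le (by linarith))
      have b : (16:ℝ) ^ d * (d - 1) ≤ 16 ^ d * 2 ^ d := mul_le_mul_of_nonneg_left (by linarith) hpos.le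
      linarith
    rw [h32]
    linarith
  · refine (norm_add_le _ _).trans ?_
    rw [norm_neg, norm_mul, norm_mul, norm_mul, norm_mul, h16, e1, e2, Complex.norm_real, Real.norm_eq_abs]
    have a1 : (16:ℝ) ^ d * |T2 j d| ≤ 16 ^ d * (2 ^ d) := by
      apply mul_le_mul_of_nonneg_left _ hpos.le
      linarith
    have a2 : (16:ℝ) ^ d * (d - 1) * d * ‖lam‖ ≤ 16 ^ d * 2 ^ d := by
      have : (16:ℝ) ^ d * (d - 1) * d * ‖lam‖ ≤ 16 ^ d * (d - 1) * d * 1 :=
        mul_le_mul_of_nonneg_left hl (mul_nonneg (mul_nonneg hpos.le (by linarith)) (by linarith))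
      have b : (16:ℝ) ^ d * (d * (d - 1)) ≤ 16 ^ d * 2 ^ d := mul_le_mul_of_nonneg_left hp2 hpos.le
      have c : (16:ℝ) ^ d * (d - 1) * d * 1 = (16:ℝ) ^ d * (d * (d - 1)) := by ring
      linarith
    rw [h32]
    linarith

theorem log_big (i d : ℕ) : Real.log (1 + 4 * 32 ^ d * nn i ^ 2) ≤ 2 + 4 * d + 2 * AA i := by
  have hn := nn_pos i
  have h32 : (1:ℝ) ≤ 32 ^ d := one_le_pow₀ (by norm_num)
  have h1 : 1 + 4 * 32 ^ d * nn i ^ 2 ≤ 5 * 32 ^ d * nn i ^ 2 := by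
    have := nn_sq_ge i
    nlinarith
  have h2 := Real.log_le_log (by positivity) h1
  rw [Real.log_mul (by positivity) (by positivity), Real.log_mul (by norm_num) (by positivity),
    Real.log_pow, Real.log_pow] at h2
  have h3 : Real.log 5 ≤ 2 := by
    have := Real.log_le_sub_one_of_pos (show (0:ℝ) < 5 / 2.7182818283 by norm_num)
    have e : Real.log 5 ≤ Real.log (Real.exp 2) := by
      apply Real.log_le_log (by norm_num)
      have c := Real.exp_one_gt_d9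
      have e : Real.exp 2 = Real.exp 1 * Real.exp 1 := by rw [← Real.exp_add]; norm_num
      rw [e]; nlinarith
    rwa [Real.log_exp] at e
  have h4 : Real.log 32 ≤ 4 := by
    have e : Real.log 32 ≤ Real.log (Real.exp 4) := by
      apply Real.log_le_log (by norm_num)
      have c := Real.exp_one_gt_d9
      have e : Real.exp 4 = (Real.exp 1 * Real.exp 1) * (Real.exp 1 * Real.exp 1) := by
        rw [← Real.exp_add, ← Real.exp_add]; norm_num
      have e2 : 7 ≤ Real.exp 1 * Real.exp 1 := by nlinarith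
      rw [e]; nlinarith
    rwa [Real.log_exp] at e
  have h5 := log_nn_le i
  have h6 : (0:ℝ) ≤ d := by positivity
  push_cast at h2
  nlinarith

/-- (V): on earlier discs -/
theorem vv_bwd (φ : ℝ → ℝ) (hφ : IsPhi φ) (j d : ℕ) (hd : 1 ≤ d) (lam t : ℂ) (hl : ‖lam‖ ≤ 1) :
    vv φ (j + d) (pt j lam t) ≤ 2 * Real.sqrt (nn (j + d)) * 1024 ^ d := by
  obtain ⟨h1, h2⟩ := bwd_norm j d hd lam t hl
  have h3 := nsq_of _ _ _ h1 h2
  have hs : ‖(aff (j + d) (pt j lam t)).1‖ + ‖(aff (j + d) (pt j lam t)).2‖ ≤ 4 * 32 ^ d := by linarith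
  have h := VV_upper φ hφ (j + d) (aff (j + d) (pt j lam t)) (4 * 32 ^ d) _ hs (log_big (j + d) d)
  have h1024 : (32:ℝ) ^ d * 32 ^ d = 1024 ^ d := by rw [← mul_pow]; norm_num
  have h4 : nsq (aff (j + d) (pt j lam t)) ≤ 8 * 1024 ^ d := by
    rw [← h1024]; linarith
  have hA := AA_ge (j + d)
  have hsq := AA_sq (j + d)
  have hd1 : (1:ℝ) ≤ d := by exact_mod_cast hd
  have hp : 5 + 4 * (d : ℝ) ≤ 1024 ^ d := by
    have h5 : d < 2 ^ d := Nat.lt_two_pow_self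
    have h6 : (d : ℝ) ≤ 2 ^ d := by exact_mod_cast h5.le
    have h7 : (1024 : ℝ) ^ d = 2 ^ d * 512 ^ d := by rw [← mul_pow]; norm_num
    have h8 : (512 : ℝ) ≤ 512 ^ d := le_self_pow₀ (by norm_num) (by omega)
    rw [h7]
    nlinarith
  obtain ⟨A, hAdef⟩ : ∃ A : ℝ, A = AA (j + d) := ⟨_, rfl⟩
  obtain ⟨P, hPdef⟩ : ∃ P : ℝ, P = 1024 ^ d := ⟨_, rfl⟩
  obtain ⟨Nq, hNq⟩ : ∃ Nq : ℝ, Nq = nsq (aff (j + d) (pt j lam t)) := ⟨_, rfl⟩
  unfold vv
  rw [← hAdef] at h hA hsq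
  rw [← hPdef] at hp h4 ⊢
  rw [← hNq] at h h4
  have hP0 : 0 < P := by rw [hPdef]; positivity
  have b1 : A * Nq ≤ A * (8 * P) := mul_le_mul_of_nonneg_left h4 (by linarith)
  have hAA : A ≤ A ^ 2 := le_self_pow₀ (by linarith) (by norm_num)
  have hA1 : 1 ≤ A ^ 2 := one_le_pow₀ (by linarith)
  have b2 : A * (8 * P) ≤ A ^ 2 * (8 * P) := mul_le_mul_of_nonneg_right hAA (by positivity)
  have b3 : A * (2 + 4 * (d : ℝ) + 2 * A) ≤ A ^ 2 * (2 + 4 * (d : ℝ)) + 2 * A ^ 2 := by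
    have : A * (2 + 4 * (d : ℝ)) ≤ A ^ 2 * (2 + 4 * (d : ℝ)) :=
      mul_le_mul_of_nonneg_right hAA (by positivity)
    linarith [show A * (2 + 4 * (d : ℝ) + 2 * A) = A * (2 + 4 * (d : ℝ)) + 2 * A ^ 2 by ring]
  have b4 : A ^ 2 * (5 + 4 * (d : ℝ)) ≤ A ^ 2 * P := mul_le_mul_of_nonneg_left hp (by positivity)
  have b5 : VV φ (j + d) (aff (j + d) (pt j lam t)) ≤ 9 * (A ^ 2 * P) := by
    linarith [show A ^ 2 * (5 + 4 * (d : ℝ)) = A ^ 2 * (2 + 4 * (d : ℝ)) + 2 * A ^ 2 + A ^ 2 by ring]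
  have b6 : 8 * A ^ 2 * P ≤ Real.sqrt (nn (j + d)) * P := mul_le_mul_of_nonneg_right hsq hP0.le
  have b7 : 0 < Real.sqrt (nn (j + d)) * P := mul_pos (sqrt_nn_pos _) hP0
  linarith [show 8 * A ^ 2 * P = 8 * (A ^ 2 * P) by ring,
    show 2 * Real.sqrt (nn (j + d)) * P = 2 * (Real.sqrt (nn (j + d)) * P) by ring]

end Pool.Agent.TH234.Kc
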