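import Pool.Agent.TH234.Kc.Phi

set_option autoImplicit false

/-!
Levi form of a smoothed maximum of `log |F|` and `B - M`.
-/

namespace Pool.Agent.TH234.Kc

open Filter Topology

theorem two_le_top : (2 : WithTop ℕ∞) ≤ ((⊤ : ℕ∞) : WithTop ℕ∞) := by
  have h : ∀ (k : ℕ), (k : WithTop ℕ∞) ≤ ((⊤ : ℕ∞) : WithTop ℕ∞) := by
    intro k
    exact_mod_cast le_top
  exact h 2

section real

variable {E : Type*} [NormedAddCommGroup E] [NormedSpace ℝ E]

/-- second derivative along a line -/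
theorem second_line {W : Type*} [NormedAddCommGroup W] [NormedSpace ℝ W]
    (V : E → W) (hV : ContDiff ℝ 2 V) (p w : E)
    (g g1 : ℝ → W) (g2 : W) (hg : ∀ s : ℝ, V (p + s • w) = g s)
    (h1 : ∀ s, HasDerivAt g (g1 s) s) (h2 : HasDerivAt g1 g2 0) :
    fderiv ℝ (fderiv ℝ V) p w w = g2 := by
  have hC1 : ContDiff ℝ 1 (fderiv ℝ V) := hV.fderiv_right (by norm_num)
  have hlin : ∀ τ : ℝ, HasDerivAt (fun τ : ℝ => p + τ • w) w τ := by
    intro τ
    simpa using ((hasDerivAt_id τ).smul_const w).const_add p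
  have hφ1 : ∀ τ : ℝ, fderiv ℝ V (p + τ • w) w = g1 τ := by
    intro τ
    have k1 : HasDerivAt (fun τ : ℝ => V (p + τ • w)) (fderiv ℝ V (p + τ • w) w) τ := by
      have hd : HasFDerivAt V (fderiv ℝ V (p + τ • w)) (p + τ • w) :=
        ((hV.differentiable (by norm_num)) _).hasFDerivAt
      exact hd.comp_hasDerivAt τ (hlin τ)
    have k2 : HasDerivAt (fun τ : ℝ => V (p + τ • w)) (g1 τ) τ := by
      have e : (fun τ : ℝ => V (p + τ • w)) = g := funext hg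
      rw [e]
      exact h1 τ
    exact k1.unique k2
  have hφ2 : HasDerivAt (fun τ : ℝ => fderiv ℝ V (p + τ • w) w)
      (fderiv ℝ (fderiv ℝ V) p w w) 0 := by
    have hd : HasFDerivAt (fderiv ℝ V) (fderiv ℝ (fderiv ℝ V) p) (p + (0 : ℝ) • w) := by
      rw [zero_smul, add_zero]
      exact ((hC1.differentiable (by norm_num)) _).hasFDerivAt
    have h1 : HasDerivAt (fun τ : ℝ => fderiv ℝ V (p + τ • w)) (fderiv ℝ (fderiv ℝ V) p w) 0 :=
      hd.comp_hasDerivAt 0 (hlin 0)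
    exact h1.clm_apply (hasDerivAt_const 0 w) |>.congr_deriv (by simp)
  have e : (fun τ : ℝ => fderiv ℝ V (p + τ • w) w) = g1 := funext hφ1
  rw [e] at hφ2
  exact hφ2.unique h2

theorem line_deriv1 {W : Type*} [NormedAddCommGroup W] [NormedSpace ℝ W]
    (V : E → W) (hV : ContDiff ℝ 2 V) (p w : E) (s : ℝ) :
    HasDerivAt (fun s : ℝ => V (p + s • w)) (fderiv ℝ V (p + s • w) w) s := by
  have hlin : HasDerivAt (fun τ : ℝ => p + τ • w) w s := by
    simpa using ((hasDerivAt_id s).smul_const w).const_add p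
  have hd : HasFDerivAt V (fderiv ℝ V (p + s • w)) (p + s • w) :=
    ((hV.differentiable (by norm_num)) _).hasFDerivAt
  exact hd.comp_hasDerivAt s hlin

theorem line_deriv2 {W : Type*} [NormedAddCommGroup W] [NormedSpace ℝ W]
    (V : E → W) (hV : ContDiff ℝ 2 V) (p w : E) :
    HasDerivAt (fun s : ℝ => fderiv ℝ V (p + s • w) w) (fderiv ℝ (fderiv ℝ V) p w w) 0 := by
  have hC1 : ContDiff ℝ 1 (fderiv ℝ V) := hV.fderiv_right (by norm_num)
  have hlin : HasDerivAt (fun τ : ℝ => p + τ • w) w 0 := by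
    simpa using ((hasDerivAt_id (0:ℝ)).smul_const w).const_add p
  have hd : HasFDerivAt (fderiv ℝ V) (fderiv ℝ (fderiv ℝ V) p) (p + (0 : ℝ) • w) := by
    rw [zero_smul, add_zero]
    exact ((hC1.differentiable (by norm_num)) _).hasFDerivAt
  have h1 : HasDerivAt (fun τ : ℝ => fderiv ℝ V (p + τ • w)) (fderiv ℝ (fderiv ℝ V) p w) 0 :=
    hd.comp_hasDerivAt 0 hlin
  exact h1.clm_apply (hasDerivAt_const 0 w) |>.congr_deriv (by simp)

/-- the smoothed maximum of `log |F|` and `B - M` -/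
noncomputable def smax (φ : ℝ → ℝ) (M : ℝ) (B : E → ℝ) (F : E → ℂ) (q : E) : ℝ :=
  B q - M + φ (Real.exp (2 * (M - B q)) * ‖F q‖ ^ 2)

theorem smax_contDiff (φ : ℝ → ℝ) (hφ : IsPhi φ) (M : ℝ) (B : E → ℝ) (F : E → ℂ)
    (hB : ContDiff ℝ ((⊤ : ℕ∞) : WithTop ℕ∞) B) (hF : ContDiff ℝ ((⊤ : ℕ∞) : WithTop ℕ∞) F) :
    ContDiff ℝ ((⊤ : ℕ∞) : WithTop ℕ∞) (smax φ M B F) := by
  unfold smax
  refine (hB.sub contDiff_const).add (hφ.smooth.comp ?_)
  exact ((contDiff_const.mul (contDiff_const.sub hB)).exp).mul (hF.norm_sq ℝ)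

theorem smax_line (φ : ℝ → ℝ) (hφ : IsPhi φ) (M : ℝ) (B : E → ℝ) (F : E → ℂ)
    (hB : ContDiff ℝ ((⊤ : ℕ∞) : WithTop ℕ∞) B) (hF : ContDiff ℝ ((⊤ : ℕ∞) : WithTop ℕ∞) F)
    (p w : E) (b1 b2 e N : ℝ) (f0 f1 f2 : ℂ)
    (hb1 : fderiv ℝ B p w = b1) (hb2 : fderiv ℝ (fderiv ℝ B) p w w = b2)
    (he : e = Real.exp (2 * (M - B p))) (hN : N = ‖f0‖ ^ 2) (h0 : F p = f0)
    (h1 : fderiv ℝ F p w = f1) (h2 : fderiv ℝ (fderiv ℝ F) p w w = f2) :
    fderiv ℝ (fderiv ℝ (smax φ M B F)) p w w =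
      b2 + deriv (deriv φ) (e * N) *
          (e * (2 * (f0.re * f1.re + f0.im * f1.im) - 2 * b1 * N)) ^ 2
        + deriv φ (e * N) * (e * (2 * (f1.re ^ 2 + f1.im ^ 2 + (f0.re * f2.re + f0.im * f2.im))
            - 4 * b1 * (2 * (f0.re * f1.re + f0.im * f1.im)) + (4 * b1 ^ 2 - 2 * b2) * N)) := by
  have hle := two_le_top
  have hB2 := hB.of_le hle
  have hF2 := hF.of_le hle
  have hS2 := (smax_contDiff φ hφ M B F hB hF).of_le hle
  have dB : ∀ s : ℝ, HasDerivAt (fun s : ℝ => B (p + s • w)) (fderiv ℝ B (p + s • w) w) s :=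
    line_deriv1 B hB2 p w
  have dB2 := line_deriv2 B hB2 p w
  have dF : ∀ s : ℝ, HasDerivAt (fun s : ℝ => F (p + s • w)) (fderiv ℝ F (p + s • w) w) s :=
    line_deriv1 F hF2 p w
  have dF2 := line_deriv2 F hF2 p w
  have dN : ∀ s : ℝ, HasDerivAt (fun s : ℝ => ‖F (p + s • w)‖ ^ 2)
      (2 * inner ℝ (F (p + s • w)) (fderiv ℝ F (p + s • w) w)) s := fun s => (dF s).norm_sq
  have dN2 : HasDerivAt (fun s : ℝ => 2 * inner ℝ (F (p + s • w)) (fderiv ℝ F (p + s • w) w))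
      (2 * (inner ℝ f0 f2 + inner ℝ f1 f1)) 0 := by
    have h := ((dF 0).inner ℝ dF2).const_mul 2
    simp only [zero_smul, add_zero, h0, h1, h2] at h
    exact h
  have dE : ∀ s : ℝ, HasDerivAt (fun s : ℝ => Real.exp (2 * (M - B (p + s • w))))
      (Real.exp (2 * (M - B (p + s • w))) * (-(2 * fderiv ℝ B (p + s • w) w))) s := by
    intro s
    have h := (((dB s).const_sub M).const_mul 2).exp
    convert h using 1
    ring
  have dT : ∀ s : ℝ, HasDerivAt (fun s : ℝ => Real.exp (2 * (M - B (p + s • w))) * ‖F (p + s • w)‖ ^ 2)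
      (Real.exp (2 * (M - B (p + s • w))) * (-(2 * fderiv ℝ B (p + s • w) w)) * ‖F (p + s • w)‖ ^ 2
        + Real.exp (2 * (M - B (p + s • w))) *
          (2 * inner ℝ (F (p + s • w)) (fderiv ℝ F (p + s • w) w))) s := fun s => (dE s).mul (dN s)
  have dT2 : HasDerivAt (fun s : ℝ => Real.exp (2 * (M - B (p + s • w))) * (-(2 * fderiv ℝ B (p + s • w) w)) * ‖F (p + s • w)‖ ^ 2
        + Real.exp (2 * (M - B (p + s • w))) *
          (2 * inner ℝ (F (p + s • w)) (fderiv ℝ F (p + s • w) w)))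
      (e * (2 * (f1.re ^ 2 + f1.im ^ 2 + (f0.re * f2.re + f0.im * f2.im))
            - 4 * b1 * (2 * (f0.re * f1.re + f0.im * f1.im)) + (4 * b1 ^ 2 - 2 * b2) * N)) 0 := by
    have h := (((dE 0).mul ((dB2.const_mul 2).neg)).mul (dN 0)).add ((dE 0).mul dN2)
    simp only [Pi.mul_apply, Pi.neg_apply, zero_smul, add_zero, h0, h1, hb1, hb2, ← he, ← hN] at h
    refine h.congr_deriv ?_
    simp only [Complex.inner, Complex.mul_re, Complex.conj_re, Complex.conj_im]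
    ring
  have hdφ : ContDiff ℝ ((⊤ : ℕ∞) : WithTop ℕ∞) (deriv φ) := (contDiff_infty_iff_deriv.mp hφ.smooth).2
  have dφ : ∀ t, HasDerivAt φ (deriv φ t) t := fun t =>
    ((hφ.smooth.differentiable (by simp)) t).hasDerivAt
  have dφ2 : ∀ t, HasDerivAt (deriv φ) (deriv (deriv φ) t) t := fun t =>
    ((hdφ.differentiable (by simp)) t).hasDerivAt
  refine second_line _ hS2 p w (fun s : ℝ => B (p + s • w) - M +
      φ (Real.exp (2 * (M - B (p + s • w))) * ‖F (p + s • w)‖ ^ 2))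
    (fun s : ℝ => fderiv ℝ B (p + s • w) w +
      deriv φ (Real.exp (2 * (M - B (p + s • w))) * ‖F (p + s • w)‖ ^ 2) *
      (Real.exp (2 * (M - B (p + s • w))) * (-(2 * fderiv ℝ B (p + s • w) w)) * ‖F (p + s • w)‖ ^ 2
        + Real.exp (2 * (M - B (p + s • w))) *
          (2 * inner ℝ (F (p + s • w)) (fderiv ℝ F (p + s • w) w)))) _ (fun s => rfl) ?_ ?_
  · intro s
    exact ((dB s).sub_const M).add ((dφ _).comp s (dT s))
  · have h := dB2.add (((dφ2 _).comp (0:ℝ) (dT 0)).mul dT2)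
    simp only [zero_smul, add_zero, h0, h1, hb1, hb2, ← he, ← hN] at h
    refine h.congr_deriv ?_
    simp only [Function.comp, zero_smul, add_zero, h0, ← hN, ← he, Complex.inner, Complex.mul_re, Complex.conj_re, Complex.conj_im]
    ring

end real

section complex

variable {E : Type*} [NormedAddCommGroup E] [NormedSpace ℝ E] [NormedSpace ℂ E] [IsScalarTower ℝ ℂ E]

theorem fderiv_I (F : E → ℂ) (hF : Differentiable ℂ F) (q v : E) :
    fderiv ℝ F q (Complex.I • v) = Complex.I * fderiv ℝ F q v := by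
  have h : HasFDerivAt F ((fderiv ℂ F q).restrictScalars ℝ) q :=
    ((hF q).hasFDerivAt).restrictScalars ℝ
  rw [h.fderiv]
  simp

theorem fderiv2_I (F : E → ℂ) (hF : Differentiable ℂ F)
    (hs : ContDiff ℝ ((⊤ : ℕ∞) : WithTop ℕ∞) F) (q v : E) :
    fderiv ℝ (fderiv ℝ F) q (Complex.I • v) (Complex.I • v) = - fderiv ℝ (fderiv ℝ F) q v v := by
  have hC1 : ContDiff ℝ ((⊤ : ℕ∞) : WithTop ℕ∞) (fderiv ℝ F) :=
    ContDiff.fderiv_right (m := ((⊤ : ℕ∞) : WithTop ℕ∞)) hs (by simp)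
  have hd : DifferentiableAt ℝ (fderiv ℝ F) q := hC1.differentiable (by simp) q
  have key : ∀ u x : E, fderiv ℝ (fderiv ℝ F) q u (Complex.I • x)
      = Complex.I * fderiv ℝ (fderiv ℝ F) q u x := by
    intro u x
    have e1 : HasFDerivAt (fun w => fderiv ℝ F w (Complex.I • x))
        ((ContinuousLinearMap.apply ℝ ℂ (Complex.I • x)).comp (fderiv ℝ (fderiv ℝ F) q)) q :=
      (ContinuousLinearMap.apply ℝ ℂ (Complex.I • x)).hasFDerivAt.comp q hd.hasFDerivAt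
    have e2 : HasFDerivAt (fun w => fderiv ℝ F w x)
        ((ContinuousLinearMap.apply ℝ ℂ x).comp (fderiv ℝ (fderiv ℝ F) q)) q :=
      (ContinuousLinearMap.apply ℝ ℂ x).hasFDerivAt.comp q hd.hasFDerivAt
    have e3 : (fun w => fderiv ℝ F w (Complex.I • x)) = fun w => Complex.I * fderiv ℝ F w x :=
      funext fun w => fderiv_I F hF w x
    rw [e3] at e1
    have e4 := e2.const_mul Complex.I
    have e5 := congrArg (fun L : E →L[ℝ] ℂ => L u) (e1.unique e4)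
    exact e5
  have hsym : ∀ u x : E, fderiv ℝ (fderiv ℝ F) q u x = fderiv ℝ (fderiv ℝ F) q x u := by
    intro u x
    have h : IsSymmSndFDerivAt ℝ F q := by
      apply hs.contDiffAt.isSymmSndFDerivAt
      simpa using two_le_top
    exact h.eq u x
  rw [key, hsym, key, ← mul_assoc, Complex.I_mul_I]
  ring

theorem smax_levi (φ : ℝ → ℝ) (hφ : IsPhi φ) (M : ℝ) (B : E → ℝ) (F : E → ℂ)
    (hB : ContDiff ℝ ((⊤ : ℕ∞) : WithTop ℕ∞) B) (hF : ContDiff ℝ ((⊤ : ℕ∞) : WithTop ℕ∞) F)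
    (hFc : Differentiable ℂ F)
    (hBL : ∀ p w, 0 ≤ fderiv ℝ (fderiv ℝ B) p w w
      + fderiv ℝ (fderiv ℝ B) p (Complex.I • w) (Complex.I • w)) (p w : E) :
    0 ≤ fderiv ℝ (fderiv ℝ (smax φ M B F)) p w w
      + fderiv ℝ (fderiv ℝ (smax φ M B F)) p (Complex.I • w) (Complex.I • w) := by
  obtain ⟨b1, hb1⟩ : ∃ b, fderiv ℝ B p w = b := ⟨_, rfl⟩
  obtain ⟨c1, hc1⟩ : ∃ b, fderiv ℝ B p (Complex.I • w) = b := ⟨_, rfl⟩
  obtain ⟨b2, hb2⟩ : ∃ b, fderiv ℝ (fderiv ℝ B) p w w = b := ⟨_, rfl⟩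
  obtain ⟨c2, hc2⟩ : ∃ b, fderiv ℝ (fderiv ℝ B) p (Complex.I • w) (Complex.I • w) = b := ⟨_, rfl⟩
  obtain ⟨f0, h0⟩ : ∃ b, F p = b := ⟨_, rfl⟩
  obtain ⟨f1, h1⟩ : ∃ b, fderiv ℝ F p w = b := ⟨_, rfl⟩
  obtain ⟨f2, h2⟩ : ∃ b, fderiv ℝ (fderiv ℝ F) p w w = b := ⟨_, rfl⟩
  obtain ⟨e, he⟩ : ∃ e, e = Real.exp (2 * (M - B p)) := ⟨_, rfl⟩
  obtain ⟨N, hN⟩ : ∃ N, N = ‖f0‖ ^ 2 := ⟨_, rfl⟩
  have h1' : fderiv ℝ F p (Complex.I • w) = Complex.I * f1 := by rw [fderiv_I F hFc, h1]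
  have h2' : fderiv ℝ (fderiv ℝ F) p (Complex.I • w) (Complex.I • w) = - f2 := by
    rw [fderiv2_I F hFc hF, h2]
  rw [smax_line φ hφ M B F hB hF p w b1 b2 e N f0 f1 f2 hb1 hb2 he hN h0 h1 h2,
    smax_line φ hφ M B F hB hF p (Complex.I • w) c1 c2 e N f0 (Complex.I * f1) (-f2) hc1 hc2 he hN
      h0 h1' h2']
  have hL := hBL p w
  rw [hb2, hc2] at hL
  have hN' : N = f0.re ^ 2 + f0.im ^ 2 := by
    rw [hN, ← Complex.normSq_eq_norm_sq, Complex.normSq_apply]; ring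
  have he0 : 0 < e := by rw [he]; exact Real.exp_pos _
  have hN0 : 0 ≤ N := by rw [hN]; positivity
  have hT0 : 0 ≤ e * N := by positivity
  have k1 := hφ.half (e * N)
  have k2 := hφ.lev (e * N) hT0
  obtain ⟨K, hK⟩ : ∃ K : ℝ, K = (f1.re - (b1 * f0.re + c1 * f0.im)) ^ 2
      + (f1.im - (b1 * f0.im - c1 * f0.re)) ^ 2 := ⟨_, rfl⟩
  have hK0 : 0 ≤ K := by rw [hK]; positivity
  obtain ⟨P, hP⟩ : ∃ P, P = deriv φ (e * N) := ⟨_, rfl⟩
  obtain ⟨Q, hQ⟩ : ∃ Q, Q = deriv (deriv φ) (e * N) := ⟨_, rfl⟩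
  rw [← hP] at k1 k2 ⊢
  rw [← hQ] at k2 ⊢
  have hid : b2 + Q * (e * (2 * (f0.re * f1.re + f0.im * f1.im) - 2 * b1 * N)) ^ 2 +
        P * (e * (2 * (f1.re ^ 2 + f1.im ^ 2 + (f0.re * f2.re + f0.im * f2.im)) -
          4 * b1 * (2 * (f0.re * f1.re + f0.im * f1.im)) + (4 * b1 ^ 2 - 2 * b2) * N)) +
      (c2 + Q * (e * (2 * (f0.re * (Complex.I * f1).re + f0.im * (Complex.I * f1).im) - 2 * c1 * N)) ^ 2 +
        P * (e * (2 * ((Complex.I * f1).re ^ 2 + (Complex.I * f1).im ^ 2 +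
          (f0.re * (-f2).re + f0.im * (-f2).im)) -
          4 * c1 * (2 * (f0.re * (Complex.I * f1).re + f0.im * (Complex.I * f1).im))
            + (4 * c1 ^ 2 - 2 * c2) * N)))
      = (b2 + c2) * (1 - 2 * (e * N * P)) + 4 * e * K * (P + e * N * Q) := by
    simp only [Complex.mul_re, Complex.mul_im, Complex.I_re, Complex.I_im, Complex.neg_re,
      Complex.neg_im]
    rw [hK, hN']
    ring
  rw [hid]
  have a1 : 0 ≤ (b2 + c2) * (1 - 2 * (e * N * P)) := mul_nonneg hL (by linarith)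
  have a2 : 0 ≤ 4 * e * K * (P + e * N * Q) := mul_nonneg (by positivity) k2
  linarith

end complex

end Pool.Agent.TH234.Kc
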