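import Pool.Agent.Helper112.Kc.JA1

set_option autoImplicit false

/-!
The one-variable function used to smooth the maximum of a logarithm and a potential.
-/

namespace Pool.Agent.TH234.Kc

open Filter Topology

/-- The data of the smoothing function. -/
structure IsPhi (φ : ℝ → ℝ) : Prop where
  smooth : ContDiff ℝ ((⊤ : ℕ∞) : WithTop ℕ∞) φ
  eq_log : ∀ s, 1 ≤ s → φ s = Real.log s / 2
  mono : Monotone φ
  lo : -1 ≤ φ 0
  le0 : φ 0 ≤ 0
  half : ∀ s, s * deriv φ s ≤ 1 / 2
  lev : ∀ s, 0 ≤ s → 0 ≤ deriv φ s + s * deriv (deriv φ) s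
  bdd : ∀ i : ℕ, 1 ≤ i → ∃ C : ℝ, 0 ≤ C ∧ ∀ s, ‖iteratedFDeriv ℝ i φ s‖ ≤ C

theorem phi_bdd_scale (φ : ℝ → ℝ) (hs : ContDiff ℝ ((⊤ : ℕ∞) : WithTop ℕ∞) φ)
    (hl : ∀ s, 1 ≤ s → φ s = Real.log s / 2) (i : ℕ) (hi : 1 ≤ i) (w : ℝ) (hw : 2 < w) :
    ‖iteratedFDeriv ℝ i φ w‖ ≤ ‖iteratedFDeriv ℝ i φ 2‖ := by
  obtain ⟨t, ht⟩ : ∃ t : ℝ, t = w / 2 := ⟨_, rfl⟩
  have ht1 : 1 < t := by rw [ht]; linarith
  have ht0 : 0 < t := by linarith
  set g : ℝ →L[ℝ] ℝ := t⁻¹ • ContinuousLinearMap.id ℝ ℝ with hg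
  have hgw : ∀ v, g v = t⁻¹ * v := fun v => rfl
  have hg2 : g w = 2 := by
    rw [hgw, ht]
    have : w ≠ 0 := by linarith
    field_simp
  have hev : φ =ᶠ[𝓝 w] fun v => (φ ∘ g) v + Real.log t / 2 := by
    have h1 : ∀ᶠ v in 𝓝 w, t < v := lt_mem_nhds (by rw [ht]; linarith)
    filter_upwards [h1] with v hv
    have hv1 : 1 ≤ v := by linarith
    have hgv1 : 1 ≤ g v := by
      rw [hgw, inv_mul_eq_div, le_div_iff₀ ht0]
      linarith
    rw [hl v hv1, Function.comp_apply, hl _ hgv1, hgw, Real.log_mul (by positivity)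
      (by linarith), Real.log_inv]
    ring
  have hi0 : i ≠ 0 := by omega
  have hle : (i : WithTop ℕ∞) ≤ ((⊤ : ℕ∞) : WithTop ℕ∞) := by exact_mod_cast le_top
  have hc : ContDiff ℝ i (φ ∘ g) := (hs.of_le hle).comp g.contDiff
  rw [(hev.iteratedFDeriv ℝ i).self_of_nhds]
  have e1 : iteratedFDeriv ℝ i (fun v => (φ ∘ g) v + Real.log t / 2) w
      = iteratedFDeriv ℝ i (φ ∘ g) w := by
    have h2 := iteratedFDeriv_add_apply (𝕜 := ℝ) (i := i) (f := φ ∘ g)
      (g := fun _ => Real.log t / 2) (x := w) hc.contDiffAt contDiffAt_const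
    rw [iteratedFDeriv_const_of_ne hi0] at h2
    rw [Pi.zero_apply, add_zero] at h2
    exact h2
  rw [e1, g.iteratedFDeriv_comp_right hs w hle]
  refine (ContinuousMultilinearMap.norm_compContinuousLinearMap_le _ _).trans ?_
  have hgn : ‖g‖ ≤ 1 := by
    refine ContinuousLinearMap.opNorm_le_bound _ (by norm_num) fun v => ?_
    rw [hgw, norm_mul, norm_inv, Real.norm_of_nonneg ht0.le]
    have : t⁻¹ ≤ 1 := inv_le_one_of_one_le₀ ht1.le
    exact mul_le_mul_of_nonneg_right this (norm_nonneg _)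
  have hp : ∏ _j : Fin i, ‖g‖ ≤ 1 :=
    Finset.prod_le_one (fun _ _ => norm_nonneg _) (fun _ _ => hgn)
  rw [hg2]
  calc _ ≤ ‖iteratedFDeriv ℝ i φ 2‖ * 1 := mul_le_mul_of_nonneg_left hp (norm_nonneg _)
    _ = _ := mul_one _

theorem exists_isPhi : ∃ φ : ℝ → ℝ, IsPhi φ := by
  have hgs := Helper112.Kc.phiG_contDiff
  have hgc : Continuous Helper112.Kc.phiG := hgs.continuous
  set φ : ℝ → ℝ := fun s => ∫ t in (1:ℝ)..s, Helper112.Kc.phiG t with hφ
  have hd : ∀ s, HasDerivAt φ (Helper112.Kc.phiG s) s := fun s =>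
    hgc.integral_hasStrictDerivAt 1 s |>.hasDerivAt
  have hderiv : deriv φ = Helper112.Kc.phiG := funext fun s => (hd s).deriv
  have hsm : ContDiff ℝ ((⊤ : ℕ∞) : WithTop ℕ∞) φ := by
    rw [contDiff_infty_iff_deriv]
    refine ⟨fun s => (hd s).differentiableAt, ?_⟩
    rw [hderiv]
    exact hgs
  have hlog : ∀ s, 1 ≤ s → φ s = Real.log s / 2 := by
    intro s hs
    have h1 : ∫ t in (1:ℝ)..s, Helper112.Kc.phiG t = ∫ t in (1:ℝ)..s, (1/2) * t⁻¹ := by
      apply intervalIntegral.integral_congr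
      intro t ht
      rw [Set.uIcc_of_le hs] at ht
      have ht1 := ht.1
      show Helper112.Kc.phiG t = (1/2) * t⁻¹
      unfold Helper112.Kc.phiG
      rw [Real.smoothTransition.one_of_one_le (by linarith)]
      have : t ≠ 0 := by linarith
      field_simp
    show ∫ t in (1:ℝ)..s, Helper112.Kc.phiG t = Real.log s / 2
    rw [h1, intervalIntegral.integral_const_mul, integral_inv_of_pos (by norm_num) (by linarith), div_one]
    ring
  have hmono : Monotone φ := by
    apply monotone_of_deriv_nonneg (fun s => (hd s).differentiableAt)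
    intro x
    rw [hderiv]
    exact Helper112.Kc.phiG_nonneg x
  have hconst : ∀ s, s ≤ 1 / 2 → φ s = φ 0 := by
    intro s hs
    have h1 : ∫ t in (0:ℝ)..s, Helper112.Kc.phiG t = 0 := by
      have h2 : ∫ t in (0:ℝ)..s, Helper112.Kc.phiG t = ∫ t in (0:ℝ)..s, (0:ℝ) := by
        apply intervalIntegral.integral_congr
        intro t ht
        have ht2 : t ≤ 1 / 2 := by
          rcases Set.mem_uIcc.1 ht with h | h <;> linarith [h.1, h.2]
        show Helper112.Kc.phiG t = 0
        unfold Helper112.Kc.phiG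
        rw [Real.smoothTransition.zero_of_nonpos (by linarith)]
        simp
      rw [h2]; simp
    have h3 := intervalIntegral.integral_add_adjacent_intervals
      (hgc.intervalIntegrable (μ := MeasureTheory.volume) 1 0)
      (hgc.intervalIntegrable (μ := MeasureTheory.volume) 0 s)
    show ∫ t in (1:ℝ)..s, Helper112.Kc.phiG t = ∫ t in (1:ℝ)..0, Helper112.Kc.phiG t
    rw [← h3, h1, add_zero]
  refine ⟨φ, ⟨hsm, hlog, hmono, ?_, ?_, ?_, ?_, ?_⟩⟩
  · show -1 ≤ ∫ t in (1:ℝ)..0, Helper112.Kc.phiG t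
    rw [intervalIntegral.integral_symm]
    have h1 : ∫ t in (0:ℝ)..1, Helper112.Kc.phiG t ≤ ∫ t in (0:ℝ)..1, (1:ℝ) := by
      apply intervalIntegral.integral_mono_on (by norm_num) (hgc.intervalIntegrable _ _)
        (continuous_const.intervalIntegrable _ _)
      intro x _
      exact Helper112.Kc.phiG_le_one x
    rw [intervalIntegral.integral_const] at h1
    simp at h1
    linarith
  · have h1 := hlog 1 le_rfl
    rw [Real.log_one, zero_div] at h1
    have := hmono (show (0:ℝ) ≤ 1 by norm_num)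
    rwa [h1] at this
  · intro s
    rw [hderiv, Helper112.Kc.mul_phiG]
    have := Real.smoothTransition.le_one (2 * s - 1)
    linarith
  · intro s _
    rw [hderiv]
    have hgd : HasDerivAt Helper112.Kc.phiG (deriv Helper112.Kc.phiG s) s :=
      ((hgs.differentiable (by simp)) s).hasDerivAt
    have h1 : HasDerivAt (fun s => s * Helper112.Kc.phiG s)
        (1 * Helper112.Kc.phiG s + s * deriv Helper112.Kc.phiG s) s :=
      (hasDerivAt_id s).mul hgd
    have h2 : (fun s => s * Helper112.Kc.phiG s) = fun s => Real.smoothTransition (2 * s - 1) / 2 :=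
      funext Helper112.Kc.mul_phiG
    have hmono : Monotone (fun s => s * Helper112.Kc.phiG s) := by
      rw [h2]
      intro a b hab
      have := Real.smoothTransition.monotone (show 2 * a - 1 ≤ 2 * b - 1 by linarith)
      show Real.smoothTransition (2 * a - 1) / 2 ≤ Real.smoothTransition (2 * b - 1) / 2
      linarith
    have h3 := h1.nonneg_of_monotone hmono
    linarith
  · intro i hi
    have hle : (i : WithTop ℕ∞) ≤ ((⊤ : ℕ∞) : WithTop ℕ∞) := by exact_mod_cast le_top
    have hc : Continuous (fun w => iteratedFDeriv ℝ i φ w) := hsm.continuous_iteratedFDeriv hle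
    obtain ⟨C, hC⟩ := (isCompact_Icc (a := (0:ℝ)) (b := 2)).exists_bound_of_continuousOn hc.continuousOn
    have h0 : 0 ≤ C := (norm_nonneg _).trans (hC 0 (by simp))
    refine ⟨C, h0, fun w => ?_⟩
    rcases lt_or_ge 2 w with hw | hw
    · exact (phi_bdd_scale φ hsm hlog i hi w hw).trans (hC 2 (by simp))
    · rcases lt_or_ge w 0 with hw0 | hw0
      · have hev : φ =ᶠ[𝓝 w] fun _ => φ 0 := by
          filter_upwards [gt_mem_nhds hw0] with v hv
          exact hconst v (by linarith)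
        rw [(hev.iteratedFDeriv ℝ i).self_of_nhds, iteratedFDeriv_const_of_ne (by omega)]
        simpa using h0
      · exact hC w ⟨hw0, hw⟩

end Pool.Agent.TH234.Kc
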