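import Mathlib

set_option autoImplicit false

/-!
The parameter sequences, and sequences of at most exponential growth.
-/

namespace Pool.Agent.TH234.Kc

open Filter Topology Finset

/-- the constant `2^80` -/
@[irreducible] def NB : ℕ := 2 ^ 80

theorem NB_eq : NB = 2 ^ 80 := by unfold NB; rfl

theorem NB_real : (NB : ℝ) = 2 ^ 80 := by rw [NB_eq]; norm_num

/-- `j + 2^80`, as a natural number -/
@[irreducible] def nN (j : ℕ) : ℕ := j + NB
/-- `j + 2^80` -/
noncomputable def nn (j : ℕ) : ℝ := (nN j : ℝ)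
/-- number of factors -/
@[irreducible] def AA (j : ℕ) : ℕ := Nat.log 2 (nN j) + 1
/-- relative step -/
noncomputable def cc (j : ℕ) : ℝ := 1 / (nn j) ^ 2
/-- masses -/
noncomputable def mm (j : ℕ) : ℝ := ∏ l ∈ range j, 1 / Real.sqrt (nn l)

theorem nn_eq (j : ℕ) : nn j = (j : ℝ) + 2 ^ 80 := by
  unfold nn nN; push_cast; rw [NB_real]

theorem nn_ge (j : ℕ) : (2:ℝ) ^ 80 ≤ nn j := by
  rw [nn_eq]; have : (0:ℝ) ≤ j := by positivity
  linarith

theorem nn_pos (j : ℕ) : 0 < nn j := lt_of_lt_of_le (by positivity) (nn_ge j)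

theorem nn_mono {i j : ℕ} (h : i ≤ j) : nn i ≤ nn j := by
  rw [nn_eq, nn_eq]
  have : (i : ℝ) ≤ j := by exact_mod_cast h
  linarith

theorem nn_succ (j : ℕ) : nn (j + 1) = nn j + 1 := by
  rw [nn_eq, nn_eq]; push_cast; ring

theorem sqrt_nn_ge (j : ℕ) : (2:ℝ) ^ 40 ≤ Real.sqrt (nn j) := by
  apply Real.le_sqrt_of_sq_le
  rw [← pow_mul]
  exact nn_ge j

theorem sqrt_nn_pos (j : ℕ) : 0 < Real.sqrt (nn j) := lt_of_lt_of_le (by positivity) (sqrt_nn_ge j)

theorem sqrt_sq_nn (j : ℕ) : Real.sqrt (nn j) * Real.sqrt (nn j) = nn j :=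
  Real.mul_self_sqrt (nn_pos j).le

theorem cc_pos (j : ℕ) : 0 < cc j := by
  unfold cc; have := nn_pos j; positivity

theorem cc_le (j : ℕ) : cc j ≤ 1 / 4 := by
  unfold cc
  have h := nn_ge j
  have h2 : (2:ℝ) ≤ nn j := le_trans (by norm_num) h
  rw [div_le_div_iff₀ (by have := nn_pos j; positivity) (by norm_num)]
  nlinarith

theorem cc_anti {i j : ℕ} (h : i ≤ j) : cc j ≤ cc i := by
  unfold cc
  have h1 := nn_mono h
  have h2 := nn_pos i
  apply one_div_le_one_div_of_le (by positivity)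
  exact pow_le_pow_left₀ h2.le h1 2

theorem summable_cc : Summable cc := by
  have h : Summable (fun j : ℕ => 1 / ((j : ℝ) + 1) ^ 2) := by
    have := (summable_nat_add_iff 1).2 (Real.summable_one_div_nat_pow.2 (show 1 < 2 by norm_num))
    simpa using this
  refine Summable.of_nonneg_of_le (fun j => (cc_pos j).le) (fun j => ?_) h
  unfold cc
  apply one_div_le_one_div_of_le (by positivity)
  apply pow_le_pow_left₀ (by positivity)
  rw [nn_eq]
  have : (1:ℝ) ≤ 2 ^ 80 := by norm_num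
  linarith

theorem mm_pos (j : ℕ) : 0 < mm j := by
  unfold mm
  apply Finset.prod_pos
  intro l _
  have := sqrt_nn_pos l
  positivity

theorem mm_succ (j : ℕ) : mm (j + 1) * Real.sqrt (nn j) = mm j := by
  unfold mm
  rw [Finset.prod_range_succ]
  have := (sqrt_nn_pos j).ne'
  field_simp

theorem mm_le (j : ℕ) (k : ℕ) : mm (j + k) ≤ mm j * (1 / 2 ^ 40) ^ k := by
  induction k with
  | zero => simp
  | succ k ih =>
    have h := mm_succ (j + k)
    have h2 := sqrt_nn_ge (j + k)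
    have h3 := mm_pos (j + (k + 1))
    have h4 : mm (j + (k + 1)) * 2 ^ 40 ≤ mm (j + k) := by
      rw [← h]
      exact mul_le_mul_of_nonneg_left h2 h3.le
    rw [pow_succ, ← mul_assoc]
    have h5 : mm (j + (k + 1)) ≤ mm (j + k) * (1 / 2 ^ 40) := by
      rw [mul_one_div, le_div_iff₀ (by positivity)]
      exact h4
    exact h5.trans (mul_le_mul_of_nonneg_right ih (by positivity))

theorem mm_zero : mm 0 = 1 := by simp [mm]

theorem AA_lt (j : ℕ) : nn j < 2 ^ (AA j) := by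
  unfold nn AA
  have := Nat.lt_pow_succ_log_self (b := 2) (by norm_num) (nN j)
  exact_mod_cast this

theorem nN_pos (j : ℕ) : nN j ≠ 0 := by
  have h := nn_pos j
  intro h0
  unfold nn at h
  rw [h0] at h
  simp at h

theorem AA_ge' (j : ℕ) : (2:ℝ) ^ (Nat.log 2 (nN j)) ≤ nn j := by
  unfold nn
  have h0 := nN_pos j
  have := Nat.pow_log_le_self 2 h0
  exact_mod_cast this

theorem log_ge (j : ℕ) : 80 ≤ Nat.log 2 (nN j) := by
  have h1 : Nat.log 2 (2 ^ 80) ≤ Nat.log 2 (nN j) := by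
    apply Nat.log_mono_right
    rw [← NB_eq]
    unfold nN
    omega
  rwa [Nat.log_pow (by norm_num)] at h1

theorem poly_pow (k : ℕ) (hk : 80 ≤ k) : 64 * (k + 1) ^ 4 ≤ 2 ^ k := by
  induction k, hk using Nat.le_induction with
  | base => norm_num
  | succ k hk ih =>
    have h : (k + 1 + 1) ^ 4 ≤ 2 * (k + 1) ^ 4 := by
      obtain ⟨m, rfl⟩ : ∃ m, k = m + 80 := ⟨k - 80, by omega⟩
      ring_nf
      nlinarith [Nat.zero_le m, Nat.zero_le (m^2), Nat.zero_le (m^3), Nat.zero_le (m^4)]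
    calc 64 * (k + 1 + 1) ^ 4 ≤ 64 * (2 * (k + 1) ^ 4) := Nat.mul_le_mul_left _ h
      _ = 2 * (64 * (k + 1) ^ 4) := by ring
      _ ≤ 2 * 2 ^ k := Nat.mul_le_mul_left _ ih
      _ = 2 ^ (k + 1) := by ring

theorem AA_pow (j : ℕ) : 64 * (AA j : ℝ) ^ 4 ≤ nn j := by
  have h1 := poly_pow (Nat.log 2 (nN j)) (log_ge j)
  have h2 := AA_ge' j
  have h3 : (64:ℝ) * ((Nat.log 2 (nN j) : ℝ) + 1) ^ 4 ≤ 2 ^ (Nat.log 2 (nN j)) := by exact_mod_cast h1
  unfold AA
  push_cast
  linarith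

theorem AA_sq (j : ℕ) : 8 * (AA j : ℝ) ^ 2 ≤ Real.sqrt (nn j) := by
  apply Real.le_sqrt_of_sq_le
  have := AA_pow j
  nlinarith

theorem AA_ge (j : ℕ) : (81:ℝ) ≤ AA j := by
  have := log_ge j
  unfold AA
  have h : 81 ≤ Nat.log 2 (nN j) + 1 := by omega
  exact_mod_cast h

theorem AA_sq_nat (j : ℕ) : AA j ^ 2 ≤ nN j := by
  have h1 := poly_pow (Nat.log 2 (nN j)) (log_ge j)
  have h0 := nN_pos j
  have h2 := Nat.pow_log_le_self 2 h0
  have h3 : AA j ^ 2 ≤ 64 * (Nat.log 2 (nN j) + 1) ^ 4 := by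
    unfold AA
    calc (Nat.log 2 (nN j) + 1) ^ 2 ≤ (Nat.log 2 (nN j) + 1) ^ 4 :=
          Nat.pow_le_pow_right (by omega) (by norm_num)
      _ ≤ _ := Nat.le_mul_of_pos_left _ (by norm_num)
  omega

theorem log_nn_le (j : ℕ) : Real.log (nn j) ≤ AA j := by
  have h1 := Real.log_le_log (nn_pos j) (AA_lt j).le
  rw [Real.log_pow] at h1
  have h2 : Real.log 2 ≤ 1 := by
    have := Real.log_two_lt_d9
    linarith
  have h3 : (0:ℝ) ≤ AA j := by positivity
  nlinarith

/-! ### exponential growth -/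

/-- at most exponential growth -/
def Expo (a : ℕ → ℝ) : Prop := ∃ X : ℝ, 1 ≤ X ∧ ∀ i, 0 ≤ a i ∧ a i ≤ X ^ (i + 1)

theorem Expo.nonneg {a : ℕ → ℝ} (h : Expo a) (i : ℕ) : 0 ≤ a i := by
  obtain ⟨X, _, h⟩ := h
  exact (h i).1

theorem Expo.mono {a b : ℕ → ℝ} (h : Expo b) (h0 : ∀ i, 0 ≤ a i) (h1 : ∀ i, a i ≤ b i) : Expo a := by
  obtain ⟨X, hX, h⟩ := h
  exact ⟨X, hX, fun i => ⟨h0 i, (h1 i).trans (h i).2⟩⟩

theorem Expo.const (c : ℝ) (hc : 0 ≤ c) : Expo (fun _ => c) := by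
  refine ⟨1 + c, by linarith, fun i => ⟨hc, ?_⟩⟩
  have : 1 + c ≤ (1 + c) ^ (i + 1) := le_self_pow₀ (by linarith) (by omega)
  linarith

theorem Expo.mul {a b : ℕ → ℝ} (ha : Expo a) (hb : Expo b) : Expo (fun i => a i * b i) := by
  obtain ⟨X, hX, h⟩ := ha
  obtain ⟨Y, hY, h'⟩ := hb
  refine ⟨X * Y, by nlinarith, fun i => ⟨mul_nonneg (h i).1 (h' i).1, ?_⟩⟩
  rw [mul_pow]
  exact mul_le_mul (h i).2 (h' i).2 (h' i).1 (by positivity)

theorem Expo.add {a b : ℕ → ℝ} (ha : Expo a) (hb : Expo b) : Expo (fun i => a i + b i) := by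
  obtain ⟨X, hX, h⟩ := ha
  obtain ⟨Y, hY, h'⟩ := hb
  refine ⟨X + Y, by linarith, fun i => ⟨add_nonneg (h i).1 (h' i).1, ?_⟩⟩
  have h1 : X ^ (i + 1) + Y ^ (i + 1) ≤ (X + Y) ^ (i + 1) :=
    pow_add_pow_le (by linarith) (by linarith) (by omega)
  linarith [(h i).2, (h' i).2]

theorem Expo.pow {a : ℕ → ℝ} (ha : Expo a) (n : ℕ) : Expo (fun i => a i ^ n) := by
  obtain ⟨X, hX, h⟩ := ha
  refine ⟨X ^ n, one_le_pow₀ hX, fun i => ⟨pow_nonneg (h i).1 _, ?_⟩⟩
  rw [← pow_mul, mul_comm, pow_mul]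
  exact pow_le_pow_left₀ (h i).1 (h i).2 n

theorem Expo.geom (X : ℝ) (hX : 1 ≤ X) : Expo (fun i => X ^ (i + 1)) :=
  ⟨X, hX, fun i => ⟨by positivity, le_rfl⟩⟩

theorem expo_nn : Expo nn := by
  refine ((Expo.geom 2 (by norm_num)).mul (Expo.const (2 ^ 80) (by positivity))).mono
    (fun i => (nn_pos i).le) (fun i => ?_)
  rw [nn_eq]
  have h1 : ((i : ℝ) + 1) ≤ 2 ^ (i + 1) := by
    have := Nat.lt_two_pow_self (n := i + 1)
    have h2 : i + 1 ≤ 2 ^ (i + 1) := this.le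
    exact_mod_cast h2
  have h3 : (0:ℝ) ≤ i := by positivity
  nlinarith

theorem expo_AA : Expo (fun i => (AA i : ℝ)) := by
  refine expo_nn.mono (fun i => by positivity) (fun i => ?_)
  have h := AA_sq_nat i
  have h2 : AA i ≤ nN i := le_trans (Nat.le_self_pow (by norm_num) _) h
  unfold nn
  exact_mod_cast h2

/-- products of `AA i` factors of polynomial size -/
theorem expo_prod (K : ℝ) (hK : 1 ≤ K) : Expo (fun i => (K * nn i ^ 2) ^ (AA i)) := by
  have h4 : 1 ≤ 4 * K := by linarith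
  refine ((Expo.geom (4 * K) h4).mul (Expo.const ((4 * K) ^ NB) (by positivity))).mono
    (fun i => by have := nn_pos i; positivity) (fun i => ?_)
  have hn := nn_pos i
  have h1 : K * nn i ^ 2 ≤ (4 * K) ^ (AA i) := by
    rw [mul_pow]
    have e1 : nn i ^ 2 ≤ 4 ^ (AA i) := by
      have := pow_le_pow_left₀ hn.le (AA_lt i).le 2
      rw [← pow_mul, mul_comm, pow_mul] at this
      norm_num at this
      exact this
    have e2 : K ≤ K ^ (AA i) :=
      le_self_pow₀ hK (by unfold AA; omega)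
    rw [mul_comm]
    exact mul_le_mul e1 e2 (by linarith) (by positivity)
  have h2 : (K * nn i ^ 2) ^ (AA i)
      ≤ ((4 * K) ^ (AA i)) ^ (AA i) :=
    pow_le_pow_left₀ (by positivity) h1 _
  refine h2.trans ?_
  rw [← pow_mul, ← sq]
  have h3 : (4 * K) ^ (AA i ^ 2) ≤ (4 * K) ^ (nN i) :=
    pow_le_pow_right₀ h4 (AA_sq_nat i)
  refine h3.trans ?_
  have h5 : (4 * K) ^ (nN i) = (4 * K) ^ i * (4 * K) ^ NB := by
    rw [← pow_add]; unfold nN; rfl
  rw [h5]
  apply mul_le_mul_of_nonneg_right _ (by positivity)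
  exact pow_le_pow_right₀ h4 (by omega)

theorem expo_exp_nn (c : ℝ) (hc : 0 ≤ c) : Expo (fun i => Real.exp (c * nn i)) := by
  have h1 : 1 ≤ Real.exp c := Real.one_le_exp hc
  refine ((Expo.geom (Real.exp c) h1).mul (Expo.const (Real.exp (c * 2 ^ 80)) (Real.exp_pos _).le)).mono
    (fun i => (Real.exp_pos _).le) (fun i => ?_)
  have e : Real.exp (c * nn i) = Real.exp c ^ i * Real.exp (c * 2 ^ 80) := by
    rw [nn_eq, ← Real.exp_nat_mul, ← Real.exp_add]
    ring_nf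
  rw [e]
  apply mul_le_mul_of_nonneg_right _ (Real.exp_pos _).le
  exact pow_le_pow_right₀ h1 (by omega)

theorem Expo.summable {a : ℕ → ℝ} (ha : Expo a) : Summable (fun i => mm i * a i) := by
  obtain ⟨X, hX, h⟩ := ha
  have hX0 : 0 < X := by linarith
  have key : Summable (fun i => mm i * X ^ (i + 1)) := by
    apply summable_of_ratio_test_tendsto_lt_one (l := 0) (by norm_num)
    · exact Eventually.of_forall fun i => by have := mm_pos i; positivity
    · have e : (fun i => ‖mm (i + 1) * X ^ (i + 1 + 1)‖ / ‖mm i * X ^ (i + 1)‖)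
          = fun i => X / Real.sqrt (nn i) := by
        funext i
        have h1 := mm_pos i
        have h2 := mm_pos (i + 1)
        have h3 := sqrt_nn_pos i
        rw [Real.norm_of_nonneg (by positivity), Real.norm_of_nonneg (by positivity), ← mm_succ i]
        field_simp
        ring
      rw [e]
      have h1 : Tendsto (fun i => Real.sqrt (nn i)) atTop atTop := by
        apply Real.tendsto_sqrt_atTop.comp
        have : nn = fun j : ℕ => (j : ℝ) + 2 ^ 80 := funext nn_eq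
        rw [this]
        exact tendsto_atTop_add_const_right _ _ tendsto_natCast_atTop_atTop
      exact Tendsto.const_div_atTop h1 X
  refine Summable.of_nonneg_of_le (fun i => mul_nonneg (mm_pos i).le (h i).1) (fun i => ?_) key
  exact mul_le_mul_of_nonneg_left (h i).2 (mm_pos i).le

end Pool.Agent.TH234.Kc
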