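import Pool.Agent.TH234.Kc.Gauss
import Pool.Agent.TH234.Kc.Seq

set_option autoImplicit false

/-!
The building blocks `VV i` on `ℂ × ℂ` and bounds for their derivatives.
-/

namespace Pool.Agent.TH234.Kc

open Filter Topology Finset

/-- the numbers `π_{i,b}` -/
noncomputable def PP (i b : ℕ) : ℝ :=
  ∑ a ∈ range b, cc (i + a) * (1 / 16) ^ a * ((a : ℝ) + 1) * ((b : ℝ) - a)

theorem PP_ge (i b : ℕ) (hb : 1 ≤ b) : cc i * b ≤ PP i b := by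
  unfold PP
  have h := Finset.single_le_sum (s := range b)
    (f := fun a : ℕ => cc (i + a) * (1 / 16) ^ a * ((a : ℝ) + 1) * ((b : ℝ) - a)) (a := 0) ?_
    (Finset.mem_range.2 (by omega))
  · simpa using h
  · intro a ha
    have h1 : (a : ℝ) < b := by exact_mod_cast Finset.mem_range.1 ha
    have h2 := cc_pos (i + a)
    have h3 : (0:ℝ) ≤ (b : ℝ) - a := by linarith
    positivity

theorem PP_pos (i b : ℕ) (hb : 1 ≤ b) : 0 < PP i b := by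
  have h1 := PP_ge i b hb
  have h2 := cc_pos i
  have h3 : (1:ℝ) ≤ b := by exact_mod_cast hb
  nlinarith

theorem div_PP_le (i b : ℕ) (hb : 1 ≤ b) : (b : ℝ) / PP i b ≤ nn i ^ 2 := by
  have h1 := PP_ge i b hb
  have h2 := PP_pos i b hb
  rw [div_le_iff₀ h2]
  unfold cc at h1
  have h3 := nn_pos i
  have h4 : (b : ℝ) = nn i ^ 2 * (1 / nn i ^ 2 * b) := by field_simp
  calc (b : ℝ) = nn i ^ 2 * (1 / nn i ^ 2 * b) := h4
    _ ≤ _ := mul_le_mul_of_nonneg_left h1 (by positivity)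

theorem one_div_PP_le (i b : ℕ) (hb : 1 ≤ b) : 1 / PP i b ≤ nn i ^ 2 := by
  refine le_trans ?_ (div_PP_le i b hb)
  have h2 := PP_pos i b hb
  have h3 : (1:ℝ) ≤ b := by exact_mod_cast hb
  exact div_le_div_of_nonneg_right h3 h2.le

/-- the factors -/
noncomputable def fac (i b : ℕ) (z : ℂ × ℂ) : ℂ := 1 - ((b : ℂ) * z.1 - z.2) / (PP i b : ℂ)

/-- the product of the factors -/
noncomputable def Qf (i : ℕ) (z : ℂ × ℂ) : ℂ := ∏ b ∈ range (AA i), fac i (b + 1) z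

/-- the holomorphic function -/
noncomputable def Ff (i : ℕ) (z : ℂ × ℂ) : ℂ := 1 - Qf i z

/-- the building block -/
noncomputable def VV (φ : ℝ → ℝ) (i : ℕ) (z : ℂ × ℂ) : ℝ :=
  smax φ (nn i) (fun z => (AA i : ℝ) * nsq z) (Ff i) z

theorem fac_holo (i b : ℕ) : ContDiff ℂ ((⊤ : ℕ∞) : WithTop ℕ∞) (fac i b) := by
  unfold fac
  exact contDiff_const.sub (((contDiff_const.mul contDiff_fst).sub contDiff_snd).div_const _)

theorem Qf_holo (i : ℕ) : ContDiff ℂ ((⊤ : ℕ∞) : WithTop ℕ∞) (Qf i) := by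
  unfold Qf
  exact contDiff_prod fun b _ => fac_holo i (b + 1)

theorem Ff_holo (i : ℕ) : ContDiff ℂ ((⊤ : ℕ∞) : WithTop ℕ∞) (Ff i) := by
  unfold Ff
  exact contDiff_const.sub (Qf_holo i)

theorem Ff_smooth (i : ℕ) : Sm (Ff i) := (Ff_holo i).restrict_scalars ℝ

theorem Bnsq_smooth (i : ℕ) : Sm (fun z => (AA i : ℝ) * nsq z) := contDiff_const.mul nsq_smooth

theorem VV_smooth (φ : ℝ → ℝ) (hφ : IsPhi φ) (i : ℕ) : Sm (VV φ i) :=
  smax_contDiff φ hφ _ _ _ (Bnsq_smooth i) (Ff_smooth i)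

/-! ### bounds -/

theorem Bd.const_mulC {E : Type*} [NormedAddCommGroup E] [NormedSpace ℝ E] {n : ℕ} {K : ℝ}
    {f : E → ℂ} {x : E} (c : ℂ) (hf : Sm f) (h : Bd n K f x) :
    Bd n (‖c‖ * K) (fun y => c * f y) x := by
  have h1 := Bd.clm (ContinuousLinearMap.mul ℝ ℂ c) hf h
  refine h1.mono ?_
  exact mul_le_mul_of_nonneg_right (ContinuousLinearMap.opNorm_mul_apply_le ℝ ℂ c) h.nonneg

theorem Bd.const_mulR {E : Type*} [NormedAddCommGroup E] [NormedSpace ℝ E] {n : ℕ} {K : ℝ}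
    {f : E → ℝ} {x : E} (c : ℝ) (hf : Sm f) (h : Bd n K f x) :
    Bd n (|c| * K) (fun y => c * f y) x := by
  have h1 := Bd.clm (ContinuousLinearMap.mul ℝ ℝ c) hf h
  refine h1.mono ?_
  exact mul_le_mul_of_nonneg_right (ContinuousLinearMap.opNorm_mul_apply_le ℝ ℝ c) h.nonneg

theorem gauC_smooth : Sm (fun z => ((gau z : ℝ) : ℂ)) := Complex.ofRealCLM.contDiff.comp gau_smooth

theorem gfac_smooth (i b : ℕ) : Sm (fun z => ((gau z : ℝ) : ℂ) * fac i b z) :=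
  gauC_smooth.mul ((fac_holo i b).restrict_scalars ℝ)

theorem nn_sq_ge (i : ℕ) : 1 ≤ nn i ^ 2 := by
  have h := nn_ge i
  have : (1:ℝ) ≤ nn i := le_trans (by norm_num) h
  nlinarith

theorem gfac_bd (n : ℕ) (C : ℝ) (hC : 1 ≤ C) (z : ℂ × ℂ)
    (h0 : Bd n C (fun z => ((gau z : ℝ) : ℂ)) z)
    (h1 : Bd n C (fun z : ℂ × ℂ => ((gau z : ℝ) : ℂ) * z.1) z)
    (h2 : Bd n C (fun z : ℂ × ℂ => ((gau z : ℝ) : ℂ) * z.2) z) (i b : ℕ) (hb : 1 ≤ b) :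
    Bd n (3 * C * nn i ^ 2) (fun z => ((gau z : ℝ) : ℂ) * fac i b z) z := by
  have hP := PP_pos i b hb
  have s1 : Sm (fun z : ℂ × ℂ => ((gau z : ℝ) : ℂ) * z.1) := gauC_smooth.mul contDiff_fst
  have s2 : Sm (fun z : ℂ × ℂ => ((gau z : ℝ) : ℂ) * z.2) := gauC_smooth.mul contDiff_snd
  have k1 := Bd.const_mulC ((b : ℂ) / (PP i b : ℂ)) s1 h1
  have k2 := Bd.const_mulC (1 / (PP i b : ℂ)) s2 h2
  have k3 := Bd.add (gauC_smooth.sub (contDiff_const.mul s1)) (contDiff_const.mul s2)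
    (Bd.sub gauC_smooth (contDiff_const.mul s1) h0 k1) k2
  have e : (fun z : ℂ × ℂ => ((gau z : ℝ) : ℂ) - ((b : ℂ) / (PP i b : ℂ)) * (((gau z : ℝ) : ℂ) * z.1)
      + (1 / (PP i b : ℂ)) * (((gau z : ℝ) : ℂ) * z.2)) = fun z => ((gau z : ℝ) : ℂ) * fac i b z := by
    funext z
    unfold fac
    ring
  rw [e] at k3
  refine k3.mono ?_
  have n1 : ‖(b : ℂ) / (PP i b : ℂ)‖ ≤ nn i ^ 2 := by
    rw [norm_div, Complex.norm_real, Complex.norm_natCast, Real.norm_of_nonneg hP.le]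
    exact div_PP_le i b hb
  have n2 : ‖1 / (PP i b : ℂ)‖ ≤ nn i ^ 2 := by
    rw [norm_div, Complex.norm_real, norm_one, Real.norm_of_nonneg hP.le]
    exact one_div_PP_le i b hb
  have n3 := nn_sq_ge i
  nlinarith

/-- power of the Gaussian -/
@[irreducible] noncomputable def Ya (i : ℕ) (z : ℂ × ℂ) : ℂ :=
  ∏ _b ∈ range (AA i), ((gau z : ℝ) : ℂ)
/-- power of the Gaussian times the product of the factors -/
@[irreducible] noncomputable def Yb (i : ℕ) (z : ℂ × ℂ) : ℂ :=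
  ∏ b ∈ range (AA i), (((gau z : ℝ) : ℂ) * fac i (b + 1) z)
/-- the function `e^{-A|z|^2} F` -/
noncomputable def Yf (i : ℕ) (z : ℂ × ℂ) : ℂ := Ya i z - Yb i z

theorem Yf_eq (i : ℕ) (z : ℂ × ℂ) : Yf i z = ((Real.exp (-((AA i : ℝ) * nsq z)) : ℝ) : ℂ) * Ff i z := by
  unfold Yf Ya Yb Ff Qf gau
  rw [Finset.prod_mul_distrib, Finset.prod_const, Finset.card_range]
  have : ((Real.exp (-nsq z) : ℝ) : ℂ) ^ (AA i) = ((Real.exp (-((AA i : ℝ) * nsq z)) : ℝ) : ℂ) := by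
    rw [← Complex.ofReal_pow, ← Real.exp_nat_mul]
    congr 2
    ring
  rw [this]
  ring

theorem Ya_bd (n : ℕ) (C : ℝ) (z : ℂ × ℂ)
    (h0 : Bd n C (fun z => ((gau z : ℝ) : ℂ)) z) (i : ℕ) :
    Sm (Ya i) ∧ Bd n ((2 ^ n * C) ^ (AA i)) (Ya i) z := by
  have e : Ya i = (fun z => ∏ _b ∈ range (AA i), ((gau z : ℝ) : ℂ)) := by
    funext z; unfold Ya; rfl
  rw [e]
  exact Bd.prod (n := n) (K := C) (fun _ => fun z => ((gau z : ℝ) : ℂ)) (fun _ => gauC_smooth)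
    (AA i) (x := z) (fun _ _ => h0)

theorem Yb_bd (n : ℕ) (C : ℝ) (hC : 1 ≤ C) (z : ℂ × ℂ)
    (h0 : Bd n C (fun z => ((gau z : ℝ) : ℂ)) z)
    (h1 : Bd n C (fun z : ℂ × ℂ => ((gau z : ℝ) : ℂ) * z.1) z)
    (h2 : Bd n C (fun z : ℂ × ℂ => ((gau z : ℝ) : ℂ) * z.2) z) (i : ℕ) :
    Sm (Yb i) ∧ Bd n ((2 ^ n * (3 * C * nn i ^ 2)) ^ (AA i)) (Yb i) z := by
  have e : Yb i = (fun z => ∏ b ∈ range (AA i), (((gau z : ℝ) : ℂ) * fac i (b + 1) z)) := by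
    funext z; unfold Yb; rfl
  rw [e]
  have k : ∀ b, Bd n (3 * C * nn i ^ 2) (fun z => ((gau z : ℝ) : ℂ) * fac i (b + 1) z) z :=
    fun b => gfac_bd n C hC z h0 h1 h2 i (b + 1) (Nat.succ_le_succ (Nat.zero_le b))
  have k2 : ∀ b, Sm (fun z => ((gau z : ℝ) : ℂ) * fac i (b + 1) z) := fun b => gfac_smooth i (b + 1)
  exact Bd.prod (n := n) (K := 3 * C * nn i ^ 2)
    (fun b => fun z => ((gau z : ℝ) : ℂ) * fac i (b + 1) z) k2 (AA i) (x := z) (fun b _ => k b)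

theorem Yf_bd_aux (n : ℕ) (C : ℝ) (hC : 1 ≤ C) (z : ℂ × ℂ)
    (h0 : Bd n C (fun z => ((gau z : ℝ) : ℂ)) z)
    (h1 : Bd n C (fun z : ℂ × ℂ => ((gau z : ℝ) : ℂ) * z.1) z)
    (h2 : Bd n C (fun z : ℂ × ℂ => ((gau z : ℝ) : ℂ) * z.2) z) (i : ℕ) :
    Sm (Yf i) ∧ Bd n ((2 ^ n * C) ^ (AA i) + (2 ^ n * (3 * C * nn i ^ 2)) ^ (AA i)) (Yf i) z := by
  have p1 := Ya_bd n C z h0 i
  have p2 := Yb_bd n C hC z h0 h1 h2 i
  refine ⟨p1.1.sub p2.1, ?_⟩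
  exact Bd.sub p1.1 p2.1 p1.2 p2.2

theorem Yf_bd (n : ℕ) : ∃ D : ℕ → ℝ, Expo D ∧ ∀ i z, Sm (Yf i) ∧ Bd n (D i) (Yf i) z := by
  obtain ⟨C, hC, hCz⟩ := gau_uniform n
  have h2n : (1:ℝ) ≤ 2 ^ n := one_le_pow₀ (by norm_num)
  obtain ⟨K, hKdef⟩ : ∃ K : ℝ, K = 2 ^ n * (3 * C) := ⟨_, rfl⟩
  have hK : 1 ≤ K := by
    rw [hKdef]; nlinarith
  refine ⟨fun i => 2 * (K * nn i ^ 2) ^ (AA i),
    (Expo.const 2 (by norm_num)).mul (expo_prod _ hK), fun i z => ?_⟩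
  obtain ⟨h0, h1, h2⟩ := hCz z
  obtain ⟨s, b⟩ := Yf_bd_aux n C hC z h0 h1 h2 i
  refine ⟨s, b.mono ?_⟩
  have n3 := nn_sq_ge i
  have e2 : 2 ^ n * (3 * C * nn i ^ 2) = K * nn i ^ 2 := by rw [hKdef]; ring
  rw [e2]
  have e1 : (2 ^ n * C) ^ (AA i) ≤ (K * nn i ^ 2) ^ (AA i) := by
    apply pow_le_pow_left₀ (by positivity)
    rw [← e2]
    apply mul_le_mul_of_nonneg_left _ (by positivity)
    nlinarith
  show _ ≤ 2 * (K * nn i ^ 2) ^ (AA i)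
  linarith

theorem normsq_bd (n : ℕ) {K : ℝ} {Y : ℂ × ℂ → ℂ} (hY : Sm Y) {z : ℂ × ℂ} (h : Bd n K Y z) :
    Bd n (2 ^ n * K * K + 2 ^ n * K * K) (fun z => ‖Y z‖ ^ 2) z := by
  have hK := h.nonneg
  have sr : Sm (fun z => (Y z).re) := Complex.reCLM.contDiff.comp hY
  have si : Sm (fun z => (Y z).im) := Complex.imCLM.contDiff.comp hY
  have r1 : Bd n K (fun z => (Y z).re) z := by
    refine (Bd.clm Complex.reCLM hY h).mono ?_
    rw [Complex.reCLM_norm, one_mul]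
  have i1 : Bd n K (fun z => (Y z).im) z := by
    refine (Bd.clm Complex.imCLM hY h).mono ?_
    rw [Complex.imCLM_norm, one_mul]
  have h2 := Bd.add (sr.mul sr) (si.mul si) (Bd.mul sr sr r1 r1) (Bd.mul si si i1 i1)
  have e : (fun z => ‖Y z‖ ^ 2) = fun y => (Y y).re * (Y y).re + (Y y).im * (Y y).im := by
    funext y
    rw [← Complex.normSq_eq_norm_sq, Complex.normSq_apply]
  rw [e]
  exact h2

theorem phi_bdd_all (φ : ℝ → ℝ) (hφ : IsPhi φ) (n : ℕ) : ∃ C : ℝ, 0 ≤ C ∧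
    ∀ l, 1 ≤ l → l ≤ n → ∀ s, ‖iteratedFDeriv ℝ l φ s‖ ≤ C := by
  induction n with
  | zero => exact ⟨0, le_rfl, fun l h1 h2 => by omega⟩
  | succ n ih =>
    obtain ⟨C, hC0, hC⟩ := ih
    obtain ⟨D, hD0, hD⟩ := hφ.bdd (n + 1) (by omega)
    refine ⟨C + D, by linarith, fun l h1 h2 s => ?_⟩
    rcases Nat.lt_or_ge l (n + 1) with h | h
    · have := hC l h1 (by omega) s
      linarith
    · obtain rfl : l = n + 1 := by omega
      have := hD s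
      linarith

theorem phi_abs (φ : ℝ → ℝ) (hφ : IsPhi φ) (t : ℝ) (ht : 0 ≤ t) : |φ t| ≤ 1 + t := by
  rw [abs_le]
  constructor
  · have h1 := hφ.mono ht
    have h2 := hφ.lo
    linarith
  · have h1 := hφ.mono (show t ≤ t + 1 by linarith)
    rw [hφ.eq_log (t + 1) (by linarith)] at h1
    have h2 := Real.log_le_sub_one_of_pos (show 0 < t + 1 by linarith)
    linarith

theorem phi_comp_bd (φ : ℝ → ℝ) (hφ : IsPhi φ) (n : ℕ) : ∃ C : ℝ, 0 ≤ C ∧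
    ∀ (G : ℂ × ℂ → ℝ) (_ : Sm G) (K : ℝ) (_ : 1 ≤ K) (z : ℂ × ℂ) (_ : 0 ≤ G z) (_ : Bd n K G z),
      Bd n (n.factorial * (C + 1 + K) * K ^ n) (fun z => φ (G z)) z := by
  obtain ⟨C, hC0, hC⟩ := phi_bdd_all φ hφ n
  refine ⟨C, hC0, fun G hG K hK z hG0 h => ?_⟩
  have h1 : Bd n (C + 1 + K) φ (G z) := by
    intro l hl
    rcases Nat.eq_zero_or_pos l with h0 | h0
    · subst h0
      rw [norm_iteratedFDeriv_zero, Real.norm_eq_abs]
      have h2 := phi_abs φ hφ (G z) hG0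
      have h3 := h.norm_le
      rw [Real.norm_eq_abs] at h3
      have h4 := le_abs_self (G z)
      linarith
    · have := hC l h0 hl (G z)
      linarith
  exact Bd.comp hφ.smooth hG hK h1 (fun l _ hl => h l hl)

theorem VV_eq (φ : ℝ → ℝ) (i : ℕ) (z : ℂ × ℂ) :
    VV φ i z = (AA i : ℝ) * nsq z - nn i + φ (Real.exp (2 * nn i) * ‖Yf i z‖ ^ 2) := by
  unfold VV smax
  rw [Yf_eq, norm_mul, Complex.norm_real, Real.norm_of_nonneg (Real.exp_pos _).le, mul_pow,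
    ← Real.exp_nat_mul, ← mul_assoc, ← Real.exp_add]
  congr 4
  push_cast
  ring

theorem VV_bd (φ : ℝ → ℝ) (hφ : IsPhi φ) (n : ℕ) : ∃ a : ℕ → ℝ, Expo a ∧
    ∀ i z, Bd n (a i * (1 + ‖z‖) ^ 2) (VV φ i) z := by
  obtain ⟨D, hD, hDz⟩ := Yf_bd n
  obtain ⟨C, hC0, hC⟩ := phi_comp_bd φ hφ n
  obtain ⟨KG, hKG⟩ : ∃ KG : ℕ → ℝ, KG = fun i => Real.exp (2 * nn i) * (2 ^ n * 2 * (D i * D i)) + 1 :=
    ⟨_, rfl⟩
  have hKGe : Expo KG := by
    rw [hKG]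
    exact ((expo_exp_nn 2 (by norm_num)).mul ((Expo.const (2 ^ n * 2) (by positivity)).mul
      (hD.mul hD))).add (Expo.const 1 (by norm_num))
  have hKG1 : ∀ i, 1 ≤ KG i := by
    intro i
    rw [hKG]
    have := hD.nonneg i
    have h2 : 0 ≤ Real.exp (2 * nn i) * (2 ^ n * 2 * (D i * D i)) := by positivity
    show 1 ≤ Real.exp (2 * nn i) * (2 ^ n * 2 * (D i * D i)) + 1
    linarith
  refine ⟨fun i => (AA i : ℝ) * (4 * 2 ^ n) + nn i + n.factorial * (C + 1 + KG i) * KG i ^ n, ?_, ?_⟩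
  · have h1 : Expo (fun i => (AA i : ℝ) * (4 * 2 ^ n)) := expo_AA.mul (Expo.const _ (by positivity))
    have h2 : Expo (fun i => (n.factorial : ℝ) * (C + 1 + KG i)) :=
      (Expo.const _ (by positivity)).mul ((Expo.const (C + 1) (by linarith)).add hKGe)
    exact (h1.add expo_nn).add (h2.mul (hKGe.pow n))
  · intro i z
    obtain ⟨hYs, hYb⟩ := hDz i z
    have hD0 := hD.nonneg i
    have sG0 : Sm (fun z => ‖Yf i z‖ ^ 2) := hYs.norm_sq ℝ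
    have sG : Sm (fun z => Real.exp (2 * nn i) * ‖Yf i z‖ ^ 2) := contDiff_const.mul sG0
    have b1 : Bd n (KG i) (fun z => Real.exp (2 * nn i) * ‖Yf i z‖ ^ 2) z := by
      refine (Bd.const_mulR (Real.exp (2 * nn i)) sG0 (normsq_bd n hYs hYb)).mono ?_
      rw [abs_of_pos (Real.exp_pos _), hKG]
      show _ ≤ Real.exp (2 * nn i) * (2 ^ n * 2 * (D i * D i)) + 1
      have : Real.exp (2 * nn i) * (2 ^ n * D i * D i + 2 ^ n * D i * D i)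
        = Real.exp (2 * nn i) * (2 ^ n * 2 * (D i * D i)) := by ring
      rw [this]
      linarith
    have b2 := hC _ sG (KG i) (hKG1 i) z (by positivity) b1
    have sp : Sm (fun z => φ (Real.exp (2 * nn i) * ‖Yf i z‖ ^ 2)) := hφ.smooth.comp sG
    have b3 : Bd n ((AA i : ℝ) * (4 * (2 ^ n * (1 + ‖z‖) ^ 2))) (fun z => (AA i : ℝ) * nsq z) z := by
      have h := Bd.const_mulR (AA i : ℝ) nsq_smooth (nsq_bd n z)
      rwa [abs_of_nonneg (show (0:ℝ) ≤ AA i by positivity)] at h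
    have b4 := Bd.sub (Bnsq_smooth i) (contDiff_const (c := nn i)) b3 (Bd.const (n := n) (nn i) z)
    have b5 := Bd.add ((Bnsq_smooth i).sub (contDiff_const (c := nn i))) sp b4 b2
    have e : VV φ i = fun z => (AA i : ℝ) * nsq z - nn i + φ (Real.exp (2 * nn i) * ‖Yf i z‖ ^ 2) :=
      funext (VV_eq φ i)
    rw [e]
    refine b5.mono ?_
    rw [Real.norm_of_nonneg (nn_pos i).le]
    have h1 : 1 ≤ (1 + ‖z‖) ^ 2 := one_le_pow₀ (by linarith [norm_nonneg z])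
    have h2 := hKG1 i
    have h3 : 0 ≤ n.factorial * (C + 1 + KG i) * KG i ^ n := by positivity
    have h4 := (nn_pos i).le
    have e2 : (AA i : ℝ) * (4 * (2 ^ n * (1 + ‖z‖) ^ 2)) = (AA i : ℝ) * (4 * 2 ^ n) * (1 + ‖z‖) ^ 2 := by ring
    rw [e2]
    nlinarith [mul_nonneg h3 (sub_nonneg.2 h1), mul_nonneg h4 (sub_nonneg.2 h1)]

end Pool.Agent.TH234.Kc
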